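import Mathlib
import Pool.Agent.H459R3.NS.Defs

/-!
Definitions for the forced Navier-Stokes equations in the periodic case: the condition (P2) on
forces, admissible periodic solutions, Sobolev norms of negative order.
`V = ℝ³`, `K3 = ℤ³`, `Per` (periodicity), `pd` (partial derivatives) and `fr` (Fourier coefficients)
are those of `Pool.Agent.H459R3.NS.Defs`.
-/

open MeasureTheory Set
open scoped ContDiff ENNReal

namespace Pool.Agent.W785.DF

open H459R3.NS (V K3 Per pd fr)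

/-- Admissible periodic forces (condition (P2) of the problem): `f` is `C^∞` on `[0,∞) × ℝ³`,
`1`-periodic in each coordinate of `x`, and all its derivatives in `(t, x)`, of any order, decay faster
than any power of `t`, uniformly in `x`. -/
structure IsForce (f : ℝ → V → V) : Prop where
  smooth : ContDiffOn ℝ ∞ (fun z : ℝ × V => f z.1 z.2) (Ici 0 ×ˢ univ)
  per : ∀ t, 0 ≤ t → Per (f t)
  decay : ∀ m K : ℕ, ∃ C : ℝ, ∀ t, 0 ≤ t → ∀ x,
    (1 + t) ^ K *
      ‖iteratedFDerivWithin ℝ m (fun z : ℝ × V => f z.1 z.2) (Ici 0 ×ˢ univ) (t, x)‖ ≤ C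

/-- `(u, p)` is an admissible periodic solution of the Navier-Stokes equations with viscosity `ν`,
force `f` and initial velocity `u0`: `u` and `p` are `C^∞` on `[0,∞) × ℝ³`, `1`-periodic in each
coordinate of `x`, `∂_t u_i + ∑_j u_j ∂_j u_i = ν Δ u_i - ∂_i p + f_i` and `div u = 0` for all
`t ≥ 0` and all `x` (with one-sided time derivatives at `t = 0`), and `u(0) = u0`. -/
structure IsAdmissible (ν : ℝ) (u0 : V → V) (f : ℝ → V → V) (u : ℝ → V → V) (p : ℝ → V → ℝ) :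
    Prop where
  smooth_u : ContDiffOn ℝ ∞ (fun z : ℝ × V => u z.1 z.2) (Ici 0 ×ˢ univ)
  smooth_p : ContDiffOn ℝ ∞ (fun z : ℝ × V => p z.1 z.2) (Ici 0 ×ˢ univ)
  per_u : ∀ t, 0 ≤ t → Per (u t)
  per_p : ∀ t, 0 ≤ t → Per (p t)
  momentum : ∀ t, 0 ≤ t → ∀ x i,
    derivWithin (fun s => u s x i) (Ici 0) t + ∑ j, u t x j * pd j (fun y => u t y i) x
      = ν * ∑ j, pd j (pd j fun y => u t y i) x - pd i (p t) x + f t x i
  divfree : ∀ t, 0 ≤ t → ∀ x, ∑ i, pd i (fun y => u t y i) x = 0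
  initial : u 0 = u0

/-- The norm of the Sobolev space `H^r` of the torus, `r` any real number:
`(∑_k (1 + |k|²)^r |v̂(k)|²)^(1/2)`, where `|v̂(k)|² = ∑_i |v̂_i(k)|²`. -/
noncomputable def sobNorm (r : ℝ) (v : V → V) : ℝ≥0∞ :=
  (∑' k : K3, ENNReal.ofReal ((1 + ∑ j, (k j : ℝ) ^ 2) ^ r) * ∑ i, ‖fr (fun x => v x i) k‖ₑ ^ 2)
    ^ (1 / 2 : ℝ)

end Pool.Agent.W785.DF
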