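import Mathlib
import Pool.Agent.W785.DF.Defs
import Pool.Agent.H459R3.NS.Four

/-!
Coefficient families, the Galerkin system with extra viscosity.
-/

open MeasureTheory Set
open scoped ContDiff InnerProductSpace

namespace Pool.Agent.W785.DF

open H459R3.NS (V K3)

/-- Fourier coefficients of a vector field at one frequency. -/
abbrev E3 := EuclideanSpace ℂ (Fin 3)

/-- `|k|²` -/
noncomputable def sq (k : K3) : ℝ := ∑ j, (k j : ℝ) ^ 2

/-- `k · v` (bilinear) -/
noncomputable def dk (k : K3) (v : E3) : ℂ := ∑ j, (k j : ℂ) * v j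

/-- the vector `k` -/
noncomputable def kv (k : K3) : E3 := WithLp.toLp 2 fun j => (k j : ℂ)

/-- complex conjugation -/
noncomputable def cj (v : E3) : E3 := WithLp.toLp 2 fun j => star (v j)

/-- the Leray projection at frequency `k` -/
noncomputable def Pk (k : K3) (v : E3) : E3 := v - (dk k v / (sq k : ℂ)) • kv k

/-- Fourier coefficients of `(v·∇)v`, `v = ∑_{k ∈ S} a(k) exp(2πi k·x)`, `a = 0` off `S`. -/
noncomputable def Nl (S : Finset K3) (a : K3 → E3) (k : K3) : E3 :=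
  ∑ l ∈ S, (2 * Real.pi * Complex.I * dk (k - l) (a l)) • a (k - l)

/-- Coefficients of real divergence free trigonometric polynomials with frequencies in `S`. -/
structure Fld (S : Finset K3) (a : K3 → E3) : Prop where
  supp : ∀ k, k ∉ S → a k = 0
  sym : ∀ k, a (-k) = cj (a k)
  div : ∀ k, dk k (a k) = 0

/-- `∑ |a|²` -/
noncomputable def X2 (S : Finset K3) (a : K3 → E3) : ℝ := ∑ k ∈ S, ‖a k‖ ^ 2

/-- `∑ |k|² |a|²` -/
noncomputable def Y2 (S : Finset K3) (a : K3 → E3) : ℝ := ∑ k ∈ S, sq k * ‖a k‖ ^ 2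

/-- `∑ |k|⁴ |a|²` -/
noncomputable def D2 (S : Finset K3) (a : K3 → E3) : ℝ := ∑ k ∈ S, sq k ^ 2 * ‖a k‖ ^ 2

/-- `∑ |a|` -/
noncomputable def L1 (S : Finset K3) (a : K3 → E3) : ℝ := ∑ k ∈ S, ‖a k‖

/-- The extra viscosity as a function of the enstrophy: `(y/h)^(1/4)` for `y ≥ 2h`, and `0` for
`y ≤ h`. -/
noncomputable def mh (h y : ℝ) : ℝ := (y / h) ^ (1 / 4 : ℝ) * Real.smoothTransition (y / h - 1)

/-- Restriction to high frequencies: `1` for `|k|² ≥ y/(4R²)` and `0` for `|k|² ≤ y/(8R²)`. -/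
noncomputable def th (R : ℝ) (k : K3) (y : ℝ) : ℝ := Real.smoothTransition (8 * R ^ 2 * sq k / y - 1)

/-- The extra viscosity at frequency `k` if the enstrophy is `y`. -/
noncomputable def vs (h R : ℝ) (k : K3) (y : ℝ) : ℝ := mh h y * th R k y

/-- Admissible finite sets of frequencies. -/
structure Fr (S : Finset K3) : Prop where
  zero : (0 : K3) ∉ S
  neg : ∀ k ∈ S, -k ∈ S

/-- A solution on `[0,T]` of the Galerkin system on the set `S` of frequencies, with viscosity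
`ν + w k (Y2)`, force `ψ`, transported by the mean flow `mm`. -/
structure Gal (S : Finset K3) (ν : ℝ) (w : K3 → ℝ → ℝ) (T : ℝ) (mm : ℝ → E3) (ψ : ℝ → K3 → E3)
    (a0 : K3 → E3) (a : ℝ → K3 → E3) : Prop where
  fld : ∀ t ∈ Icc 0 T, Fld S (a t)
  smooth : ∀ k, ContDiffOn ℝ ∞ (fun t => a t k) (Icc 0 T)
  ode : ∀ t ∈ Icc 0 T, ∀ k ∈ S, HasDerivWithinAt (fun s => a s k)
    (-((2 * Real.pi * Complex.I * dk k (mm t)) • a t k) - Pk k (Nl S (a t) k)
      - (((ν + w k (Y2 S (a t))) * (4 * Real.pi ^ 2 * sq k) : ℝ) : ℂ) • a t k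
      + Pk k (ψ t k)) (Icc 0 T) t
  init : a 0 = a0

end Pool.Agent.W785.DF
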