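import Mathlib
import Pool.Agent.W785.DF.Base

/-!
Statements of the parts of the proof (as propositions).
-/

open MeasureTheory Set
open scoped ContDiff InnerProductSpace

namespace Pool.Agent.W785.DF

open H459R3.NS (V K3 Per pd fr ee)

/-- Agmon's inequality `∑ |a| ≤ C (∑ |k|²|a|²)^(1/4) (∑ |k|⁴|a|²)^(1/4)`. -/
def S_agmon : Prop := ∃ C : ℝ, 0 < C ∧ ∀ (S : Finset K3), (0 : K3) ∉ S → ∀ a : K3 → E3,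
  L1 S a ^ 4 ≤ C * (Y2 S a * D2 S a)

/-- Existence for the Galerkin system. -/
def S_ode : Prop := ∀ (S : Finset K3), Fr S → ∀ (ν T : ℝ), 0 < ν → 0 < T →
  ∀ w : K3 → ℝ → ℝ, (∀ k, ContDiff ℝ ∞ (w k)) → (∀ k y, 0 ≤ y → 0 ≤ w k y) →
  (∀ k y, w (-k) y = w k y) →
  ∀ mm : ℝ → E3, ContDiff ℝ ∞ mm → (∀ t, cj (mm t) = mm t) →
  ∀ ψ : ℝ → K3 → E3, (∀ k, ContDiff ℝ ∞ (fun t => ψ t k)) → (∀ t k, ψ t (-k) = cj (ψ t k)) →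
  ∀ a0 : K3 → E3, Fld S a0 → ∃ a : ℝ → K3 → E3, Gal S ν w T mm ψ a0 a

/-- The condition (P2) for a force which is `-f` for large times. -/
def S_p2 : Prop := ∀ f g : ℝ → V → V, IsForce f →
  ContDiffOn ℝ ∞ (fun z : ℝ × V => g z.1 z.2) (Ici 0 ×ˢ univ) → (∀ t, 0 ≤ t → Per (g t)) →
  ∀ T : ℝ, (∀ t, T ≤ t → ∀ x, g t x = -f t x) → IsForce g

/-- Uniform convergence of the Fourier series of smooth periodic fields, with two derivatives. -/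
def S_tail : Prop := ∀ h : V → ℝ, ContDiff ℝ ∞ h → Per h → ∀ ε : ℝ, 0 < ε → ∃ S0 : Finset K3,
  ∀ S : Finset K3, S0 ⊆ S → ∀ r : V → ℝ, (∀ x, r x = h x - (∑ k ∈ S, fr h k * ee k x).re) →
    ContDiff ℝ ∞ r ∧ Per r ∧ ∀ x, |r x| ≤ ε ∧ (∀ j, |pd j r x| ≤ ε) ∧
      |∑ j, pd j (pd j r) x| ≤ ε

/-- The Fourier coefficients of an admissible force decay in time in `ℓ²`. -/
def S_fbound : Prop := ∀ f : ℝ → V → V, IsForce f → ∃ C : ℝ, 0 < C ∧ ∀ t, 0 ≤ t →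
  ∀ G : Finset K3, ∑ k ∈ G, ∑ i, ‖fr (fun x => f t x i) k‖ ^ 2 ≤ (C / (1 + t) ^ 2) ^ 2

/-- Approximation of the Fourier coefficients of an admissible force by finitely many smooth
functions of the time. -/
def S_force : Prop := ∀ f : ℝ → V → V, IsForce f → ∀ T η : ℝ, 0 < T → 0 < η → ∃ S0 : Finset K3,
  ∀ S : Finset K3, Fr S → S0 ⊆ insert 0 S → ∃ ψ : ℝ → K3 → E3,
    (∀ k, ContDiff ℝ ∞ (fun t => ψ t k)) ∧ (∀ t k, ψ t (-k) = cj (ψ t k)) ∧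
    (∀ t k, k ∉ insert 0 S → ψ t k = 0) ∧
    ∀ t ∈ Icc 0 T, ∀ G : Finset K3,
      ∑ k ∈ G, ∑ i, ‖ψ t k i - fr (fun x => f t x i) k‖ ^ 2 ≤ η ^ 2

/-- The nonlinear term conserves the energy. -/
def S_energy : Prop := ∀ (S : Finset K3), Fr S → ∀ a : K3 → E3, Fld S a →
  ∑ k ∈ S, (⟪a k, Nl S a k⟫_ℂ).re = 0

/-- Young's inequality for the nonlinear term. -/
def S_young : Prop := ∀ (S G : Finset K3) (a : K3 → E3), (∀ k, k ∉ S → a k = 0) →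
  ∑ k ∈ G, ‖Nl S a k‖ ^ 2 ≤ (2 * Real.pi) ^ 2 * (L1 S a ^ 2 * Y2 S a)

/-- A priori estimates for the Galerkin system. -/
def S_est : Prop := ∃ C : ℝ, 0 < C ∧ ∀ (S : Finset K3), Fr S → ∀ (ν h R T : ℝ), 0 < ν → 1 ≤ h →
  0 < R → 0 < T → ∀ mm : ℝ → E3, (∀ t, cj (mm t) = mm t) → ∀ (ψ : ℝ → K3 → E3) (a0 : K3 → E3)
  (a : ℝ → K3 → E3), Gal S ν (vs h R) T mm ψ a0 a → ∀ φ : ℝ → ℝ, Continuous φ → (∀ t, 0 ≤ φ t) →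
  (∀ t ∈ Icc 0 T, ∑ k ∈ S, ‖ψ t k‖ ^ 2 ≤ φ t ^ 2) →
  Real.sqrt (X2 S a0) + ∫ s in (0 : ℝ)..T, φ s ≤ R →
  (∀ t ∈ Icc 0 T, Real.sqrt (X2 S (a t)) ≤ Real.exp (-(4 * Real.pi ^ 2 * ν * t))
      * Real.sqrt (X2 S a0) + ∫ s in (0 : ℝ)..t, Real.exp (-(4 * Real.pi ^ 2 * ν * (t - s))) * φ s) ∧
  (∀ t ∈ Icc 0 T, 3 * Real.pi ^ 2 * (∫ s in t..T, (ν + mh h (Y2 S (a s))) * Y2 S (a s))
      ≤ (Real.sqrt (X2 S (a t)) + ∫ s in t..T, φ s) ^ 2) ∧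
  ∀ t ∈ Icc 0 T, Real.log (1 + Y2 S (a t)) + 4 * Real.pi ^ 2 * (∫ s in (0 : ℝ)..t,
      (ν + mh h (Y2 S (a s))) * D2 S (a s) / (1 + Y2 S (a s)))
    ≤ Real.log (1 + Y2 S a0) + C * (h * (1 / ν ^ 4 + 1) * R ^ 2
      + (∫ s in (0 : ℝ)..T, φ s ^ 2) / ν)

/-- The nonlinear term in Sobolev norms of order below `-1/2`. -/
def S_conv : Prop := ∀ s : ℝ, 1 / 2 < s → ∃ C : ℝ, 0 < C ∧ ∀ (S G : Finset K3) (a : K3 → E3),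
  (0 : K3) ∉ S → (∀ k, k ∉ S → a k = 0) →
  ∑ k ∈ G, (1 + sq k) ^ (-s) * ‖Nl S a k‖ ^ 2 ≤ C * Y2 S a ^ 2

end Pool.Agent.W785.DF
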