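import Mathlib
import Pool.Agent.W785.DF.Stubs

/-!
Algebra of the Galerkin system.
-/

open MeasureTheory Set
open scoped ContDiff InnerProductSpace ComplexConjugate

namespace Pool.Agent.W785.DF

open H459R3.NS (V K3)

theorem sq_nonneg' (k : K3) : 0 ≤ sq k := Finset.sum_nonneg fun _ _ => sq_nonneg _

theorem one_le_sq {k : K3} (hk : k ≠ 0) : 1 ≤ sq k := by
  obtain ⟨j, hj⟩ : ∃ j, k j ≠ 0 := by
    by_contra h; push Not at h; exact hk (funext h)
  have h1 : (1 : ℝ) ≤ (k j : ℝ) ^ 2 := by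
    have : (1 : ℤ) ≤ (k j) ^ 2 := by
      have := sq_pos_of_ne_zero hj
      omega
    exact_mod_cast this
  exact h1.trans (Finset.single_le_sum (f := fun j => (k j : ℝ) ^ 2)
    (fun _ _ => sq_nonneg _) (Finset.mem_univ j))

theorem sq_pos' {k : K3} (hk : k ≠ 0) : 0 < sq k := lt_of_lt_of_le one_pos (one_le_sq hk)

theorem sq_neg' (k : K3) : sq (-k) = sq k := by simp [sq]

theorem sq_zero' : sq 0 = 0 := by simp [sq]

theorem Fr.ne {S : Finset K3} (h : Fr S) {k : K3} (hk : k ∈ S) : k ≠ 0 := fun e => h.zero (e ▸ hk)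

theorem Fr.neg_mem_iff {S : Finset K3} (h : Fr S) {k : K3} : -k ∈ S ↔ k ∈ S :=
  ⟨fun hk => by simpa using h.neg _ hk, h.neg k⟩

theorem dk_add (k : K3) (v w : E3) : dk k (v + w) = dk k v + dk k w := by
  simp [dk, mul_add, Finset.sum_add_distrib]

theorem dk_smul (k : K3) (z : ℂ) (v : E3) : dk k (z • v) = z * dk k v := by
  simp only [dk, PiLp.smul_apply, smul_eq_mul, Finset.mul_sum]
  exact Finset.sum_congr rfl fun _ _ => by ring

theorem dk_sub (k : K3) (v w : E3) : dk k (v - w) = dk k v - dk k w := by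
  simp [dk, mul_sub, Finset.sum_sub_distrib]

theorem dk_neg (k : K3) (v : E3) : dk k (-v) = -dk k v := by
  simp [dk]

theorem dk_neg_left (k : K3) (v : E3) : dk (-k) v = -dk k v := by
  simp [dk]

theorem dk_sub_left (k l : K3) (v : E3) : dk (k - l) v = dk k v - dk l v := by
  simp [dk, sub_mul, Finset.sum_sub_distrib]

theorem dk_zero (k : K3) : dk k 0 = 0 := by simp [dk]

theorem dk_zero_left (v : E3) : dk 0 v = 0 := by simp [dk]

theorem dk_sum {ι : Type*} (s : Finset ι) (k : K3) (f : ι → E3) :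
    dk k (∑ i ∈ s, f i) = ∑ i ∈ s, dk k (f i) := by
  classical
  induction s using Finset.induction_on with
  | empty => simp [dk_zero]
  | insert a s ha ih => rw [Finset.sum_insert ha, Finset.sum_insert ha, dk_add, ih]

theorem norm_kv (k : K3) : ‖kv k‖ ^ 2 = sq k := by
  rw [EuclideanSpace.norm_sq_eq]
  simp [kv, sq]

theorem dk_eq_inner (k : K3) (v : E3) : dk k v = ⟪kv k, v⟫_ℂ := by
  simp [dk, kv, PiLp.inner_apply, mul_comm]

theorem norm_dk_le (k : K3) (v : E3) : ‖dk k v‖ ≤ Real.sqrt (sq k) * ‖v‖ := by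
  rw [dk_eq_inner]
  refine (norm_inner_le_norm _ _).trans (le_of_eq ?_)
  rw [← norm_kv, Real.sqrt_sq (norm_nonneg _)]

theorem dk_kv (k : K3) : dk k (kv k) = (sq k : ℂ) := by
  rw [dk_eq_inner, inner_self_eq_norm_sq_to_K, ← norm_kv]
  norm_cast

theorem dk_Pk {k : K3} (hk : k ≠ 0) (v : E3) : dk k (Pk k v) = 0 := by
  have h : (sq k : ℂ) ≠ 0 := by exact_mod_cast (sq_pos' hk).ne'
  rw [Pk, dk_sub, dk_smul, dk_kv, div_mul_cancel₀ _ h, sub_self]

theorem Pk_zero (v : E3) : Pk 0 v = v := by simp [Pk, sq_zero']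

theorem inner_Pk {k : K3} {w : E3} (hw : dk k w = 0) (v : E3) : ⟪w, Pk k v⟫_ℂ = ⟪w, v⟫_ℂ := by
  have h : ⟪w, kv k⟫_ℂ = 0 := by
    rw [← inner_conj_symm, ← dk_eq_inner, hw, map_zero]
  rw [Pk, inner_sub_right, inner_smul_right, h, mul_zero, sub_zero]

theorem norm_Pk_le (k : K3) (v : E3) : ‖Pk k v‖ ≤ ‖v‖ := by
  by_cases hk : k = 0
  · rw [hk, Pk_zero]
  have h1 := inner_Pk (dk_Pk hk v) v
  have h2 : ‖Pk k v‖ ^ 2 ≤ ‖Pk k v‖ * ‖v‖ := by
    have h3 : ((‖Pk k v‖ ^ 2 : ℝ) : ℂ) = ⟪Pk k v, v⟫_ℂ := by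
      rw [← h1, inner_self_eq_norm_sq_to_K]; norm_cast
    have h4 : ‖((‖Pk k v‖ ^ 2 : ℝ) : ℂ)‖ ≤ ‖Pk k v‖ * ‖v‖ := by
      rw [h3]; exact norm_inner_le_norm _ _
    rwa [Complex.norm_real, Real.norm_of_nonneg (sq_nonneg _)] at h4
  by_contra hcon
  push Not at hcon
  have h5 : 0 < ‖Pk k v‖ := (norm_nonneg _).trans_lt hcon
  nlinarith

theorem cj_apply (v : E3) (i : Fin 3) : cj v i = star (v i) := rfl

theorem cj_cj (v : E3) : cj (cj v) = v := by ext i; simp [cj]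

theorem cj_zero : cj 0 = 0 := by ext i; simp [cj]

theorem cj_add (v w : E3) : cj (v + w) = cj v + cj w := by ext i; simp [cj]

theorem cj_sub (v w : E3) : cj (v - w) = cj v - cj w := by ext i; simp [cj]

theorem cj_neg (v : E3) : cj (-v) = -cj v := by ext i; simp [cj]

theorem cj_smul (z : ℂ) (v : E3) : cj (z • v) = (star z) • cj v := by ext i; simp [cj]

theorem cj_sum {ι : Type*} (s : Finset ι) (f : ι → E3) :
    cj (∑ i ∈ s, f i) = ∑ i ∈ s, cj (f i) := by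
  classical
  induction s using Finset.induction_on with
  | empty => simp [cj_zero]
  | insert a s ha ih => rw [Finset.sum_insert ha, Finset.sum_insert ha, cj_add, ih]

theorem norm_cj (v : E3) : ‖cj v‖ = ‖v‖ := by
  rw [EuclideanSpace.norm_eq, EuclideanSpace.norm_eq]
  simp [cj]

theorem dk_cj (k : K3) (v : E3) : dk k (cj v) = star (dk k v) := by
  simp [dk, cj]

theorem cj_kv (k : K3) : cj (kv k) = kv k := by ext i; simp [cj, kv]

theorem kv_neg (k : K3) : kv (-k) = -kv k := by ext i; simp [kv]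

theorem Pk_cj (k : K3) (v : E3) : Pk (-k) (cj v) = cj (Pk k v) := by
  rw [Pk, Pk, cj_sub, cj_smul, cj_kv, dk_neg_left, dk_cj, sq_neg', kv_neg]
  congr 1
  rw [smul_neg, ← neg_smul, star_div₀, neg_div, neg_neg]
  congr 2
  simp

/-- reflection symmetry of the nonlinear term -/
theorem Nl_neg {S : Finset K3} (hS : Fr S) {a : K3 → E3} (ha : ∀ k, a (-k) = cj (a k)) (k : K3) :
    Nl S a (-k) = cj (Nl S a k) := by
  unfold Nl
  rw [cj_sum]
  refine Finset.sum_bij (fun l _ => -l) (fun l hl => hS.neg l hl)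
    (fun _ _ _ _ h => neg_injective h) (fun l hl => ⟨-l, hS.neg l hl, neg_neg l⟩) ?_
  intro l hl
  have e1 : -k - l = -(k - -l) := by abel
  rw [e1, ha (k - -l), cj_smul]
  congr 1
  have e2 : a l = cj (a (-l)) := by rw [ha, cj_cj]
  rw [e2, dk_cj, dk_neg_left]
  simp [mul_comm, mul_left_comm]

/-- The nonlinear term conserves the energy. -/
theorem energy : S_energy := by
  intro S hS a ha
  -- extend the sum to all frequencies
  have hsupp : ∀ k, k ∉ S → a k = 0 := ha.supp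
  have key : ∀ l ∈ S, (∑ k ∈ S, ⟪a k, (2 * Real.pi * Complex.I * dk (k - l) (a l)) • a (k - l)⟫_ℂ)
      = 0 := by
    intro l hl
    set F : K3 → ℂ := fun k => 2 * Real.pi * Complex.I * dk k (a l) * ⟪a k, a (k - l)⟫_ℂ with hF
    have h1 : ∀ k, ⟪a k, (2 * Real.pi * Complex.I * dk (k - l) (a l)) • a (k - l)⟫_ℂ = F k := by
      intro k
      rw [inner_smul_right, dk_sub_left, ha.div l, sub_zero]
    have h2 : ∑ k ∈ S, ⟪a k, (2 * Real.pi * Complex.I * dk (k - l) (a l)) • a (k - l)⟫_ℂ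
        = ∑' k, F k := by
      rw [tsum_eq_sum (s := S)]
      · exact Finset.sum_congr rfl fun k _ => h1 k
      · intro k hk
        simp only [hF, hsupp k hk, inner_zero_left, mul_zero]
    have h3 : ∀ k, F (l - k) = -F k := by
      intro k
      simp only [hF]
      rw [dk_sub_left, ha.div l, zero_sub, show l - k - l = -k by abel, ha.sym k,
        show l - k = -(k - l) by abel, ha.sym (k - l)]
      have e : ⟪cj (a (k - l)), cj (a k)⟫_ℂ = ⟪a k, a (k - l)⟫_ℂ := by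
        simp [PiLp.inner_apply, cj, mul_comm]
      rw [e]; ring
    have h4 : ∑' k, F k = ∑' k, F (l - k) := ((Equiv.subLeft l).tsum_eq F).symm
    rw [h2]
    have h5 : ∑' k, F (l - k) = -∑' k, F k := by
      rw [← tsum_neg]; exact tsum_congr h3
    rw [h5] at h4
    have : (2 : ℂ) * ∑' k, F k = 0 := by linear_combination h4
    simpa using this
  have h6 : ∑ k ∈ S, ⟪a k, Nl S a k⟫_ℂ = 0 := by
    unfold Nl
    simp_rw [inner_sum]
    rw [Finset.sum_comm]
    exact Finset.sum_eq_zero key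
  rw [← Complex.re_sum, h6]
  rfl

/-- Young's inequality for the nonlinear term. -/
theorem young : S_young := by
  intro S G a ha
  have hpi := Real.pi_pos
  set b : K3 → ℝ := fun k => Real.sqrt (sq k) * ‖a k‖ with hb
  have hb0 : ∀ k, 0 ≤ b k := fun k => by positivity
  have h1 : ∀ k, ‖Nl S a k‖ ≤ 2 * Real.pi * ∑ l ∈ S, ‖a l‖ * b (k - l) := by
    intro k
    unfold Nl
    rw [Finset.mul_sum]
    refine (norm_sum_le _ _).trans (Finset.sum_le_sum fun l _ => ?_)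
    rw [norm_smul, norm_mul, norm_mul, norm_mul, Complex.norm_I, Complex.norm_real,
      Real.norm_of_nonneg hpi.le, Complex.norm_ofNat, mul_one]
    have := norm_dk_le (k - l) (a l)
    calc 2 * Real.pi * ‖dk (k - l) (a l)‖ * ‖a (k - l)‖
        ≤ 2 * Real.pi * (Real.sqrt (sq (k - l)) * ‖a l‖) * ‖a (k - l)‖ := by gcongr
      _ = 2 * Real.pi * (‖a l‖ * b (k - l)) := by simp only [hb]; ring
  have h2 : ∀ k, ‖Nl S a k‖ ^ 2
      ≤ (2 * Real.pi) ^ 2 * (L1 S a * ∑ l ∈ S, ‖a l‖ * b (k - l) ^ 2) := by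
    intro k
    have h3 : (∑ l ∈ S, ‖a l‖ * b (k - l)) ^ 2 ≤ L1 S a * ∑ l ∈ S, ‖a l‖ * b (k - l) ^ 2 := by
      have := Finset.sum_mul_sq_le_sq_mul_sq S (fun l => Real.sqrt ‖a l‖)
        (fun l => Real.sqrt ‖a l‖ * b (k - l))
      have e1 : ∀ l, Real.sqrt ‖a l‖ * (Real.sqrt ‖a l‖ * b (k - l)) = ‖a l‖ * b (k - l) := by
        intro l
        rw [← mul_assoc, Real.mul_self_sqrt (norm_nonneg _)]
      have e2 : ∀ l, Real.sqrt ‖a l‖ ^ 2 = ‖a l‖ := fun l => Real.sq_sqrt (norm_nonneg _)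
      have e3 : ∀ l, (Real.sqrt ‖a l‖ * b (k - l)) ^ 2 = ‖a l‖ * b (k - l) ^ 2 := by
        intro l; rw [mul_pow, e2]
      simp_rw [e1, e2, e3] at this
      exact this
    calc ‖Nl S a k‖ ^ 2 ≤ (2 * Real.pi * ∑ l ∈ S, ‖a l‖ * b (k - l)) ^ 2 := by
          gcongr; exact h1 k
      _ = (2 * Real.pi) ^ 2 * (∑ l ∈ S, ‖a l‖ * b (k - l)) ^ 2 := by ring
      _ ≤ _ := by gcongr
  have h4 : ∀ l, ∑ k ∈ G, b (k - l) ^ 2 ≤ Y2 S a := by
    intro l
    have e : ∀ k, b k ^ 2 = sq k * ‖a k‖ ^ 2 := fun k => by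
      simp only [hb]; rw [mul_pow, Real.sq_sqrt (sq_nonneg' k)]
    have e1 : ∑ k ∈ G, b (k - l) ^ 2 = ∑ k ∈ G.image (fun k => k - l), b k ^ 2 := by
      rw [Finset.sum_image]
      intro x _ y _ h
      simpa using h
    rw [e1]
    unfold Y2
    simp_rw [e]
    have hz : ∀ k ∉ S, sq k * ‖a k‖ ^ 2 = 0 := fun k hk => by rw [ha k hk]; simp
    calc ∑ k ∈ G.image (fun k => k - l), sq k * ‖a k‖ ^ 2
        ≤ ∑ k ∈ G.image (fun k => k - l) ∪ S, sq k * ‖a k‖ ^ 2 :=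
          Finset.sum_le_sum_of_subset_of_nonneg Finset.subset_union_left
            (fun k _ _ => mul_nonneg (sq_nonneg' k) (sq_nonneg _))
      _ = ∑ k ∈ S, sq k * ‖a k‖ ^ 2 := by
          symm
          exact Finset.sum_subset Finset.subset_union_right (fun k _ hk => hz k hk)
  have hL : 0 ≤ L1 S a := Finset.sum_nonneg fun _ _ => norm_nonneg _
  calc ∑ k ∈ G, ‖Nl S a k‖ ^ 2
      ≤ ∑ k ∈ G, (2 * Real.pi) ^ 2 * (L1 S a * ∑ l ∈ S, ‖a l‖ * b (k - l) ^ 2) :=
        Finset.sum_le_sum fun k _ => h2 k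
    _ = (2 * Real.pi) ^ 2 * (L1 S a * ∑ l ∈ S, ‖a l‖ * ∑ k ∈ G, b (k - l) ^ 2) := by
        rw [← Finset.mul_sum, ← Finset.mul_sum, Finset.sum_comm]
        simp_rw [← Finset.mul_sum]
    _ ≤ (2 * Real.pi) ^ 2 * (L1 S a * ∑ l ∈ S, ‖a l‖ * Y2 S a) := by
        gcongr with l hl
        exact h4 l
    _ = _ := by
        rw [← Finset.sum_mul, ← L1]; ring

end Pool.Agent.W785.DF
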