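import Mathlib
import Pool.Agent.W785.DF.Stubs

/-!
Statements of the parts of the reconstruction of the velocity field and of the estimate of the
cost (as propositions).
-/

open MeasureTheory Set
open scoped ContDiff InnerProductSpace

namespace Pool.Agent.W785.DF

open H459R3.NS (V K3 Per pd fr ee cube)

/-- real trigonometric polynomials -/
noncomputable def tp (G : Finset K3) (γ : K3 → ℂ) (x : V) : ℝ := (∑ k ∈ G, γ k * ee k x).re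

/-- trigonometric vector fields -/
noncomputable def TP (G : Finset K3) (c : K3 → E3) (x : V) : V := fun i => tp G (fun k => c k i) x

/-- Fourier coefficients of a vector field -/
noncomputable def frv (v : V → V) (k : K3) : E3 := WithLp.toLp 2 fun i => fr (fun x => v x i) k

/-- Coefficients of real vector fields with frequencies in the symmetric set `S`. -/
structure Herm (S : Finset K3) (b : K3 → E3) : Prop where
  sset : ∀ k ∈ S, -k ∈ S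
  supp : ∀ k, k ∉ S → b k = 0
  sym : ∀ k, b (-k) = cj (b k)

/-- Calculus of trigonometric vector fields. -/
def S_trig : Prop := ∀ (S : Finset K3) (b : K3 → E3), Herm S b →
  ContDiff ℝ ∞ (TP S b) ∧ Per (TP S b) ∧
  (∀ G : Finset K3, (∀ k ∈ S, ∀ l ∈ S, k + l ∈ G) → ∀ x i,
    ∑ j, TP S b x j * pd j (fun y => TP S b y i) x = TP G (Nl S b) x i) ∧
  ((∀ k, dk k (b k) = 0) → ∀ x, ∑ i, pd i (fun y => TP S b y i) x = 0) ∧
  (∀ x i, ∑ j, pd j (pd j fun y => TP S b y i) x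
    = TP S (fun k => (-(4 * Real.pi ^ 2 * sq k) : ℝ) • b k) x i) ∧
  (∀ k, frv (TP S b) k = b k) ∧
  (∫ x in cube, ∑ i, TP S b x i ^ 2 = ∑ k ∈ S, ‖b k‖ ^ 2) ∧
  ∫ x in cube, ∑ i, ∑ j, pd j (fun y => TP S b y i) x ^ 2
    = 4 * Real.pi ^ 2 * ∑ k ∈ S, sq k * ‖b k‖ ^ 2

/-- Calculus of real trigonometric polynomials. -/
def S_grad : Prop := ∀ (S : Finset K3) (π : K3 → ℂ), ContDiff ℝ ∞ (tp S π) ∧ Per (tp S π) ∧
  ∀ x i, pd i (tp S π) x = TP S (fun k => (2 * Real.pi * Complex.I * π k) • kv k) x i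

/-- Bessel's inequality, linearity of Fourier coefficients. -/
def S_bes : Prop :=
  (∀ v : V → V, Continuous v → Per v → ∀ G : Finset K3,
    ∑ k ∈ G, ‖frv v k‖ ^ 2 ≤ ∫ x in cube, ∑ i, v x i ^ 2) ∧
  (∀ v w : V → V, Continuous v → Continuous w → ∀ k, frv (v + w) k = frv v k + frv w k) ∧
  ∀ (v : V → V) (k : K3), frv (-v) k = -frv v k

/-- The terms of the force which are due to the part `r` of the initial velocity. -/
noncomputable def rho (ν z z' : ℝ) (W r : V → V) (x : V) : V := fun i =>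
  z' * r x i - ν * z * (∑ j, pd j (pd j fun y => r y i) x)
    + z * (∑ j, W x j * pd j (fun y => r y i) x) + z * (∑ j, r x j * pd j (fun y => W y i) x)
    + z ^ 2 * ∑ j, r x j * pd j (fun y => r y i) x

/-- Estimate of `rho`. -/
def S_rho : Prop := ∃ C : ℝ, 0 < C ∧ ∀ (ν z z' δ : ℝ), 0 < ν → |z| ≤ 1 → 0 < δ →
  ∀ (S : Finset K3) (b : K3 → E3), Herm S b → ∀ r : V → V, ContDiff ℝ ∞ r → Per r →
  (∀ x i, |r x i| ≤ δ ∧ (∀ j, |pd j (fun y => r y i) x| ≤ δ) ∧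
    |∑ j, pd j (pd j fun y => r y i) x| ≤ δ) →
  Continuous (rho ν z z' (TP S b) r) ∧ Per (rho ν z z' (TP S b) r) ∧
  ∀ G : Finset K3, ∑ k ∈ G, ‖frv (rho ν z z' (TP S b) r) k‖ ^ 2
    ≤ (C * δ * (|z'| + ν + δ + Real.sqrt (∑ k ∈ S, ‖b k‖ ^ 2)
      + Real.sqrt (∑ k ∈ S, sq k * ‖b k‖ ^ 2))) ^ 2

/-- The residual of the Navier-Stokes equations with force `f`. -/
noncomputable def resid (ν : ℝ) (f u : ℝ → V → V) (p : ℝ → V → ℝ) (t : ℝ) (x : V) : V := fun i =>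
  derivWithin (fun s => u s x i) (Ici 0) t + ∑ j, u t x j * pd j (fun y => u t y i) x
    - ν * (∑ j, pd j (pd j fun y => u t y i) x) + pd i (p t) x - f t x i

/-- Every smooth divergence free field is a solution for some smooth force. -/
def S_res : Prop := ∀ (ν : ℝ) (f u : ℝ → V → V) (p : ℝ → V → ℝ), IsForce f →
  ContDiffOn ℝ ∞ (fun z : ℝ × V => u z.1 z.2) (Ici 0 ×ˢ univ) →
  ContDiffOn ℝ ∞ (fun z : ℝ × V => p z.1 z.2) (Ici 0 ×ˢ univ) →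
  (∀ t, 0 ≤ t → Per (u t)) → (∀ t, 0 ≤ t → Per (p t)) →
  (∀ t, 0 ≤ t → ∀ x, ∑ i, pd i (fun y => u t y i) x = 0) →
  ContDiffOn ℝ ∞ (fun z : ℝ × V => resid ν f u p z.1 z.2) (Ici 0 ×ˢ univ) ∧
  (∀ t, 0 ≤ t → Per (resid ν f u p t)) ∧
  IsAdmissible ν (u 0) (fun t x => f t x + resid ν f u p t x) u p

/-- Smoothness and derivatives in time. -/
def S_time : Prop :=
  (∀ (T0 : ℝ), 0 ≤ T0 → ∀ χ : ℝ → ℝ, ContDiff ℝ ∞ χ → (∀ t, T0 + 1 ≤ t → χ t = 0) →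
    ∀ a : ℝ → E3, ContDiffOn ℝ ∞ a (Icc 0 (T0 + 2)) →
    ContDiffOn ℝ ∞ (fun t => χ t • a t) (Ici 0) ∧
    (∀ (a' : E3) (t : ℝ), 0 ≤ t → t ≤ T0 + 1 → HasDerivWithinAt a a' (Icc 0 (T0 + 2)) t →
      HasDerivWithinAt (fun t => χ t • a t) (deriv χ t • a t + χ t • a') (Ici 0) t) ∧
    ∀ t, T0 + 1 ≤ t → HasDerivWithinAt (fun t => χ t • a t) 0 (Ici 0) t) ∧
  (∀ (S : Finset K3) (b : ℝ → K3 → E3), (∀ k, ContDiffOn ℝ ∞ (fun t => b t k) (Ici 0)) →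
    ContDiffOn ℝ ∞ (fun z : ℝ × V => TP S (b z.1) z.2) (Ici 0 ×ˢ univ) ∧
    ∀ (t : ℝ), 0 ≤ t → ∀ b' : K3 → E3, (∀ k ∈ S, HasDerivWithinAt (fun s => b s k) (b' k) (Ici 0) t) →
      ∀ x i, HasDerivWithinAt (fun s => TP S (b s) x i) (TP S b' x i) (Ici 0) t) ∧
  ∀ (S : Finset K3) (π : ℝ → K3 → ℂ), (∀ k, ContDiffOn ℝ ∞ (fun t => π t k) (Ici 0)) →
    ContDiffOn ℝ ∞ (fun z : ℝ × V => tp S (π z.1) z.2) (Ici 0 ×ˢ univ)

/-- The cost of the extra viscosity. -/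
def S_cost : Prop := ∀ (ν R q s : ℝ), 0 < ν → 0 < R → 1 ≤ q → 5 / 2 - 5 / (2 * q) ≤ s →
  3 / 2 - 1 / q < s → ∃ C δ : ℝ, 0 < C ∧ 0 < δ ∧ ∀ (h : ℝ), 1 ≤ h → ∀ (S : Finset K3),
  (0 : K3) ∉ S → ∀ a : K3 → E3,
  (∑ k ∈ S, (1 + sq k) ^ (-s) * ‖(vs h R k (Y2 S a) * (4 * Real.pi ^ 2 * sq k)) • a k‖ ^ 2)
      ^ (q / 2)
    ≤ C * h ^ (-δ) * ((ν + mh h (Y2 S a)) * D2 S a / (1 + Y2 S a) / h
      + (ν + mh h (Y2 S a)) * Y2 S a)

/-- Fourier coefficients of smooth initial values. -/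
def S_init : Prop := ∀ u0 : V → V, ContDiff ℝ ∞ u0 → Per u0 → ∃ A : ℝ, 0 < A ∧
  (∀ S : Finset K3, ∑ k ∈ S, ‖frv u0 k‖ ^ 2 ≤ A ∧ ∑ k ∈ S, sq k * ‖frv u0 k‖ ^ 2 ≤ A) ∧
  (∀ k, frv u0 (-k) = cj (frv u0 k)) ∧
  ((∀ x, ∑ i, pd i (fun y => u0 y i) x = 0) → ∀ k, dk k (frv u0 k) = 0)

/-- Decay. -/
def S_decay : Prop := ∀ (ν A C δ : ℝ), 0 < ν → 0 < A → 0 < C → 0 < δ → ∃ T : ℝ, 0 < T ∧
  ∀ t, T ≤ t → Real.exp (-(4 * Real.pi ^ 2 * ν * t)) * A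
    + ∫ s in (0 : ℝ)..t, Real.exp (-(4 * Real.pi ^ 2 * ν * (t - s))) * (C / (1 + s) ^ 2) ≤ δ

end Pool.Agent.W785.DF
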