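import Mathlib
import Pool.Agent.W785.DF.Alg

/-!
A priori estimates for the Galerkin system.
-/

open MeasureTheory Set
open scoped ContDiff InnerProductSpace ComplexConjugate

namespace Pool.Agent.W785.DF

open H459R3.NS (V K3)

theorem rin (v w : E3) : ⟪v, w⟫_ℝ = (⟪v, w⟫_ℂ).re := by
  simp only [PiLp.inner_apply, Complex.re_sum]
  refine Finset.sum_congr rfl fun i _ => ?_
  rw [Complex.inner]
  simp [mul_comm]

theorem X2_nonneg (S : Finset K3) (a : K3 → E3) : 0 ≤ X2 S a :=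
  Finset.sum_nonneg fun _ _ => sq_nonneg _

theorem Y2_nonneg (S : Finset K3) (a : K3 → E3) : 0 ≤ Y2 S a :=
  Finset.sum_nonneg fun k _ => mul_nonneg (sq_nonneg' k) (sq_nonneg _)

theorem D2_nonneg (S : Finset K3) (a : K3 → E3) : 0 ≤ D2 S a :=
  Finset.sum_nonneg fun k _ => mul_nonneg (sq_nonneg _) (sq_nonneg _)

theorem X2_le_Y2 {S : Finset K3} (hS : (0 : K3) ∉ S) (a : K3 → E3) : X2 S a ≤ Y2 S a := by
  refine Finset.sum_le_sum fun k hk => ?_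
  have := one_le_sq (k := k) (fun e => hS (e ▸ hk))
  nlinarith [sq_nonneg ‖a k‖]

theorem Y2_sq_le (S : Finset K3) (a : K3 → E3) : Y2 S a ^ 2 ≤ X2 S a * D2 S a := by
  have := Finset.sum_mul_sq_le_sq_mul_sq S (fun k => ‖a k‖) (fun k => sq k * ‖a k‖)
  have e1 : ∀ k, ‖a k‖ * (sq k * ‖a k‖) = sq k * ‖a k‖ ^ 2 := fun k => by ring
  have e2 : ∀ k, (sq k * ‖a k‖) ^ 2 = sq k ^ 2 * ‖a k‖ ^ 2 := fun k => by ring
  simp_rw [e1, e2] at this
  exact this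

theorem mh_nonneg {h y : ℝ} (hh : 0 < h) (hy : 0 ≤ y) : 0 ≤ mh h y :=
  mul_nonneg (Real.rpow_nonneg (by positivity) _) (Real.smoothTransition.nonneg _)

theorem mh_zero {h y : ℝ} (hh : 0 < h) (hy : y ≤ h) : mh h y = 0 := by
  rw [mh, Real.smoothTransition.zero_of_nonpos, mul_zero]
  have := (div_le_one hh).2 hy
  linarith

theorem mh_le {h y : ℝ} (hh : 0 < h) (hy : 0 ≤ y) : mh h y ≤ (y / h) ^ (1 / 4 : ℝ) := by
  rw [mh]
  exact mul_le_of_le_one_right (Real.rpow_nonneg (by positivity) _) (Real.smoothTransition.le_one _)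

theorem mh_eq {h y : ℝ} (hh : 0 < h) (hy : 2 * h ≤ y) : mh h y = (y / h) ^ (1 / 4 : ℝ) := by
  rw [mh, Real.smoothTransition.one_of_one_le, mul_one]
  have : 2 ≤ y / h := by rw [le_div_iff₀ hh]; exact hy
  linarith

theorem mh_continuous (h : ℝ) : Continuous (mh h) := by
  unfold mh
  refine Continuous.mul ?_ ?_
  · exact (Real.continuous_rpow_const (by norm_num)).comp (continuous_id.div_const h)
  · exact Real.smoothTransition.continuous.comp ((continuous_id.div_const h).sub continuous_const)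

theorem th_nonneg (R : ℝ) (k : K3) (y : ℝ) : 0 ≤ th R k y := Real.smoothTransition.nonneg _

theorem th_le_one (R : ℝ) (k : K3) (y : ℝ) : th R k y ≤ 1 := Real.smoothTransition.le_one _

theorem th_eq {R : ℝ} {k : K3} {y : ℝ} (hR : 0 < R) (hy : 0 < y) (hk : y / (4 * R ^ 2) ≤ sq k) :
    th R k y = 1 := by
  rw [th, Real.smoothTransition.one_of_one_le]
  have h1 : y ≤ sq k * (4 * R ^ 2) := by rwa [div_le_iff₀ (by positivity)] at hk
  have h2 : 2 ≤ 8 * R ^ 2 * sq k / y := by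
    rw [le_div_iff₀ hy]; nlinarith
  linarith

theorem th_ne {R : ℝ} {k : K3} {y : ℝ} (hR : 0 < R) (hy : 0 < y) (h : th R k y ≠ 0) :
    y / (8 * R ^ 2) ≤ sq k := by
  by_contra hcon
  push Not at hcon
  apply h
  rw [th, Real.smoothTransition.zero_of_nonpos]
  have h1 : sq k * (8 * R ^ 2) < y := by rwa [lt_div_iff₀ (by positivity)] at hcon
  have h2 : 8 * R ^ 2 * sq k / y ≤ 1 := by
    rw [div_le_one hy]; nlinarith
  linarith

theorem vs_nonneg {h R : ℝ} (hh : 0 < h) (k : K3) {y : ℝ} (hy : 0 ≤ y) : 0 ≤ vs h R k y :=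
  mul_nonneg (mh_nonneg hh hy) (th_nonneg _ _ _)

theorem vs_le {h R : ℝ} (hh : 0 < h) (k : K3) {y : ℝ} (hy : 0 ≤ y) : vs h R k y ≤ mh h y :=
  mul_le_of_le_one_right (mh_nonneg hh hy) (th_le_one _ _ _)

/-- the extra viscosity acts on most of the enstrophy -/
theorem vs_sq_ge {h R : ℝ} (hh : 0 < h) (hR : 0 < R) (k : K3) {y : ℝ} (hy : 0 ≤ y) :
    mh h y * (sq k - y / (4 * R ^ 2)) ≤ vs h R k y * sq k := by
  have hm := mh_nonneg hh hy
  rcases le_or_gt y h with h1 | h1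
  · rw [vs, mh_zero hh h1]; simp
  have hy0 : 0 < y := hh.trans h1
  rcases le_or_gt (y / (4 * R ^ 2)) (sq k) with h2 | h2
  · rw [vs, th_eq hR hy0 h2, mul_one]
    have : 0 ≤ y / (4 * R ^ 2) := by positivity
    nlinarith
  · have h3 : 0 ≤ vs h R k y * sq k := mul_nonneg (vs_nonneg hh k hy) (sq_nonneg' k)
    nlinarith

theorem vs_sq2_ge {h R : ℝ} (hh : 0 < h) (hR : 0 < R) (k : K3) {y : ℝ} (hy : 0 ≤ y) :
    mh h y * (sq k ^ 2 - (y / (4 * R ^ 2)) ^ 2) ≤ vs h R k y * sq k ^ 2 := by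
  have hm := mh_nonneg hh hy
  rcases le_or_gt y h with h1 | h1
  · rw [vs, mh_zero hh h1]; simp
  have hy0 : 0 < y := hh.trans h1
  have hk := sq_nonneg' k
  rcases le_or_gt (y / (4 * R ^ 2)) (sq k) with h2 | h2
  · rw [vs, th_eq hR hy0 h2, mul_one]
    have : 0 ≤ (y / (4 * R ^ 2)) ^ 2 := by positivity
    nlinarith
  · have h3 : 0 ≤ vs h R k y * sq k ^ 2 := mul_nonneg (vs_nonneg hh k hy) (sq_nonneg _)
    have h4 : sq k ^ 2 ≤ (y / (4 * R ^ 2)) ^ 2 := by gcongr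
    nlinarith

/-- dissipation of energy -/
theorem dis_energy {S : Finset K3} {a : K3 → E3} {ν h R : ℝ} (hν : 0 < ν) (hh : 0 < h)
    (hR : 0 < R) (hX : X2 S a ≤ R ^ 2) :
    3 / 4 * ((ν + mh h (Y2 S a)) * Y2 S a)
      ≤ ∑ k ∈ S, (ν + vs h R k (Y2 S a)) * sq k * ‖a k‖ ^ 2 := by
  set y := Y2 S a with hy
  have hy0 : 0 ≤ y := Y2_nonneg S a
  have hm := mh_nonneg hh hy0
  have h1 : ∑ k ∈ S, (ν + vs h R k y) * sq k * ‖a k‖ ^ 2
      ≥ ∑ k ∈ S, (ν * (sq k * ‖a k‖ ^ 2) + mh h y * (sq k * ‖a k‖ ^ 2)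
        - mh h y * (y / (4 * R ^ 2)) * ‖a k‖ ^ 2) := by
    refine Finset.sum_le_sum fun k _ => ?_
    have := mul_le_mul_of_nonneg_right (vs_sq_ge hh hR k hy0) (sq_nonneg ‖a k‖)
    nlinarith
  have h2 : ∑ k ∈ S, (ν * (sq k * ‖a k‖ ^ 2) + mh h y * (sq k * ‖a k‖ ^ 2)
        - mh h y * (y / (4 * R ^ 2)) * ‖a k‖ ^ 2)
      = ν * y + mh h y * y - mh h y * (y / (4 * R ^ 2)) * X2 S a := by
    rw [Finset.sum_sub_distrib, Finset.sum_add_distrib, ← Finset.mul_sum, ← Finset.mul_sum,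
      ← Finset.mul_sum]
    rfl
  have h3 : mh h y * (y / (4 * R ^ 2)) * X2 S a ≤ mh h y * (y / 4) := by
    have : y / (4 * R ^ 2) * X2 S a ≤ y / 4 := by
      calc y / (4 * R ^ 2) * X2 S a ≤ y / (4 * R ^ 2) * R ^ 2 := by gcongr
        _ = y / 4 := by field_simp
    rw [mul_assoc]
    gcongr
  nlinarith [mul_nonneg hν.le hy0, mul_nonneg hm hy0]

/-- dissipation of enstrophy -/
theorem dis_enstrophy {S : Finset K3} {a : K3 → E3} {ν h R : ℝ} (hν : 0 < ν) (hh : 0 < h)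
    (hR : 0 < R) (hX : X2 S a ≤ R ^ 2) :
    15 / 16 * ((ν + mh h (Y2 S a)) * D2 S a)
      ≤ ∑ k ∈ S, (ν + vs h R k (Y2 S a)) * sq k ^ 2 * ‖a k‖ ^ 2 := by
  set y := Y2 S a with hy
  set d := D2 S a with hd
  have hy0 : 0 ≤ y := Y2_nonneg S a
  have hd0 : 0 ≤ d := D2_nonneg S a
  have hx0 : 0 ≤ X2 S a := X2_nonneg S a
  have hm := mh_nonneg hh hy0
  have h1 : ∑ k ∈ S, (ν + vs h R k y) * sq k ^ 2 * ‖a k‖ ^ 2
      ≥ ∑ k ∈ S, (ν * (sq k ^ 2 * ‖a k‖ ^ 2) + mh h y * (sq k ^ 2 * ‖a k‖ ^ 2)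
        - mh h y * (y / (4 * R ^ 2)) ^ 2 * ‖a k‖ ^ 2) := by
    refine Finset.sum_le_sum fun k _ => ?_
    have := mul_le_mul_of_nonneg_right (vs_sq2_ge hh hR k hy0) (sq_nonneg ‖a k‖)
    nlinarith
  have h2 : ∑ k ∈ S, (ν * (sq k ^ 2 * ‖a k‖ ^ 2) + mh h y * (sq k ^ 2 * ‖a k‖ ^ 2)
        - mh h y * (y / (4 * R ^ 2)) ^ 2 * ‖a k‖ ^ 2)
      = ν * d + mh h y * d - mh h y * (y / (4 * R ^ 2)) ^ 2 * X2 S a := by
    rw [Finset.sum_sub_distrib, Finset.sum_add_distrib, ← Finset.mul_sum, ← Finset.mul_sum,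
      ← Finset.mul_sum]
    rfl
  have h3 : (y / (4 * R ^ 2)) ^ 2 * X2 S a ≤ d / 16 := by
    have e1 : y ^ 2 ≤ X2 S a * d := Y2_sq_le S a
    calc (y / (4 * R ^ 2)) ^ 2 * X2 S a = y ^ 2 * X2 S a / (16 * R ^ 4) := by
          field_simp; ring
      _ ≤ (X2 S a * d) * X2 S a / (16 * R ^ 4) := by gcongr
      _ ≤ (R ^ 2 * d) * R ^ 2 / (16 * R ^ 4) := by gcongr
      _ = d / 16 := by field_simp
  have h4 := mul_le_mul_of_nonneg_left h3 hm
  nlinarith [mul_nonneg hν.le hd0, mul_nonneg hm hd0]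

section gal

variable {S : Finset K3} {ν h R T : ℝ} {mm : ℝ → E3} {ψ : ℝ → K3 → E3} {a0 : K3 → E3}
  {w : K3 → ℝ → ℝ} {a : ℝ → K3 → E3}

theorem Gal.cont (G : Gal S ν w T mm ψ a0 a) (k : K3) : ContinuousOn (fun t => a t k) (Icc 0 T) :=
  (G.smooth k).continuousOn

theorem Gal.contX (G : Gal S ν w T mm ψ a0 a) : ContinuousOn (fun t => X2 S (a t)) (Icc 0 T) :=
  continuousOn_finsetSum _ fun k _ => (G.cont k).norm.pow 2

theorem Gal.contY (G : Gal S ν w T mm ψ a0 a) : ContinuousOn (fun t => Y2 S (a t)) (Icc 0 T) :=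
  continuousOn_finsetSum _ fun k _ => continuousOn_const.mul ((G.cont k).norm.pow 2)

theorem Gal.contD (G : Gal S ν w T mm ψ a0 a) : ContinuousOn (fun t => D2 S (a t)) (Icc 0 T) :=
  continuousOn_finsetSum _ fun k _ => continuousOn_const.mul ((G.cont k).norm.pow 2)

/-- derivative of `|a k|²` -/
theorem Gal.deriv_norm (hS : Fr S) (hmm : ∀ t, cj (mm t) = mm t) (G : Gal S ν w T mm ψ a0 a)
    {t : ℝ} (ht : t ∈ Icc 0 T) {k : K3} (hk : k ∈ S) :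
    HasDerivWithinAt (fun s => ‖a s k‖ ^ 2)
      (2 * (-(⟪a t k, Nl S (a t) k⟫_ℂ).re
        - (ν + w k (Y2 S (a t))) * (4 * Real.pi ^ 2 * sq k) * ‖a t k‖ ^ 2
        + (⟪a t k, ψ t k⟫_ℂ).re)) (Icc 0 T) t := by
  have h1 := (G.ode t ht k hk).norm_sq
  convert h1 using 1
  have hdiv := (G.fld t ht).div k
  rw [rin, inner_add_right, inner_sub_right, inner_sub_right, inner_neg_right, inner_smul_right,
    inner_smul_right, inner_Pk hdiv, inner_Pk hdiv]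
  have hreal : (dk k (mm t)).im = 0 := by
    have : star (dk k (mm t)) = dk k (mm t) := by rw [← dk_cj, hmm]
    exact Complex.conj_eq_iff_im.1 this
  have h2 : ⟪a t k, a t k⟫_ℂ = ((‖a t k‖ ^ 2 : ℝ) : ℂ) := by
    rw [inner_self_eq_norm_sq_to_K]; norm_cast
  have h3 : (2 * Real.pi * Complex.I * dk k (mm t) * ⟪a t k, a t k⟫_ℂ).re = 0 := by
    rw [h2]
    simp [Complex.mul_re, Complex.mul_im, hreal]
    right
    rw [← Complex.ofReal_pow, Complex.ofReal_im]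
  have h4 : ((((ν + w k (Y2 S (a t))) * (4 * Real.pi ^ 2 * sq k) : ℝ) : ℂ)
      * ⟪a t k, a t k⟫_ℂ).re
      = (ν + w k (Y2 S (a t))) * (4 * Real.pi ^ 2 * sq k) * ‖a t k‖ ^ 2 := by
    rw [h2, ← Complex.ofReal_mul, Complex.ofReal_re]
  simp only [Complex.add_re, Complex.sub_re, Complex.neg_re]
  rw [h3, h4]
  ring

theorem sum_inner_le {a b : K3 → E3} {wt : K3 → ℝ} (hw : ∀ k ∈ S, 0 ≤ wt k) {A B : ℝ}
    (hA0 : 0 ≤ A) (hB0 : 0 ≤ B)
    (hA : ∑ k ∈ S, wt k ^ 2 * ‖a k‖ ^ 2 ≤ A ^ 2) (hB : ∑ k ∈ S, ‖b k‖ ^ 2 ≤ B ^ 2) :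
    |∑ k ∈ S, wt k * (⟪a k, b k⟫_ℂ).re| ≤ A * B := by
  have h1 : |∑ k ∈ S, wt k * (⟪a k, b k⟫_ℂ).re| ≤ ∑ k ∈ S, (wt k * ‖a k‖) * ‖b k‖ := by
    refine (Finset.abs_sum_le_sum_abs _ _).trans (Finset.sum_le_sum fun k hk => ?_)
    rw [abs_mul, abs_of_nonneg (hw k hk), mul_assoc]
    gcongr
    · exact hw k hk
    · exact (Complex.abs_re_le_norm _).trans (norm_inner_le_norm _ _)
  have h2 := Finset.sum_mul_sq_le_sq_mul_sq S (fun k => wt k * ‖a k‖) (fun k => ‖b k‖)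
  have h3 : ∑ k ∈ S, (wt k * ‖a k‖) ^ 2 ≤ A ^ 2 := by
    refine le_trans (le_of_eq (Finset.sum_congr rfl fun k _ => ?_)) hA
    ring
  have h4 : (∑ k ∈ S, (wt k * ‖a k‖) * ‖b k‖) ^ 2 ≤ (A * B) ^ 2 := by
    calc _ ≤ _ := h2
      _ ≤ A ^ 2 * B ^ 2 := by gcongr
      _ = (A * B) ^ 2 := by ring
  exact h1.trans (abs_le_of_sq_le_sq' h4 (by positivity)).2

end gal

end Pool.Agent.W785.DF
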