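import Mathlib
import Pool.Agent.W785.DF.Stubs2
import Pool.Agent.W785.DF.Est

/-!
Reconstruction of the velocity from the Galerkin solution: algebra of the coefficients.
-/

open MeasureTheory Set
open scoped ContDiff InnerProductSpace

namespace Pool.Agent.W785.DF

open H459R3.NS (V K3 Per pd fr ee cube)

/-- cut-off: `1` for `t ≤ 0`, `0` for `t ≥ 1` -/
noncomputable def cut (t : ℝ) : ℝ := Real.smoothTransition (1 - t)

theorem cut_contDiff : ContDiff ℝ ∞ cut :=
  Real.smoothTransition.contDiff.comp (contDiff_const.sub contDiff_id)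

theorem cut_one {t : ℝ} (ht : t ≤ 0) : cut t = 1 :=
  Real.smoothTransition.one_of_one_le (by linarith)

theorem cut_zero {t : ℝ} (ht : 1 ≤ t) : cut t = 0 :=
  Real.smoothTransition.zero_of_nonpos (by linarith)

theorem cut_nonneg (t : ℝ) : 0 ≤ cut t := Real.smoothTransition.nonneg _

theorem cut_le (t : ℝ) : cut t ≤ 1 := Real.smoothTransition.le_one _

/-- the set of all sums -/
noncomputable def GG (S : Finset K3) : Finset K3 := by
  classical exact (insert 0 S ×ˢ insert 0 S).image fun p => p.1 + p.2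

theorem mem_GG {S : Finset K3} {k l : K3} (hk : k ∈ insert 0 S) (hl : l ∈ insert 0 S) :
    k + l ∈ GG S := by
  classical
  unfold GG
  exact Finset.mem_image.mpr ⟨(k, l), Finset.mem_product.mpr ⟨hk, hl⟩, rfl⟩

theorem sub_GG {S : Finset K3} {k : K3} (hk : k ∈ insert 0 S) : k ∈ GG S := by
  have := mem_GG hk (Finset.mem_insert_self 0 S)
  rwa [add_zero] at this

theorem neg_insert {S : Finset K3} (hS : Fr S) {k : K3} (hk : k ∈ insert 0 S) :
    -k ∈ insert 0 S := by
  rcases Finset.mem_insert.mp hk with h | h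
  · rw [h, neg_zero]; exact Finset.mem_insert_self _ _
  · exact Finset.mem_insert_of_mem (hS.neg k h)

theorem neg_GG {S : Finset K3} (hS : Fr S) {k : K3} (hk : k ∈ GG S) : -k ∈ GG S := by
  classical
  unfold GG at hk
  obtain ⟨⟨p, q⟩, hpq, rfl⟩ := Finset.mem_image.mp hk
  obtain ⟨hp, hq⟩ := Finset.mem_product.mp hpq
  rw [neg_add]
  exact mem_GG (neg_insert hS hp) (neg_insert hS hq)

/-- the coefficients of the velocity: mean flow and `z • a` -/
noncomputable def bb (m : E3) (z : ℝ) (a : K3 → E3) (k : K3) : E3 :=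
  if k = 0 then m else z • a k

theorem bb_zero (m : E3) (z : ℝ) (a : K3 → E3) : bb m z a 0 = m := if_pos rfl

theorem bb_ne (m : E3) (z : ℝ) (a : K3 → E3) {k : K3} (hk : k ≠ 0) : bb m z a k = z • a k :=
  if_neg hk

theorem cj_rsmul (z : ℝ) (v : E3) : cj (z • v) = z • cj v := by ext i; simp [cj]

theorem bb_herm {S : Finset K3} (hS : Fr S) {m : E3} (hm : cj m = m) (z : ℝ) {a : K3 → E3}
    (ha : Fld S a) : Herm (insert 0 S) (bb m z a) := by
  refine ⟨fun k hk => neg_insert hS hk, fun k hk => ?_, fun k => ?_⟩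
  · have h1 : k ≠ 0 := fun h => hk (h ▸ Finset.mem_insert_self _ _)
    have h2 : k ∉ S := fun h => hk (Finset.mem_insert_of_mem h)
    rw [bb_ne _ _ _ h1, ha.supp k h2, smul_zero]
  · by_cases h : k = 0
    · rw [h, neg_zero, bb_zero, hm]
    · rw [bb_ne _ _ _ h, bb_ne _ _ _ (neg_ne_zero.mpr h), ha.sym, cj_rsmul]

theorem Nl_smul (S : Finset K3) (z : ℝ) (a : K3 → E3) (k : K3) :
    Nl S (fun l => z • a l) k = z ^ 2 • Nl S a k := by
  unfold Nl
  rw [Finset.smul_sum]
  refine Finset.sum_congr rfl fun l _ => ?_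
  have h : dk (k - l) (z • a l) = z * dk (k - l) (a l) := by
    have := dk_smul (k - l) (z : ℂ) (a l)
    rwa [Complex.coe_smul] at this
  rw [h, smul_comm, ← Complex.coe_smul, ← Complex.coe_smul, smul_smul, smul_smul]
  congr 1
  push_cast
  ring

theorem Nl_bb {S : Finset K3} (hS : Fr S) (m : E3) (z : ℝ) (a : K3 → E3) (k : K3) :
    Nl (insert 0 S) (bb m z a) k
      = (2 * Real.pi * Complex.I * dk k m) • bb m z a k + z ^ 2 • Nl S a k := by
  classical
  rw [← Nl_smul]
  unfold Nl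
  rw [Finset.sum_insert hS.zero, sub_zero, bb_zero]
  congr 1
  refine Finset.sum_congr rfl fun l hl => ?_
  rw [bb_ne _ _ _ (hS.ne hl)]
  by_cases h : k - l = 0
  · rw [h, dk_zero_left, mul_zero, zero_smul, zero_smul]
  · rw [bb_ne _ _ _ h]

theorem Nl_zero {S : Finset K3} {a : K3 → E3} (ha : Fld S a) : Nl S a 0 = 0 := by
  unfold Nl
  refine Finset.sum_eq_zero fun l _ => ?_
  rw [zero_sub, dk_neg_left, ha.div l, neg_zero, mul_zero, zero_smul]

theorem Nl_supp {S : Finset K3} {a : K3 → E3} (ha : ∀ k, k ∉ S → a k = 0) {G : Finset K3}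
    (hG : ∀ k ∈ S, ∀ l ∈ S, k + l ∈ G) {k : K3} (hk : k ∉ G) : Nl S a k = 0 := by
  unfold Nl
  refine Finset.sum_eq_zero fun l hl => ?_
  have : k - l ∉ S := fun h => hk (by simpa using hG _ h l hl)
  rw [ha _ this, smul_zero]

theorem bb_div {S : Finset K3} (m : E3) (z : ℝ) {a : K3 → E3} (ha : Fld S a) (k : K3) :
    dk k (bb m z a k) = 0 := by
  by_cases h : k = 0
  · rw [h, dk_zero_left]
  · rw [bb_ne _ _ _ h, ← Complex.coe_smul, dk_smul, ha.div, mul_zero]

/-- the coefficients of the pressure (without cut-off) are `dk k (v) / (2πi sq k)` -/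
noncomputable def pr (S : Finset K3) (v : K3 → E3) (k : K3) : ℂ :=
  if k ∈ S then dk k (v k) / (2 * Real.pi * Complex.I * sq k) else 0

theorem pr_kv {S : Finset K3} (hS : Fr S) (v : K3 → E3) {k : K3} (hk : k ∈ S) :
    Pk k (v k) + (2 * Real.pi * Complex.I * pr S v k) • kv k = v k := by
  have h1 : (2 * Real.pi * Complex.I : ℂ) ≠ 0 := by
    simp [Real.pi_ne_zero]
  have h2 : (sq k : ℂ) ≠ 0 := by exact_mod_cast (sq_pos' (hS.ne hk)).ne'
  have h3 : 2 * Real.pi * Complex.I * pr S v k = dk k (v k) / sq k := by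
    rw [pr, if_pos hk]
    field_simp
  rw [h3, Pk]
  abel

end Pool.Agent.W785.DF
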