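import Mathlib
import Pool.Agent.W785.DF.Rec
import Pool.Agent.H459R3.NS.Phys2
import Pool.Agent.H459R3.NS.Ibp

/-!
Reconstruction of the velocity from the Galerkin solution.
-/

open MeasureTheory Set
open scoped ContDiff InnerProductSpace

namespace Pool.Agent.W785.DF

open H459R3.NS (V K3 Per pd fr ee cube SP)

/-! ### linear facts on trigonometric fields -/

theorem tp_add (G : Finset K3) (c d : K3 → ℂ) (x : V) :
    tp G (fun k => c k + d k) x = tp G c x + tp G d x := by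
  unfold tp
  rw [← Complex.add_re, ← Finset.sum_add_distrib]
  congr 1
  exact Finset.sum_congr rfl fun k _ => by ring

theorem TP_add (G : Finset K3) (c d : K3 → E3) (x : V) (i : Fin 3) :
    TP G (fun k => c k + d k) x i = TP G c x i + TP G d x i := tp_add G _ _ x

theorem TP_rsmul (G : Finset K3) (z : ℝ) (c : K3 → E3) (x : V) (i : Fin 3) :
    TP G (fun k => z • c k) x i = z * TP G c x i := by
  unfold TP tp
  rw [← Complex.re_ofReal_mul, Finset.mul_sum]
  congr 1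
  refine Finset.sum_congr rfl fun k _ => ?_
  beta_reduce
  rw [PiLp.smul_apply, Complex.real_smul, mul_assoc]

theorem TP_congr {G : Finset K3} {c d : K3 → E3} (h : ∀ k ∈ G, c k = d k) (x : V) (i : Fin 3) :
    TP G c x i = TP G d x i := by
  unfold TP tp
  congr 1
  exact Finset.sum_congr rfl fun k hk => by beta_reduce; rw [h k hk]

theorem TP_sub {S G : Finset K3} (h : S ⊆ G) (c : K3 → E3) (x : V) (i : Fin 3) :
    TP S c x i = TP G (fun k => if k ∈ S then c k else 0) x i := by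
  unfold TP tp
  congr 1
  rw [← Finset.sum_subset h]
  · exact Finset.sum_congr rfl fun k hk => by beta_reduce; rw [if_pos hk]
  · intro k _ hk
    beta_reduce
    rw [if_neg hk]; simp

theorem tp_sub {S G : Finset K3} (h : S ⊆ G) (c : K3 → ℂ) (x : V) :
    tp S c x = tp G (fun k => if k ∈ S then c k else 0) x := by
  unfold tp
  congr 1
  rw [← Finset.sum_subset h]
  · exact Finset.sum_congr rfl fun k hk => by beta_reduce; rw [if_pos hk]
  · intro k _ hk
    beta_reduce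
    rw [if_neg hk]; simp

/-! ### derivatives of `A + z B` -/

theorem pd_lin {A B : V → ℝ} (hA : ContDiff ℝ ∞ A) (hB : ContDiff ℝ ∞ B) (z : ℝ) (j : Fin 3)
    (x : V) : pd j (fun y => A y + z * B y) x = pd j A x + z * pd j B x := by
  have h1 : HasFDerivAt A (fderiv ℝ A x) x := (hA.differentiable (by simp) x).hasFDerivAt
  have h2 : HasFDerivAt B (fderiv ℝ B x) x := (hB.differentiable (by simp) x).hasFDerivAt
  have h3 : HasFDerivAt (fun y => A y + z * B y) (fderiv ℝ A x + z • fderiv ℝ B x) x :=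
    h1.add (h2.const_mul z)
  unfold pd
  rw [h3.fderiv]
  simp

theorem pd_contDiff {A : V → ℝ} (hA : ContDiff ℝ ∞ A) (j : Fin 3) : ContDiff ℝ ∞ (pd j A) :=
  (hA.fderiv_right (m := ∞) (by norm_cast)).clm_apply contDiff_const

theorem pd2_lin {A B : V → ℝ} (hA : ContDiff ℝ ∞ A) (hB : ContDiff ℝ ∞ B) (z : ℝ) (j : Fin 3)
    (x : V) : pd j (pd j (fun y => A y + z * B y)) x = pd j (pd j A) x + z * pd j (pd j B) x := by
  have : pd j (fun y => A y + z * B y) = fun y => pd j A y + z * pd j B y :=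
    funext fun y => pd_lin hA hB z j y
  rw [this]
  exact pd_lin (pd_contDiff hA j) (pd_contDiff hB j) z j x

theorem comp_contDiff {A : V → V} (hA : ContDiff ℝ ∞ A) (i : Fin 3) :
    ContDiff ℝ ∞ (fun y => A y i) := (contDiff_pi.mp hA) i

/-- Data of the construction. -/
structure Dat (ν T0 δ : ℝ) (S : Finset K3) (w : K3 → ℝ → ℝ) (f : ℝ → V → V) (u0 : V → V)
    (mm : ℝ → E3) (ψ : ℝ → K3 → E3) (a0 : K3 → E3) (a : ℝ → K3 → E3) (r : V → V) : Prop where
  hν : 0 < ν
  hT : 0 ≤ T0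
  hS : Fr S
  hf : IsForce f
  u0s : ContDiff ℝ ∞ u0
  u0p : Per u0
  u0d : ∀ x, ∑ i, pd i (fun y => u0 y i) x = 0
  ψs : ∀ k, ContDiff ℝ ∞ (fun t => ψ t k)
  ψn : ∀ t k, ψ t (-k) = cj (ψ t k)
  ψz : ∀ t k, k ∉ insert 0 S → ψ t k = 0
  ms : ContDiff ℝ ∞ mm
  mr : ∀ t, cj (mm t) = mm t
  m0 : mm 0 = frv u0 0
  md : ∀ t, HasDerivAt mm (cut (t - T0) • ψ t 0) t
  wn : ∀ k y, w (-k) y = w k y
  gal : Gal S ν w (T0 + 2) mm ψ a0 a
  a0d : ∀ k ∈ S, a0 k = frv u0 k
  δ0 : 0 < δ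
  rd : ∀ x i, r x i = u0 x i - tp (insert 0 S) (fun k => frv u0 k i) x
  rs : ContDiff ℝ ∞ r
  rp : Per r
  rb : ∀ x i, |r x i| ≤ δ ∧ (∀ j, |pd j (fun y => r y i) x| ≤ δ) ∧
    |∑ j, pd j (pd j fun y => r y i) x| ≤ δ

/-- the coefficients of the velocity -/
noncomputable def bt (T0 : ℝ) (mm : ℝ → E3) (a : ℝ → K3 → E3) (t : ℝ) : K3 → E3 :=
  bb (mm t) (cut (t - T0)) (a t)

/-- the coefficients of the pressure -/
noncomputable def pt (T0 : ℝ) (S : Finset K3) (ψ : ℝ → K3 → E3) (a : ℝ → K3 → E3) (t : ℝ)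
    (k : K3) : ℂ := pr S (fun k => cut (t - T0) • (ψ t k - Nl S (a t) k)) k

/-- the velocity -/
noncomputable def uu (T0 : ℝ) (S : Finset K3) (mm : ℝ → E3) (a : ℝ → K3 → E3) (r : V → V) (t : ℝ)
    (x : V) : V := fun i => TP (insert 0 S) (bt T0 mm a t) x i + cut t * r x i

/-- the coefficients of the additional force, but for `f` and `r` -/
noncomputable def gam (T0 : ℝ) (S : Finset K3) (w : K3 → ℝ → ℝ) (ψ : ℝ → K3 → E3)
    (a : ℝ → K3 → E3) (t : ℝ) (k : K3) : E3 :=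
  cut (t - T0) • ψ t k + deriv (fun s => cut (s - T0)) t • a t k
    + (if k ∈ S then cut (t - T0) ^ 2 - cut (t - T0) else cut (t - T0) ^ 2) • Nl S (a t) k
    - (cut (t - T0) * (w k (Y2 S (a t)) * (4 * Real.pi ^ 2 * sq k))) • a t k

section

variable {ν T0 δ : ℝ} {S : Finset K3} {w : K3 → ℝ → ℝ} {f : ℝ → V → V} {u0 : V → V}
  {mm : ℝ → E3} {ψ : ℝ → K3 → E3} {a0 : K3 → E3} {a : ℝ → K3 → E3} {r : V → V}

theorem bt_late {t : ℝ} (ht : T0 + 1 ≤ t) : bt T0 mm a t = bb (mm t) 0 0 := by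
  unfold bt
  funext k
  rw [cut_zero (by linarith)]
  unfold bb
  split_ifs <;> simp

theorem Fld.zero (S : Finset K3) : Fld S 0 :=
  ⟨fun _ _ => rfl, fun _ => by simp [cj_zero], fun k => by simp [dk_zero]⟩

theorem Dat.herm (D : Dat ν T0 δ S w f u0 mm ψ a0 a r) {t : ℝ} (ht : 0 ≤ t) :
    Herm (insert 0 S) (bt T0 mm a t) := by
  by_cases h : t ≤ T0 + 2
  · exact bb_herm D.hS (D.mr t) _ (D.gal.fld t ⟨ht, h⟩)
  · rw [bt_late (by linarith)]
    exact bb_herm D.hS (D.mr t) 0 (Fld.zero S)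

theorem Dat.div (D : Dat ν T0 δ S w f u0 mm ψ a0 a r) {t : ℝ} (ht : 0 ≤ t) (k : K3) :
    dk k (bt T0 mm a t k) = 0 := by
  by_cases h : t ≤ T0 + 2
  · exact bb_div _ _ (D.gal.fld t ⟨ht, h⟩) k
  · rw [bt_late (by linarith)]
    exact bb_div _ _ (Fld.zero S) k

theorem contDiff_dk' {E : Type*} [NormedAddCommGroup E] [NormedSpace ℝ E] {s : Set E}
    {g : E → E3} (hg : ContDiffOn ℝ ∞ g s) (k : K3) : ContDiffOn ℝ ∞ (fun p => dk k (g p)) s := by
  unfold dk
  refine ContDiffOn.sum fun j _ => ?_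
  exact contDiffOn_const.mul ((contDiffOn_piLp 2).mp hg j)

theorem Dat.smooth_b (D : Dat ν T0 δ S w f u0 mm ψ a0 a r) (htime : S_time) (k : K3) :
    ContDiffOn ℝ ∞ (fun t => bt T0 mm a t k) (Ici 0) := by
  unfold bt
  by_cases h : k = 0
  · subst h
    simp only [bb_zero]
    exact D.ms.contDiffOn
  · simp only [bb_ne _ _ _ h]
    exact (htime.1 T0 D.hT (fun t => cut (t - T0)) (cut_contDiff.comp (contDiff_id.sub
      contDiff_const)) (fun t ht => cut_zero (by linarith)) (fun t => a t k) (D.gal.smooth k)).1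

theorem Dat.smooth_Nl (D : Dat ν T0 δ S w f u0 mm ψ a0 a r) (k : K3) :
    ContDiffOn ℝ ∞ (fun t => Nl S (a t) k) (Icc 0 (T0 + 2)) := by
  unfold Nl
  refine ContDiffOn.sum fun l _ => ?_
  exact (contDiffOn_const.mul (contDiff_dk' (D.gal.smooth l) _)).smul (D.gal.smooth _)

theorem Dat.smooth_p (D : Dat ν T0 δ S w f u0 mm ψ a0 a r) (htime : S_time) (k : K3) :
    ContDiffOn ℝ ∞ (fun t => pt T0 S ψ a t k) (Ici 0) := by
  unfold pt pr
  by_cases h : k ∈ S
  · simp only [if_pos h]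
    refine ContDiffOn.div_const ?_ _
    refine contDiff_dk' ?_ k
    exact (htime.1 T0 D.hT (fun t => cut (t - T0)) (cut_contDiff.comp (contDiff_id.sub
      contDiff_const)) (fun t ht => cut_zero (by linarith)) (fun t => ψ t k - Nl S (a t) k)
      ((D.ψs k).contDiffOn.sub (D.smooth_Nl k))).1
  · simp only [if_neg h]
    exact contDiffOn_const

/-- the initial coefficients -/
noncomputable def b0 (S : Finset K3) (u0 : V → V) (k : K3) : E3 := by
  classical exact if k ∈ insert 0 S then frv u0 k else 0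

theorem b0_mem {k : K3} (h : k ∈ insert 0 S) : b0 S u0 k = frv u0 k := by
  classical
  unfold b0
  exact if_pos h

theorem Dat.bt_zero (D : Dat ν T0 δ S w f u0 mm ψ a0 a r) : bt T0 mm a 0 = b0 S u0 := by
  classical
  funext k
  unfold bt
  rw [cut_one (by linarith [D.hT]), D.gal.init]
  by_cases h : k = 0
  · subst h
    rw [bb_zero, D.m0, b0_mem (Finset.mem_insert_self _ _)]
  · rw [bb_ne _ _ _ h, one_smul]
    by_cases hk : k ∈ S
    · rw [D.a0d k hk, b0_mem (Finset.mem_insert_of_mem hk)]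
    · have h1 := (D.gal.fld 0 ⟨le_rfl, by linarith [D.hT]⟩).supp k hk
      rw [D.gal.init] at h1
      rw [h1]
      unfold b0
      rw [if_neg (by simp [h, hk])]

theorem TP_b0 (x : V) (i : Fin 3) :
    TP (insert 0 S) (b0 S u0) x i = tp (insert 0 S) (fun k => frv u0 k i) x := by
  unfold TP tp
  congr 1
  exact Finset.sum_congr rfl fun k hk => by beta_reduce; rw [b0_mem hk]

theorem Dat.init (D : Dat ν T0 δ S w f u0 mm ψ a0 a r) : uu T0 S mm a r 0 = u0 := by
  funext x i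
  unfold uu
  rw [D.bt_zero, TP_b0, cut_one le_rfl, D.rd x i]
  ring

theorem uu_comp (t : ℝ) (i : Fin 3) : (fun y => uu T0 S mm a r t y i)
    = fun y => TP (insert 0 S) (bt T0 mm a t) y i + cut t * r y i := rfl

theorem Dat.div_r (D : Dat ν T0 δ S w f u0 mm ψ a0 a r) (htrig : S_trig) (x : V) :
    ∑ i, pd i (fun y => r y i) x = 0 := by
  have h0 : Herm (insert 0 S) (b0 S u0) := by
    rw [← D.bt_zero]; exact D.herm le_rfl
  have h1 : ∀ i, pd i (fun y => r y i) x = pd i (fun y => u0 y i) x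
      + (-1) * pd i (fun y => TP (insert 0 S) (b0 S u0) y i) x := by
    intro i
    have : (fun y => r y i) = fun y => u0 y i + (-1) * TP (insert 0 S) (b0 S u0) y i := by
      funext y
      rw [D.rd y i, TP_b0]; ring
    rw [this]
    exact pd_lin (comp_contDiff D.u0s i) (comp_contDiff (htrig _ _ h0).1 i) _ i x
  simp only [h1]
  rw [Finset.sum_add_distrib, D.u0d, ← Finset.mul_sum, (htrig _ _ h0).2.2.2.1
    (fun k => by rw [← D.bt_zero]; exact D.div le_rfl k)]
  simp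

theorem Dat.div_u (D : Dat ν T0 δ S w f u0 mm ψ a0 a r) (htrig : S_trig) {t : ℝ} (ht : 0 ≤ t)
    (x : V) : ∑ i, pd i (fun y => uu T0 S mm a r t y i) x = 0 := by
  have h0 := htrig _ _ (D.herm ht)
  have h1 : ∀ i, pd i (fun y => uu T0 S mm a r t y i) x
      = pd i (fun y => TP (insert 0 S) (bt T0 mm a t) y i) x
        + cut t * pd i (fun y => r y i) x := by
    intro i
    rw [uu_comp]
    exact pd_lin (comp_contDiff h0.1 i) (comp_contDiff D.rs i) _ i x
  simp only [h1]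
  rw [Finset.sum_add_distrib, ← Finset.mul_sum, D.div_r htrig, h0.2.2.2.1 (fun k => D.div ht k)]
  simp

theorem Dat.smooth_u (D : Dat ν T0 δ S w f u0 mm ψ a0 a r) (htime : S_time) :
    ContDiffOn ℝ ∞ (fun z : ℝ × V => uu T0 S mm a r z.1 z.2) (Ici 0 ×ˢ univ) := by
  have h1 := (htime.2.1 (insert 0 S) (bt T0 mm a) (D.smooth_b htime)).1
  rw [contDiffOn_pi] at h1 ⊢
  intro i
  refine (h1 i).add (ContDiffOn.mul ?_ ?_)
  · exact (cut_contDiff.comp contDiff_fst).contDiffOn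
  · exact ((comp_contDiff D.rs i).comp contDiff_snd).contDiffOn

theorem Dat.per_u (D : Dat ν T0 δ S w f u0 mm ψ a0 a r) (htrig : S_trig) {t : ℝ} (ht : 0 ≤ t) :
    Per (uu T0 S mm a r t) := by
  intro j x
  funext i
  unfold uu
  rw [(htrig _ _ (D.herm ht)).2.1 j x, D.rp j x]

end

end Pool.Agent.W785.DF
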