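import Mathlib
import Pool.Agent.W785.DF.Rec2

/-!
Reconstruction of the velocity from the Galerkin solution: the force.
-/

open MeasureTheory Set
open scoped ContDiff InnerProductSpace

namespace Pool.Agent.W785.DF

open H459R3.NS (V K3 Per pd fr ee cube SP)

variable {ν T0 δ : ℝ} {S : Finset K3} {w : K3 → ℝ → ℝ} {f : ℝ → V → V} {u0 : V → V}
  {mm : ℝ → E3} {ψ : ℝ → K3 → E3} {a0 : K3 → E3} {a : ℝ → K3 → E3} {r : V → V}

/-- the time derivative of the coefficients -/
noncomputable def bt' (ν T0 : ℝ) (S : Finset K3) (w : K3 → ℝ → ℝ) (mm : ℝ → E3)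
    (ψ : ℝ → K3 → E3) (a : ℝ → K3 → E3) (t : ℝ) (k : K3) : E3 :=
  if k = 0 then cut (t - T0) • ψ t 0 else
    deriv (fun s => cut (s - T0)) t • a t k + cut (t - T0) •
      (-((2 * Real.pi * Complex.I * dk k (mm t)) • a t k) - Pk k (Nl S (a t) k)
      - (((ν + w k (Y2 S (a t))) * (4 * Real.pi ^ 2 * sq k) : ℝ) : ℂ) • a t k
      + Pk k (ψ t k))

theorem Dat.deriv_b (D : Dat ν T0 δ S w f u0 mm ψ a0 a r) (htime : S_time) {t : ℝ} (ht : 0 ≤ t)
    (ht1 : t ≤ T0 + 1) {k : K3} (hk : k ∈ insert 0 S) :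
    HasDerivWithinAt (fun s => bt T0 mm a s k) (bt' ν T0 S w mm ψ a t k) (Ici 0) t := by
  unfold bt bt'
  by_cases h : k = 0
  · subst h
    simp only [bb_zero, if_pos]
    exact (D.md t).hasDerivWithinAt
  · simp only [bb_ne _ _ _ h, if_neg h]
    have hk' : k ∈ S := by simpa [h] using hk
    exact (htime.1 T0 D.hT (fun t => cut (t - T0)) (cut_contDiff.comp (contDiff_id.sub
      contDiff_const)) (fun t ht => cut_zero (by linarith)) (fun t => a t k)
      (D.gal.smooth k)).2.1 _ t ht ht1 (D.gal.ode t ⟨ht, by linarith⟩ k hk')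

theorem smooth_cut : ContDiff ℝ ∞ (fun s : ℝ => cut (s - T0)) :=
  cut_contDiff.comp (contDiff_id.sub contDiff_const)

theorem Dat.deriv_u (D : Dat ν T0 δ S w f u0 mm ψ a0 a r) (htime : S_time) {t : ℝ} (ht : 0 ≤ t)
    (ht1 : t ≤ T0 + 1) (x : V) (i : Fin 3) :
    derivWithin (fun s => uu T0 S mm a r s x i) (Ici 0) t
      = TP (insert 0 S) (bt' ν T0 S w mm ψ a t) x i + deriv cut t * r x i := by
  have h1 := (htime.2.1 (insert 0 S) (bt T0 mm a) (D.smooth_b htime)).2 t ht
    (bt' ν T0 S w mm ψ a t) (fun k hk => D.deriv_b htime ht ht1 hk) x i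
  have h2 : HasDerivAt cut (deriv cut t) t :=
    ((cut_contDiff.differentiable (by simp)) t).hasDerivAt
  have h3 := h1.add (h2.hasDerivWithinAt.mul_const (r x i) (s := Ici 0))
  exact h3.derivWithin (uniqueDiffOn_Ici 0 t ht)

/-- the algebraic identity for the coefficients of the force -/
theorem Dat.coef (D : Dat ν T0 δ S w f u0 mm ψ a0 a r) {t : ℝ} (ht : 0 ≤ t)
    (ht1 : t ≤ T0 + 1) (k : K3) :
    (if k ∈ insert 0 S then bt' ν T0 S w mm ψ a t k else 0)
      + Nl (insert 0 S) (bt T0 mm a t) k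
      + (ν * (4 * Real.pi ^ 2 * sq k)) • bt T0 mm a t k
      + (2 * Real.pi * Complex.I * pt T0 S ψ a t k) • kv k
    = gam T0 S w ψ a t k := by
  have hF := D.gal.fld t ⟨ht, by linarith⟩
  unfold bt
  rw [Nl_bb D.hS]
  by_cases h : k = 0
  · subst h
    have h0 : (0 : K3) ∉ S := D.hS.zero
    rw [if_pos (Finset.mem_insert_self _ _), bt', if_pos rfl, gam, pt, pr, if_neg h0, if_neg h0,
      Nl_zero hF, hF.supp 0 h0, dk_zero_left, sq_zero']
    simp
  · by_cases hk : k ∈ S
    · have e1 := pr_kv D.hS (fun k => cut (t - T0) • (ψ t k - Nl S (a t) k)) hk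
      rw [if_pos (Finset.mem_insert_of_mem hk), bt', if_neg h, gam, if_pos hk, bb_ne _ _ _ h, pt]
      have e2 : Pk k (cut (t - T0) • (ψ t k - Nl S (a t) k))
          = cut (t - T0) • Pk k (ψ t k) - cut (t - T0) • Pk k (Nl S (a t) k) := by
        unfold Pk
        rw [← Complex.coe_smul, ← Complex.coe_smul, ← Complex.coe_smul, dk_smul, dk_sub]
        simp only [smul_sub, smul_smul, sub_div, mul_sub, mul_div_assoc, sub_smul]
        abel
      beta_reduce at e1
      rw [e2] at e1
      have e3 : (2 * Real.pi * Complex.I *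
          pr S (fun k => cut (t - T0) • (ψ t k - Nl S (a t) k)) k) • kv k
          = cut (t - T0) • (ψ t k - Nl S (a t) k)
            - (cut (t - T0) • Pk k (ψ t k) - cut (t - T0) • Pk k (Nl S (a t) k)) := by
        rw [← e1]; abel
      rw [e3]
      generalize cut (t - T0) = χ
      generalize deriv (fun s => cut (s - T0)) t = χ'
      generalize 4 * Real.pi ^ 2 * sq k = m
      generalize w k (Y2 S (a t)) = ww
      generalize Pk k (ψ t k) = A1
      generalize Pk k (Nl S (a t) k) = A2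
      generalize Nl S (a t) k = A3
      generalize ψ t k = A4
      generalize 2 * Real.pi * Complex.I * dk k (mm t) = z
      generalize a t k = A5
      rw [Complex.coe_smul, smul_comm z χ A5]
      module
    · have h1 : k ∉ insert 0 S := by simp [h, hk]
      rw [if_neg h1, bb_ne _ _ _ h, gam, if_neg hk, D.ψz t k h1, hF.supp k hk, pt, pr, if_neg hk]
      simp

theorem Dat.gam_herm (D : Dat ν T0 δ S w f u0 mm ψ a0 a r) {t : ℝ} (ht : 0 ≤ t)
    (ht1 : t ≤ T0 + 1) : Herm (GG S) (gam T0 S w ψ a t) := by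
  have hF := D.gal.fld t ⟨ht, by linarith⟩
  refine ⟨fun k hk => neg_GG D.hS hk, fun k hk => ?_, fun k => ?_⟩
  · have h1 : k ∉ insert 0 S := fun h => hk (sub_GG h)
    have h2 : k ∉ S := fun h => h1 (Finset.mem_insert_of_mem h)
    have h3 : Nl S (a t) k = 0 := Nl_supp hF.supp (fun k hk l hl =>
      mem_GG (Finset.mem_insert_of_mem hk) (Finset.mem_insert_of_mem hl)) hk
    rw [gam, D.ψz t k h1, hF.supp k h2, h3]
    simp
  · have h4 : (-k ∈ S) = (k ∈ S) := propext D.hS.neg_mem_iff
    unfold gam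
    rw [D.ψn, hF.sym, Nl_neg D.hS hF.sym, D.wn, sq_neg']
    simp only [cj_add, cj_sub, cj_rsmul, h4]

theorem Dat.resid_eq (D : Dat ν T0 δ S w f u0 mm ψ a0 a r) (htrig : S_trig) (hgrad : S_grad)
    (htime : S_time) {t : ℝ} (ht : 0 ≤ t) (ht1 : t ≤ T0 + 1) :
    resid ν f (uu T0 S mm a r) (fun t => tp S (pt T0 S ψ a t)) t
      = TP (GG S) (gam T0 S w ψ a t)
        + rho ν (cut t) (deriv cut t) (TP (insert 0 S) (bt T0 mm a t)) r + (-f t) := by
  have h0 := htrig _ _ (D.herm ht)
  have hsub : insert 0 S ⊆ GG S := fun k hk => sub_GG hk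
  have hsub' : S ⊆ GG S := fun k hk => sub_GG (Finset.mem_insert_of_mem hk)
  funext x i
  simp only [Pi.add_apply, Pi.neg_apply]
  unfold resid
  rw [D.deriv_u htime ht ht1 x i]
  have hp1 : ∀ (i j : Fin 3) (y : V), pd j (fun y => uu T0 S mm a r t y i) y
      = pd j (fun y => TP (insert 0 S) (bt T0 mm a t) y i) y + cut t * pd j (fun y => r y i) y :=
    fun i j y => pd_lin (comp_contDiff h0.1 i) (comp_contDiff D.rs i) _ j y
  have hp2 : ∀ (i j : Fin 3) (y : V), pd j (pd j fun y => uu T0 S mm a r t y i) y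
      = pd j (pd j fun y => TP (insert 0 S) (bt T0 mm a t) y i) y
        + cut t * pd j (pd j fun y => r y i) y :=
    fun i j y => pd2_lin (comp_contDiff h0.1 i) (comp_contDiff D.rs i) _ j y
  simp only [hp1, hp2]
  have hc : ∑ j, uu T0 S mm a r t x j * (pd j (fun y => TP (insert 0 S) (bt T0 mm a t) y i) x
      + cut t * pd j (fun y => r y i) x)
      = TP (GG S) (Nl (insert 0 S) (bt T0 mm a t)) x i
        + cut t * (∑ j, TP (insert 0 S) (bt T0 mm a t) x j * pd j (fun y => r y i) x)
        + cut t * (∑ j, r x j * pd j (fun y => TP (insert 0 S) (bt T0 mm a t) y i) x)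
        + cut t ^ 2 * ∑ j, r x j * pd j (fun y => r y i) x := by
    rw [← h0.2.2.1 (GG S) (fun k hk l hl => mem_GG hk hl) x i, Finset.mul_sum, Finset.mul_sum,
      Finset.mul_sum, ← Finset.sum_add_distrib, ← Finset.sum_add_distrib,
      ← Finset.sum_add_distrib]
    refine Finset.sum_congr rfl fun j _ => ?_
    unfold uu
    ring
  rw [hc, Finset.sum_add_distrib, h0.2.2.2.2.1 x i, ← Finset.mul_sum, (hgrad S _).2.2 x i,
    TP_sub hsub, TP_sub hsub, TP_sub hsub']
  have hg : TP (GG S) (gam T0 S w ψ a t) x i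
      = TP (GG S) (fun k => if k ∈ insert 0 S then bt' ν T0 S w mm ψ a t k else 0) x i
        + TP (GG S) (Nl (insert 0 S) (bt T0 mm a t)) x i
        + (-ν) * TP (GG S) (fun k => if k ∈ insert 0 S
            then (-(4 * Real.pi ^ 2 * sq k) : ℝ) • bt T0 mm a t k else 0) x i
        + TP (GG S) (fun k => if k ∈ S then (2 * Real.pi * Complex.I * pt T0 S ψ a t k) • kv k
            else 0) x i := by
    rw [← TP_rsmul, ← TP_add, ← TP_add, ← TP_add]
    refine TP_congr (fun k _ => ?_) x i
    rw [← D.coef ht ht1 k]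
    congr 1
    · congr 1
      by_cases h : k ∈ insert 0 S
      · rw [if_pos h, smul_smul]
        congr 1
        ring
      · rw [if_neg h, smul_zero, (D.herm ht).supp k h, smul_zero]
    · by_cases h : k ∈ S
      · rw [if_pos h]
      · rw [if_neg h, pt, pr, if_neg h]
        simp
  rw [hg]
  unfold rho
  ring

theorem Dat.frv_resid (D : Dat ν T0 δ S w f u0 mm ψ a0 a r) (htrig : S_trig) (hgrad : S_grad)
    (hbes : S_bes) (hrho : S_rho) (htime : S_time) {t : ℝ} (ht : 0 ≤ t) (ht1 : t ≤ T0 + 1)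
    (k : K3) :
    frv (resid ν f (uu T0 S mm a r) (fun t => tp S (pt T0 S ψ a t)) t) k
      = gam T0 S w ψ a t k
        + frv (rho ν (cut t) (deriv cut t) (TP (insert 0 S) (bt T0 mm a t)) r) k
        - frv (f t) k := by
  obtain ⟨C, hC, hr⟩ := hrho
  have hr1 := (hr ν (cut t) (deriv cut t) δ D.hν (by
    rw [abs_of_nonneg (cut_nonneg t)]; exact cut_le t) D.δ0 _ _ (D.herm ht) r D.rs D.rp D.rb).1
  have hg := (htrig _ _ (D.gam_herm ht ht1))
  have hf : Continuous (f t) := by
    have h1 : ContDiff ℝ ∞ (f t) := by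
      rw [← contDiffOn_univ]
      exact D.hf.smooth.comp (contDiff_const.prodMk contDiff_id).contDiffOn
        (fun x _ => ⟨ht, mem_univ _⟩)
    exact h1.continuous
  rw [D.resid_eq htrig hgrad htime ht ht1, hbes.2.1 _ _ (hg.1.continuous.add hr1) hf.neg,
    hbes.2.1 _ _ hg.1.continuous hr1, hbes.2.2, hg.2.2.2.2.2.1 k]
  abel

theorem Dat.late (D : Dat ν T0 δ S w f u0 mm ψ a0 a r) (htime : S_time) {t : ℝ}
    (hT : 1 ≤ T0) (ht : T0 + 1 ≤ t) (x : V) :
    resid ν f (uu T0 S mm a r) (fun t => tp S (pt T0 S ψ a t)) t x = - f t x := by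
  have ht0 : 0 ≤ t := by linarith
  funext i
  simp only [Pi.neg_apply]
  -- the field does not depend on `x`
  have hu : ∀ y j, uu T0 S mm a r t y j = (mm t j).re := by
    intro y j
    unfold uu
    rw [cut_zero (by linarith), bt_late ht, zero_mul, add_zero]
    unfold TP tp
    rw [Finset.sum_insert D.hS.zero, H459R3.NS.ee_zero]
    beta_reduce
    rw [bb_zero]
    have : ∑ k ∈ S, (bb (mm t) 0 0 k) j * ee k y = 0 := by
      refine Finset.sum_eq_zero fun k hk => ?_
      rw [bb_ne _ _ _ (D.hS.ne hk)]; simp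
    rw [this]; simp
  have hp : tp S (pt T0 S ψ a t) = fun _ => 0 := by
    funext y
    unfold tp pt pr
    have : ∑ k ∈ S, (if k ∈ S then dk k (cut (t - T0) • (ψ t k - Nl S (a t) k))
        / (2 * Real.pi * Complex.I * sq k) else 0) * ee k y = 0 := by
      refine Finset.sum_eq_zero fun k hk => ?_
      rw [cut_zero (by linarith), zero_smul, dk_zero]; simp
    rw [this]; simp
  have hpd : ∀ (c : ℝ) (j : Fin 3) (y : V), pd j (fun _ : V => c) y = 0 := by
    intro c j y
    unfold pd
    simp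
  have huf : ∀ j, (fun y => uu T0 S mm a r t y j) = fun _ => (mm t j).re :=
    fun j => funext fun y => hu y j
  have hdt : derivWithin (fun s => uu T0 S mm a r s x i) (Ici 0) t = 0 := by
    have h1 := (htime.2.1 (insert 0 S) (bt T0 mm a) (D.smooth_b htime)).2 t ht0 0 (by
      intro k hk
      unfold bt
      by_cases h : k = 0
      · subst h
        simp only [bb_zero]
        have h2 := D.md t
        rw [cut_zero (by linarith), zero_smul] at h2
        exact h2.hasDerivWithinAt
      · simp only [bb_ne _ _ _ h]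
        exact (htime.1 T0 D.hT (fun t => cut (t - T0)) (cut_contDiff.comp (contDiff_id.sub
          contDiff_const)) (fun t ht => cut_zero (by linarith)) (fun t => a t k)
          (D.gal.smooth k)).2.2 t ht) x i
    have h2 : HasDerivAt cut 0 t := by
      refine (hasDerivAt_const t (0 : ℝ)).congr_of_eventuallyEq ?_
      filter_upwards [Ioi_mem_nhds (show (1 : ℝ) < t by linarith)] with s hs
      exact cut_zero (le_of_lt hs)
    have h3 := h1.add (h2.hasDerivWithinAt.mul_const (r x i) (s := Ici 0))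
    have h4 := h3.derivWithin (uniqueDiffOn_Ici 0 t ht0)
    have h5 : TP (insert 0 S) 0 x i = 0 := by
      unfold TP tp
      simp
    rw [h5, zero_mul, add_zero] at h4
    exact h4
  unfold resid
  rw [hdt]
  beta_reduce
  rw [hp]
  have h6 : ∀ (c : ℝ) (j : Fin 3), pd j (fun _ : V => c) = fun _ => 0 :=
    fun c j => funext fun y => hpd c j y
  simp [huf, h6]

end Pool.Agent.W785.DF
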