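import Mathlib
import Pool.Agent.W785.DF.Rec3

/-!
Assembly: pointwise estimates of the additional force.
-/

open MeasureTheory Set
open scoped ContDiff InnerProductSpace ENNReal

namespace Pool.Agent.W785.DF

open H459R3.NS (V K3 Per pd fr ee cube SP)

theorem vs_contDiff {h : ℝ} (hh : 0 < h) (R : ℝ) (k : K3) : ContDiff ℝ ∞ (vs h R k) := by
  rw [contDiff_iff_contDiffAt]
  intro y
  by_cases hy : y < h
  · have : vs h R k =ᶠ[nhds y] fun _ => 0 := by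
      filter_upwards [Iio_mem_nhds hy] with z hz
      unfold vs
      rw [mh_zero hh (le_of_lt hz), zero_mul]
    exact contDiffAt_const.congr_of_eventuallyEq this
  · have hy0 : 0 < y := by linarith
    have h1 : ContDiffAt ℝ ∞ (fun y : ℝ => y / h) y := contDiffAt_id.div_const _
    have h2 : ContDiffAt ℝ ∞ (mh h) y := by
      unfold mh
      refine (h1.rpow_const_of_ne (div_pos hy0 hh).ne').mul ?_
      exact Real.smoothTransition.contDiffAt.comp y (h1.sub contDiffAt_const)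
    have h3 : ContDiffAt ℝ ∞ (th R k) y := by
      unfold th
      refine Real.smoothTransition.contDiffAt.comp y (ContDiffAt.sub ?_ contDiffAt_const)
      exact contDiffAt_const.div contDiffAt_id hy0.ne'
    exact h2.mul h3

theorem vs_neg (h R : ℝ) (k : K3) (y : ℝ) : vs h R (-k) y = vs h R k y := by
  unfold vs th
  rw [sq_neg']

theorem norm_add5 (x1 x2 x3 x4 x5 : E3) : ‖x1 + x2 + x3 + x4 + x5‖ ^ 2
    ≤ 5 * (‖x1‖ ^ 2 + ‖x2‖ ^ 2 + ‖x3‖ ^ 2 + ‖x4‖ ^ 2 + ‖x5‖ ^ 2) := by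
  have h : ‖x1 + x2 + x3 + x4 + x5‖ ≤ ‖x1‖ + ‖x2‖ + ‖x3‖ + ‖x4‖ + ‖x5‖ := by
    refine (norm_add_le _ _).trans ?_
    gcongr
    refine (norm_add_le _ _).trans ?_
    gcongr
    refine (norm_add_le _ _).trans ?_
    gcongr
    exact norm_add_le _ _
  have h2 : ‖x1 + x2 + x3 + x4 + x5‖ ^ 2 ≤ (‖x1‖ + ‖x2‖ + ‖x3‖ + ‖x4‖ + ‖x5‖) ^ 2 := by
    gcongr
  refine h2.trans ?_
  nlinarith [sq_nonneg (‖x1‖ - ‖x2‖), sq_nonneg (‖x1‖ - ‖x3‖), sq_nonneg (‖x1‖ - ‖x4‖),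
    sq_nonneg (‖x1‖ - ‖x5‖), sq_nonneg (‖x2‖ - ‖x3‖), sq_nonneg (‖x2‖ - ‖x4‖),
    sq_nonneg (‖x2‖ - ‖x5‖), sq_nonneg (‖x3‖ - ‖x4‖), sq_nonneg (‖x3‖ - ‖x5‖),
    sq_nonneg (‖x4‖ - ‖x5‖)]

theorem norm_add2 (x1 x2 : E3) : ‖x1 + x2‖ ^ 2 ≤ 2 * (‖x1‖ ^ 2 + ‖x2‖ ^ 2) := by
  have h2 : ‖x1 + x2‖ ^ 2 ≤ (‖x1‖ + ‖x2‖) ^ 2 := by
    gcongr
    exact norm_add_le _ _
  nlinarith [sq_nonneg (‖x1‖ - ‖x2‖)]

theorem rpow_le_one' {s : ℝ} (hs : 0 ≤ s) (k : K3) : (1 + sq k) ^ (-s) ≤ 1 := by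
  refine Real.rpow_le_one_of_one_le_of_nonpos ?_ (by linarith)
  have := sq_nonneg' k
  linarith

theorem sumw_le {s : ℝ} (hs : 0 ≤ s) (G : Finset K3) (x : K3 → E3) :
    ∑ k ∈ G, (1 + sq k) ^ (-s) * ‖x k‖ ^ 2 ≤ ∑ k ∈ G, ‖x k‖ ^ 2 := by
  refine Finset.sum_le_sum fun k _ => ?_
  exact mul_le_of_le_one_left (sq_nonneg _) (rpow_le_one' hs k)

theorem w_nonneg (s : ℝ) (k : K3) : 0 ≤ (1 + sq k) ^ (-s) := by
  have := sq_nonneg' k
  positivity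

theorem supp_le {S G : Finset K3} {c : K3 → ℝ} (hc : ∀ k, 0 ≤ c k) {x : K3 → E3}
    (hx : ∀ k, k ∉ S → x k = 0) : ∑ k ∈ G, c k * ‖x k‖ ^ 2 ≤ ∑ k ∈ S, c k * ‖x k‖ ^ 2 := by
  classical
  have h1 : ∑ k ∈ G, c k * ‖x k‖ ^ 2 = ∑ k ∈ G ∩ S, c k * ‖x k‖ ^ 2 := by
    symm
    refine Finset.sum_subset Finset.inter_subset_left fun k hk hk2 => ?_
    have : k ∉ S := fun h => hk2 (Finset.mem_inter.mpr ⟨hk, h⟩)
    rw [hx k this]; simp
  rw [h1]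
  exact Finset.sum_le_sum_of_subset_of_nonneg Finset.inter_subset_right
    fun k _ _ => mul_nonneg (hc k) (sq_nonneg _)

section

variable {ν T0 δ h R : ℝ} {S : Finset K3} {f : ℝ → V → V} {u0 : V → V}
  {mm : ℝ → E3} {ψ : ℝ → K3 → E3} {a0 : K3 → E3} {a : ℝ → K3 → E3} {r : V → V}

theorem Dat.point (D : Dat ν T0 δ S (vs h R) f u0 mm ψ a0 a r) (htrig : S_trig)
    (hgrad : S_grad) (hbes : S_bes) (hrho : S_rho) (htime : S_time) {t : ℝ} (ht : 0 ≤ t)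
    (ht1 : t ≤ T0 + 1) {s s' C' lam F η Kc B : ℝ} (hs' : 1 / 2 < s') (hss : s' ≤ s)
    (hC' : ∀ (G : Finset K3), ∑ k ∈ G, (1 + sq k) ^ (-s') * ‖Nl S (a t) k‖ ^ 2
      ≤ C' * Y2 S (a t) ^ 2)
    (hlam0 : 0 ≤ lam) (hlam : ∀ k, k ∉ S → k ≠ 0 → (1 + sq k) ^ (-(s - s')) ≤ lam)
    (hF : ∀ G : Finset K3, ∑ k ∈ G, ‖frv (f t) k‖ ^ 2 ≤ F ^ 2)
    (hη : ∀ G : Finset K3, ∑ k ∈ G, ‖ψ t k - frv (f t) k‖ ^ 2 ≤ η ^ 2)
    (hK : ∑ k ∈ S, (1 + sq k) ^ (-s) *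
      ‖(vs h R k (Y2 S (a t)) * (4 * Real.pi ^ 2 * sq k)) • a t k‖ ^ 2 ≤ Kc)
    (hB : ∀ G : Finset K3, ∑ k ∈ G,
      ‖frv (rho ν (cut t) (deriv cut t) (TP (insert 0 S) (bt T0 mm a t)) r) k‖ ^ 2 ≤ B)
    (G : Finset K3) :
    ∑ k ∈ G, (1 + sq k) ^ (-s) *
        ‖frv (resid ν f (uu T0 S mm a r) (fun t => tp S (pt T0 S ψ a t)) t) k‖ ^ 2
      ≤ 10 * (η ^ 2 + (1 - cut (t - T0)) ^ 2 * F ^ 2
        + deriv (fun s => cut (s - T0)) t ^ 2 * X2 S (a t)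
        + ((1 - cut (t - T0)) ^ 2 + lam) * (C' * Y2 S (a t) ^ 2) + Kc + B) := by
  have hFd := D.gal.fld t ⟨ht, by linarith⟩
  set χ := cut (t - T0) with hχ
  set χ' := deriv (fun s => cut (s - T0)) t with hχ'
  have hχ0 : 0 ≤ χ := cut_nonneg _
  have hχ1 : χ ≤ 1 := cut_le _
  have hs0 : 0 ≤ s := by linarith
  set x1 : K3 → E3 := fun k => χ • (ψ t k - frv (f t) k) + (-(1 - χ)) • frv (f t) k with hx1
  set x2 : K3 → E3 := fun k => χ' • a t k with hx2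
  set x3 : K3 → E3 := fun k => (if k ∈ S then χ ^ 2 - χ else χ ^ 2) • Nl S (a t) k with hx3
  set x4 : K3 → E3 := fun k => (-χ) • ((vs h R k (Y2 S (a t)) * (4 * Real.pi ^ 2 * sq k)) • a t k)
    with hx4
  set x5 : K3 → E3 := fun k =>
    frv (rho ν (cut t) (deriv cut t) (TP (insert 0 S) (bt T0 mm a t)) r) k with hx5
  have e : ∀ k, frv (resid ν f (uu T0 S mm a r) (fun t => tp S (pt T0 S ψ a t)) t) k
      = x1 k + x2 k + x3 k + x4 k + x5 k := by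
    intro k
    rw [D.frv_resid htrig hgrad hbes hrho htime ht ht1 k, gam, hx1, hx2, hx3, hx4, hx5]
    module
  have b1 : ∑ k ∈ G, (1 + sq k) ^ (-s) * ‖x1 k‖ ^ 2 ≤ 2 * (η ^ 2 + (1 - χ) ^ 2 * F ^ 2) := by
    refine (sumw_le hs0 G x1).trans ?_
    calc ∑ k ∈ G, ‖x1 k‖ ^ 2
        ≤ ∑ k ∈ G, 2 * (‖ψ t k - frv (f t) k‖ ^ 2 + (1 - χ) ^ 2 * ‖frv (f t) k‖ ^ 2) := by
          refine Finset.sum_le_sum fun k _ => (norm_add2 _ _).trans ?_
          rw [norm_smul, norm_smul, norm_neg, mul_pow, mul_pow, Real.norm_eq_abs, sq_abs,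
            Real.norm_eq_abs, sq_abs]
          have : χ ^ 2 * ‖ψ t k - frv (f t) k‖ ^ 2 ≤ 1 * ‖ψ t k - frv (f t) k‖ ^ 2 := by
            gcongr
            nlinarith
          linarith
      _ = 2 * (∑ k ∈ G, ‖ψ t k - frv (f t) k‖ ^ 2 + (1 - χ) ^ 2 * ∑ k ∈ G, ‖frv (f t) k‖ ^ 2) := by
          rw [← Finset.mul_sum, Finset.sum_add_distrib, Finset.mul_sum]
      _ ≤ _ := by
          have h1 := hη G
          have h2 := hF G
          gcongr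
  have b2 : ∑ k ∈ G, (1 + sq k) ^ (-s) * ‖x2 k‖ ^ 2 ≤ χ' ^ 2 * X2 S (a t) := by
    refine (sumw_le hs0 G x2).trans ?_
    have h1 : ∑ k ∈ G, ‖x2 k‖ ^ 2 ≤ ∑ k ∈ S, ‖x2 k‖ ^ 2 := by
      have := supp_le (S := S) (G := G) (c := fun _ => 1) (fun _ => zero_le_one) (x := x2)
        (fun k hk => by rw [hx2]; simp [hFd.supp k hk])
      simpa using this
    refine h1.trans (le_of_eq ?_)
    rw [X2, Finset.mul_sum]
    refine Finset.sum_congr rfl fun k _ => ?_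
    rw [hx2]
    beta_reduce
    rw [norm_smul, mul_pow, Real.norm_eq_abs, sq_abs]
  have b3 : ∑ k ∈ G, (1 + sq k) ^ (-s) * ‖x3 k‖ ^ 2
      ≤ ((1 - χ) ^ 2 + lam) * (C' * Y2 S (a t) ^ 2) := by
    calc ∑ k ∈ G, (1 + sq k) ^ (-s) * ‖x3 k‖ ^ 2
        ≤ ∑ k ∈ G, ((1 - χ) ^ 2 + lam) * ((1 + sq k) ^ (-s') * ‖Nl S (a t) k‖ ^ 2) := by
          refine Finset.sum_le_sum fun k _ => ?_
          have hw : (1 + sq k) ^ (-s) = (1 + sq k) ^ (-s') * (1 + sq k) ^ (-(s - s')) := by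
            have := sq_nonneg' k
            rw [← Real.rpow_add (by linarith)]
            congr 1
            ring
          have hw1 : (1 + sq k) ^ (-(s - s')) ≤ 1 := rpow_le_one' (by linarith) k
          have hw0 := w_nonneg s' k
          have hw2 := w_nonneg (s - s') k
          rw [hx3]
          beta_reduce
          rw [norm_smul, mul_pow, Real.norm_eq_abs, sq_abs, hw]
          set n := ‖Nl S (a t) k‖ ^ 2 with hn
          have hn0 : 0 ≤ n := sq_nonneg _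
          by_cases hk : k ∈ S
          · rw [if_pos hk]
            have e1 : (χ ^ 2 - χ) ^ 2 ≤ (1 - χ) ^ 2 + lam := by
              have : (χ ^ 2 - χ) ^ 2 = χ ^ 2 * (1 - χ) ^ 2 := by ring
              rw [this]
              have h1 : χ ^ 2 ≤ 1 := by nlinarith
              nlinarith [sq_nonneg (1 - χ)]
            calc (1 + sq k) ^ (-s') * (1 + sq k) ^ (-(s - s')) * ((χ ^ 2 - χ) ^ 2 * n)
                ≤ (1 + sq k) ^ (-s') * 1 * (((1 - χ) ^ 2 + lam) * n) := by gcongr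
              _ = _ := by ring
          · rw [if_neg hk]
            by_cases hk0 : k = 0
            · have : n = 0 := by rw [hn, hk0, Nl_zero hFd]; simp
              rw [this]; simp
            · have e1 := hlam k hk hk0
              have e2 : (χ ^ 2) ^ 2 ≤ 1 := by
                have : χ ^ 2 ≤ 1 := by nlinarith
                have h0 : 0 ≤ χ ^ 2 := sq_nonneg _
                nlinarith
              calc (1 + sq k) ^ (-s') * (1 + sq k) ^ (-(s - s')) * ((χ ^ 2) ^ 2 * n)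
                  ≤ (1 + sq k) ^ (-s') * lam * (1 * n) := by gcongr
                _ ≤ (1 + sq k) ^ (-s') * ((1 - χ) ^ 2 + lam) * (1 * n) := by
                    gcongr
                    nlinarith [sq_nonneg (1 - χ)]
                _ = _ := by ring
      _ = ((1 - χ) ^ 2 + lam) * ∑ k ∈ G, (1 + sq k) ^ (-s') * ‖Nl S (a t) k‖ ^ 2 := by
          rw [Finset.mul_sum]
      _ ≤ _ := by
          have := hC' G
          gcongr
  have b4 : ∑ k ∈ G, (1 + sq k) ^ (-s) * ‖x4 k‖ ^ 2 ≤ Kc := by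
    refine (supp_le (S := S) (w_nonneg s) (x := x4) (fun k hk => by
      rw [hx4]; simp [hFd.supp k hk])).trans (le_trans ?_ hK)
    refine Finset.sum_le_sum fun k _ => ?_
    rw [hx4]
    beta_reduce
    rw [norm_smul, norm_neg, mul_pow, Real.norm_eq_abs, sq_abs]
    have hw0 := w_nonneg s k
    have h1 : χ ^ 2 ≤ 1 := by nlinarith
    calc (1 + sq k) ^ (-s) * (χ ^ 2 *
          ‖(vs h R k (Y2 S (a t)) * (4 * Real.pi ^ 2 * sq k)) • a t k‖ ^ 2)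
        ≤ (1 + sq k) ^ (-s) * (1 *
          ‖(vs h R k (Y2 S (a t)) * (4 * Real.pi ^ 2 * sq k)) • a t k‖ ^ 2) := by gcongr
      _ = _ := by rw [one_mul]
  have b5 : ∑ k ∈ G, (1 + sq k) ^ (-s) * ‖x5 k‖ ^ 2 ≤ B :=
    (sumw_le hs0 G x5).trans (hB G)
  calc ∑ k ∈ G, (1 + sq k) ^ (-s) *
        ‖frv (resid ν f (uu T0 S mm a r) (fun t => tp S (pt T0 S ψ a t)) t) k‖ ^ 2
      ≤ ∑ k ∈ G, 5 * ((1 + sq k) ^ (-s) * ‖x1 k‖ ^ 2 + (1 + sq k) ^ (-s) * ‖x2 k‖ ^ 2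
        + (1 + sq k) ^ (-s) * ‖x3 k‖ ^ 2 + (1 + sq k) ^ (-s) * ‖x4 k‖ ^ 2
        + (1 + sq k) ^ (-s) * ‖x5 k‖ ^ 2) := by
        refine Finset.sum_le_sum fun k _ => ?_
        rw [e k]
        have h1 := norm_add5 (x1 k) (x2 k) (x3 k) (x4 k) (x5 k)
        have h2 := mul_le_mul_of_nonneg_left h1 (w_nonneg s k)
        linarith
    _ = 5 * (∑ k ∈ G, (1 + sq k) ^ (-s) * ‖x1 k‖ ^ 2 + ∑ k ∈ G, (1 + sq k) ^ (-s) * ‖x2 k‖ ^ 2
        + ∑ k ∈ G, (1 + sq k) ^ (-s) * ‖x3 k‖ ^ 2 + ∑ k ∈ G, (1 + sq k) ^ (-s) * ‖x4 k‖ ^ 2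
        + ∑ k ∈ G, (1 + sq k) ^ (-s) * ‖x5 k‖ ^ 2) := by
        rw [← Finset.mul_sum, Finset.sum_add_distrib, Finset.sum_add_distrib,
          Finset.sum_add_distrib, Finset.sum_add_distrib]
    _ ≤ _ := by
        have hX := X2_nonneg S (a t)
        have h2 : 0 ≤ χ' ^ 2 * X2 S (a t) := by positivity
        have h3 : 0 ≤ ∑ k ∈ G, (1 + sq k) ^ (-s) * ‖x3 k‖ ^ 2 :=
          Finset.sum_nonneg fun k _ => mul_nonneg (w_nonneg s k) (sq_nonneg _)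
        have h4 : 0 ≤ ∑ k ∈ G, (1 + sq k) ^ (-s) * ‖x4 k‖ ^ 2 :=
          Finset.sum_nonneg fun k _ => mul_nonneg (w_nonneg s k) (sq_nonneg _)
        have h5 : 0 ≤ ∑ k ∈ G, (1 + sq k) ^ (-s) * ‖x5 k‖ ^ 2 :=
          Finset.sum_nonneg fun k _ => mul_nonneg (w_nonneg s k) (sq_nonneg _)
        linarith

end

/-! ### from finite sums to Sobolev norms -/

theorem frv_enorm (v : V → V) (k : K3) :
    ∑ i, ‖fr (fun x => v x i) k‖ₑ ^ 2 = ENNReal.ofReal (‖frv v k‖ ^ 2) := by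
  rw [EuclideanSpace.norm_sq_eq, ENNReal.ofReal_sum_of_nonneg fun _ _ => sq_nonneg _]
  refine Finset.sum_congr rfl fun i _ => ?_
  rw [ENNReal.ofReal_pow (norm_nonneg _), ofReal_norm]
  rfl

theorem sob_le {s q B : ℝ} (hq : 0 ≤ q) (hB : 0 ≤ B) {v : V → V}
    (h : ∀ G : Finset K3, ∑ k ∈ G, (1 + sq k) ^ (-s) * ‖frv v k‖ ^ 2 ≤ B) :
    sobNorm (-s) v ^ q ≤ ENNReal.ofReal (B ^ (q / 2)) := by
  have h1 : (∑' k : K3, ENNReal.ofReal ((1 + ∑ j, (k j : ℝ) ^ 2) ^ (-s))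
      * ∑ i, ‖fr (fun x => v x i) k‖ₑ ^ 2) ≤ ENNReal.ofReal B := by
    rw [ENNReal.tsum_eq_iSup_sum]
    refine iSup_le fun G => ?_
    have e : ∑ k ∈ G, ENNReal.ofReal ((1 + ∑ j, (k j : ℝ) ^ 2) ^ (-s))
        * ∑ i, ‖fr (fun x => v x i) k‖ₑ ^ 2
        = ENNReal.ofReal (∑ k ∈ G, (1 + sq k) ^ (-s) * ‖frv v k‖ ^ 2) := by
      rw [ENNReal.ofReal_sum_of_nonneg fun k _ => mul_nonneg (w_nonneg s k) (sq_nonneg _)]
      refine Finset.sum_congr rfl fun k _ => ?_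
      rw [frv_enorm, ENNReal.ofReal_mul (w_nonneg s k)]
      rfl
    rw [e]
    exact ENNReal.ofReal_le_ofReal (h G)
  unfold sobNorm
  rw [← ENNReal.rpow_mul, ← ENNReal.ofReal_rpow_of_nonneg hB (by positivity)]
  have e : 1 / 2 * q = q / 2 := by ring
  rw [e]
  exact ENNReal.rpow_le_rpow h1 (by positivity)

theorem pow_sum_le {ι : Type*} (s : Finset ι) (x : ι → ℝ) (hx : ∀ i ∈ s, 0 ≤ x i) {p : ℝ}
    (hp : 0 < p) : (∑ i ∈ s, x i) ^ p ≤ (s.card : ℝ) ^ p * ∑ i ∈ s, x i ^ p := by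
  by_cases hs : s.Nonempty
  · obtain ⟨j, hj, hmax⟩ := s.exists_max_image x hs
    have h1 : ∑ i ∈ s, x i ≤ s.card * x j := by
      have := Finset.sum_le_card_nsmul s x (x j) hmax
      simpa using this
    calc (∑ i ∈ s, x i) ^ p ≤ (s.card * x j) ^ p :=
          Real.rpow_le_rpow (Finset.sum_nonneg hx) h1 hp.le
      _ = (s.card : ℝ) ^ p * x j ^ p := Real.mul_rpow (by positivity) (hx j hj)
      _ ≤ _ := by
          gcongr
          exact Finset.single_le_sum (f := fun i => x i ^ p)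
            (fun i hi => Real.rpow_nonneg (hx i hi) p) hj
  · rw [Finset.not_nonempty_iff_eq_empty] at hs
    subst hs
    simp only [Finset.sum_empty, mul_zero]
    rw [Real.zero_rpow hp.ne']

end Pool.Agent.W785.DF
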