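import Mathlib
import Pool.Agent.W785.DF.Est

/-!
Assembly: a priori estimates with explicit constants.
-/

open MeasureTheory Set
open scoped ContDiff InnerProductSpace

namespace Pool.Agent.W785.DF

open H459R3.NS (V K3)

theorem phi_cont (C η : ℝ) : Continuous fun s : ℝ => C / (1 + |s|) ^ 2 + η := by
  refine (continuous_const.div ((continuous_const.add continuous_abs).pow 2) ?_).add
    continuous_const
  intro x
  have : 0 < 1 + |x| := by have := abs_nonneg x; linarith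
  exact (pow_pos this 2).ne'

theorem phi0_cont (C : ℝ) : Continuous fun s : ℝ => C / (1 + |s|) ^ 2 := by
  simpa using phi_cont C 0

theorem phi_int {C s T : ℝ} (hC : 0 ≤ C) (hs : 0 ≤ s) (hT : s ≤ T) :
    ∫ x in s..T, C / (1 + |x|) ^ 2 ≤ C / (1 + s) := by
  have h1 : ∀ x ∈ uIcc s T, HasDerivAt (fun x : ℝ => -(C / (1 + x))) (C / (1 + |x|) ^ 2) x := by
    intro x hx
    rw [uIcc_of_le hT] at hx
    have hx0 : 0 ≤ x := hs.trans hx.1
    rw [abs_of_nonneg hx0]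
    have h2 : HasDerivAt (fun x : ℝ => 1 + x) 1 x := (hasDerivAt_id x).const_add 1
    have h3 := (h2.inv (by positivity)).const_mul C
    have h4 := h3.neg
    refine (h4.congr_deriv ?_).congr_of_eventuallyEq (Filter.Eventually.of_forall fun y => ?_)
    · ring
    · simp only [Pi.neg_apply, Pi.inv_apply]
      rw [div_eq_mul_inv]
  rw [intervalIntegral.integral_eq_sub_of_hasDerivAt h1 ((phi0_cont C).intervalIntegrable _ _)]
  have : 0 ≤ C / (1 + T) := by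
    have : 0 ≤ 1 + T := by linarith
    positivity
  linarith

theorem phi_sq_int {C η T : ℝ} (hC : 0 ≤ C) (hη : 0 ≤ η) (hη1 : η ≤ 1) (hT : 0 ≤ T)
    (hηT : η * T ≤ 1) : ∫ x in (0 : ℝ)..T, (C / (1 + |x|) ^ 2 + η) ^ 2 ≤ 2 * C ^ 2 + 2 := by
  have h1 : ∀ x ∈ Icc (0 : ℝ) T, (C / (1 + |x|) ^ 2 + η) ^ 2 ≤ 2 * C * (C / (1 + |x|) ^ 2) + 2 * η := by
    intro x _
    have h2 : 1 ≤ (1 + |x|) ^ 2 := by nlinarith [abs_nonneg x]
    have h3 : C / (1 + |x|) ^ 2 ≤ C := div_le_self hC h2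
    have h4 : 0 ≤ C / (1 + |x|) ^ 2 := by positivity
    nlinarith [sq_nonneg (C / (1 + |x|) ^ 2 - η), mul_le_mul_of_nonneg_left h3 h4]
  calc ∫ x in (0 : ℝ)..T, (C / (1 + |x|) ^ 2 + η) ^ 2
      ≤ ∫ x in (0 : ℝ)..T, (2 * C * (C / (1 + |x|) ^ 2) + 2 * η) := by
        refine intervalIntegral.integral_mono_on hT
          ((phi_cont C η).pow 2 |>.intervalIntegrable _ _) ?_ h1
        exact ((continuous_const.mul (phi0_cont C)).add continuous_const).intervalIntegrable _ _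
    _ = 2 * C * (∫ x in (0 : ℝ)..T, C / (1 + |x|) ^ 2) + 2 * (η * T) := by
        have i1 : IntervalIntegrable (fun x : ℝ => 2 * C * (C / (1 + |x|) ^ 2)) volume 0 T :=
          (continuous_const.mul (phi0_cont C)).intervalIntegrable _ _
        rw [intervalIntegral.integral_add i1
          (continuous_const.intervalIntegrable _ _), intervalIntegral.integral_const_mul,
          intervalIntegral.integral_const]
        simp; ring
    _ ≤ _ := by
        have h5 := phi_int hC le_rfl hT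
        rw [add_zero, div_one] at h5
        have := mul_le_mul_of_nonneg_left h5 (by positivity : 0 ≤ 2 * C)
        nlinarith

theorem phi_int' {C η s T : ℝ} (hC : 0 ≤ C) (hη : 0 ≤ η) (hs : 0 ≤ s) (hT : s ≤ T) :
    ∫ x in s..T, (C / (1 + |x|) ^ 2 + η) ≤ C / (1 + s) + η * T := by
  rw [intervalIntegral.integral_add ((phi0_cont C).intervalIntegrable _ _)
    (continuous_const.intervalIntegrable _ _), intervalIntegral.integral_const]
  have := phi_int hC hs hT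
  simp only [smul_eq_mul]
  nlinarith

/-- the constant in the bound for the enstrophy -/
noncomputable def AA (ν A0 Cf CE R : ℝ) : ℝ :=
  A0 + CE * ((1 / ν ^ 4 + 1) * R ^ 2 + (2 * Cf ^ 2 + 2) / ν)

theorem AA_pos {ν A0 Cf CE R : ℝ} (hν : 0 < ν) (hA : 0 < A0) (hCE : 0 < CE) :
    0 < AA ν A0 Cf CE R := by unfold AA; positivity

/-- The body of `S_est`. -/
def EstBody (C : ℝ) : Prop := ∀ (S : Finset K3), Fr S → ∀ (ν h R T : ℝ), 0 < ν → 1 ≤ h →
  0 < R → 0 < T → ∀ mm : ℝ → E3, (∀ t, cj (mm t) = mm t) → ∀ (ψ : ℝ → K3 → E3) (a0 : K3 → E3)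
  (a : ℝ → K3 → E3), Gal S ν (vs h R) T mm ψ a0 a → ∀ φ : ℝ → ℝ, Continuous φ → (∀ t, 0 ≤ φ t) →
  (∀ t ∈ Icc 0 T, ∑ k ∈ S, ‖ψ t k‖ ^ 2 ≤ φ t ^ 2) →
  Real.sqrt (X2 S a0) + ∫ s in (0 : ℝ)..T, φ s ≤ R →
  (∀ t ∈ Icc 0 T, Real.sqrt (X2 S (a t)) ≤ Real.exp (-(4 * Real.pi ^ 2 * ν * t))
      * Real.sqrt (X2 S a0) + ∫ s in (0 : ℝ)..t, Real.exp (-(4 * Real.pi ^ 2 * ν * (t - s))) * φ s) ∧
  (∀ t ∈ Icc 0 T, 3 * Real.pi ^ 2 * (∫ s in t..T, (ν + mh h (Y2 S (a s))) * Y2 S (a s))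
      ≤ (Real.sqrt (X2 S (a t)) + ∫ s in t..T, φ s) ^ 2) ∧
  ∀ t ∈ Icc 0 T, Real.log (1 + Y2 S (a t)) + 4 * Real.pi ^ 2 * (∫ s in (0 : ℝ)..t,
      (ν + mh h (Y2 S (a s))) * D2 S (a s) / (1 + Y2 S (a s)))
    ≤ Real.log (1 + Y2 S a0) + C * (h * (1 / ν ^ 4 + 1) * R ^ 2
      + (∫ s in (0 : ℝ)..T, φ s ^ 2) / ν)

section

variable {ν h R T A0 Cf CE η : ℝ} {S : Finset K3} {mm : ℝ → E3} {ψ : ℝ → K3 → E3}
  {a0 : K3 → E3} {a : ℝ → K3 → E3}

theorem Gal.use (hest : EstBody CE) (hCE : 0 < CE) (hS : Fr S) (hν : 0 < ν) (hh : 1 ≤ h)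
    (hA0 : 0 < A0) (hCf : 0 < Cf) (hη : 0 < η) (hη1 : η ≤ 1) (hT : 0 < T) (hηT : η * T ≤ 1)
    (hmm : ∀ t, cj (mm t) = mm t) (hX : X2 S a0 ≤ A0) (hY : Y2 S a0 ≤ A0)
    (hR : R = Real.sqrt A0 + Cf + 1) (G : Gal S ν (vs h R) T mm ψ a0 a)
    (hψ : ∀ t ∈ Icc 0 T, ∑ k ∈ S, ‖ψ t k‖ ^ 2 ≤ (Cf / (1 + |t|) ^ 2 + η) ^ 2) :
    (∀ t ∈ Icc 0 T, Real.sqrt (X2 S (a t)) ≤ R) ∧
    (∀ t ∈ Icc 0 T, Real.sqrt (X2 S (a t)) ≤ Real.exp (-(4 * Real.pi ^ 2 * ν * t)) * Real.sqrt A0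
      + (∫ s in (0 : ℝ)..t, Real.exp (-(4 * Real.pi ^ 2 * ν * (t - s))) * (Cf / (1 + s) ^ 2))
      + η * T) ∧
    (∀ t ∈ Icc 0 T, 3 * Real.pi ^ 2 * (∫ s in t..T, (ν + mh h (Y2 S (a s))) * Y2 S (a s))
      ≤ (Real.sqrt (X2 S (a t)) + (Cf / (1 + t) + η * T)) ^ 2) ∧
    (∀ t ∈ Icc 0 T, Y2 S (a t) ≤ Real.exp (AA ν A0 Cf CE R * h)) ∧
    ∀ t ∈ Icc 0 T, 4 * Real.pi ^ 2 * (∫ s in (0 : ℝ)..t,
      (ν + mh h (Y2 S (a s))) * D2 S (a s) / (1 + Y2 S (a s))) ≤ AA ν A0 Cf CE R * h := by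
  have hR0 : 0 < R := by rw [hR]; positivity
  set φ : ℝ → ℝ := fun s => Cf / (1 + |s|) ^ 2 + η with hφ
  have hφc : Continuous φ := phi_cont Cf η
  have hφ0 : ∀ t, 0 ≤ φ t := fun t => by rw [hφ]; positivity
  have hsX : Real.sqrt (X2 S a0) ≤ Real.sqrt A0 := Real.sqrt_le_sqrt hX
  have hint : ∫ s in (0 : ℝ)..T, φ s ≤ Cf + 1 := by
    have := phi_int' hCf.le hη.le le_rfl hT.le
    rw [add_zero, div_one] at this
    exact this.trans (by linarith)
  have hXR : Real.sqrt (X2 S a0) + ∫ s in (0 : ℝ)..T, φ s ≤ R := by rw [hR]; linarith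
  obtain ⟨h1, h2, h3⟩ := hest S hS ν h R T hν hh hR0 hT mm hmm ψ a0 a G φ hφc hφ0 hψ hXR
  have hexp : ∀ t ∈ Icc 0 T, ∀ s ∈ Icc 0 t, Real.exp (-(4 * Real.pi ^ 2 * ν * (t - s))) ≤ 1 := by
    intro t _ s hs
    rw [Real.exp_le_one_iff]
    have : 0 ≤ 4 * Real.pi ^ 2 * ν * (t - s) := by
      have := sub_nonneg.mpr hs.2
      positivity
    linarith
  have hec : ∀ t : ℝ, Continuous fun s : ℝ => Real.exp (-(4 * Real.pi ^ 2 * ν * (t - s))) :=
    fun t => by fun_prop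
  refine ⟨fun t ht => ?_, fun t ht => ?_, fun t ht => ?_, ?_⟩
  · refine (h1 t ht).trans (le_trans ?_ hXR)
    have e1 : Real.exp (-(4 * Real.pi ^ 2 * ν * t)) ≤ 1 := by
      have := hexp t ht 0 ⟨le_rfl, ht.1⟩
      rwa [sub_zero] at this
    have e2 : ∫ s in (0 : ℝ)..t, Real.exp (-(4 * Real.pi ^ 2 * ν * (t - s))) * φ s
        ≤ ∫ s in (0 : ℝ)..t, φ s := by
      refine intervalIntegral.integral_mono_on ht.1 (((hec t).mul hφc).intervalIntegrable _ _)
        (hφc.intervalIntegrable _ _) fun s hs => ?_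
      exact mul_le_of_le_one_left (hφ0 s) (hexp t ht s hs)
    have e3 : ∫ s in (0 : ℝ)..t, φ s ≤ ∫ s in (0 : ℝ)..T, φ s := by
      rw [← intervalIntegral.integral_add_adjacent_intervals (b := t)
        (hφc.intervalIntegrable 0 t) (hφc.intervalIntegrable t T)]
      have : 0 ≤ ∫ s in t..T, φ s := intervalIntegral.integral_nonneg ht.2 fun s _ => hφ0 s
      linarith
    have e4 : Real.exp (-(4 * Real.pi ^ 2 * ν * t)) * Real.sqrt (X2 S a0) ≤ Real.sqrt (X2 S a0) :=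
      mul_le_of_le_one_left (Real.sqrt_nonneg _) e1
    linarith
  · refine (h1 t ht).trans ?_
    have e1 : Real.exp (-(4 * Real.pi ^ 2 * ν * t)) * Real.sqrt (X2 S a0)
        ≤ Real.exp (-(4 * Real.pi ^ 2 * ν * t)) * Real.sqrt A0 := by gcongr
    have e2 : ∫ s in (0 : ℝ)..t, Real.exp (-(4 * Real.pi ^ 2 * ν * (t - s))) * φ s
        ≤ (∫ s in (0 : ℝ)..t, Real.exp (-(4 * Real.pi ^ 2 * ν * (t - s))) * (Cf / (1 + s) ^ 2))
          + η * T := by
      have e3 : ∫ s in (0 : ℝ)..t, Real.exp (-(4 * Real.pi ^ 2 * ν * (t - s))) * φ s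
          = (∫ s in (0 : ℝ)..t, Real.exp (-(4 * Real.pi ^ 2 * ν * (t - s)))
              * (Cf / (1 + |s|) ^ 2))
            + ∫ s in (0 : ℝ)..t, Real.exp (-(4 * Real.pi ^ 2 * ν * (t - s))) * η := by
        have i1 : IntervalIntegrable (fun s : ℝ => Real.exp (-(4 * Real.pi ^ 2 * ν * (t - s)))
            * (Cf / (1 + |s|) ^ 2)) volume 0 t :=
          ((hec t).mul (phi0_cont Cf)).intervalIntegrable _ _
        have i2 : IntervalIntegrable (fun s : ℝ => Real.exp (-(4 * Real.pi ^ 2 * ν * (t - s)))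
            * η) volume 0 t :=
          ((hec t).mul continuous_const).intervalIntegrable _ _
        rw [← intervalIntegral.integral_add i1 i2]
        refine intervalIntegral.integral_congr fun s _ => ?_
        rw [hφ]; ring
      have e4 : ∫ s in (0 : ℝ)..t, Real.exp (-(4 * Real.pi ^ 2 * ν * (t - s)))
              * (Cf / (1 + |s|) ^ 2)
          = ∫ s in (0 : ℝ)..t, Real.exp (-(4 * Real.pi ^ 2 * ν * (t - s)))
              * (Cf / (1 + s) ^ 2) := by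
        refine intervalIntegral.integral_congr fun s hs => ?_
        rw [uIcc_of_le ht.1] at hs
        beta_reduce
        rw [abs_of_nonneg hs.1]
      have e5 : ∫ s in (0 : ℝ)..t, Real.exp (-(4 * Real.pi ^ 2 * ν * (t - s))) * η ≤ η * T := by
        calc ∫ s in (0 : ℝ)..t, Real.exp (-(4 * Real.pi ^ 2 * ν * (t - s))) * η
            ≤ ∫ s in (0 : ℝ)..t, η := by
              refine intervalIntegral.integral_mono_on ht.1
                (((hec t).mul continuous_const).intervalIntegrable _ _)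
                (continuous_const.intervalIntegrable _ _) fun s hs => ?_
              exact mul_le_of_le_one_left hη.le (hexp t ht s hs)
          _ = t * η := by rw [intervalIntegral.integral_const]; simp
          _ ≤ η * T := by nlinarith [ht.2]
      rw [e3, e4]
      linarith
    linarith
  · refine (h2 t ht).trans ?_
    have e1 := phi_int' hCf.le hη.le ht.1 ht.2
    have e2 : 0 ≤ ∫ s in t..T, φ s := intervalIntegral.integral_nonneg ht.2 fun s _ => hφ0 s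
    have e3 := Real.sqrt_nonneg (X2 S (a t))
    gcongr
  · have key : Real.log (1 + Y2 S a0) + CE * (h * (1 / ν ^ 4 + 1) * R ^ 2
        + (∫ s in (0 : ℝ)..T, φ s ^ 2) / ν) ≤ AA ν A0 Cf CE R * h := by
      have e1 : Real.log (1 + Y2 S a0) ≤ A0 := by
        have h0 := Y2_nonneg S a0
        have := Real.log_le_sub_one_of_pos (by linarith : 0 < 1 + Y2 S a0)
        linarith
      have e2 : (∫ s in (0 : ℝ)..T, φ s ^ 2) / ν ≤ (2 * Cf ^ 2 + 2) / ν := by
        have := phi_sq_int hCf.le hη.le hη1 hT.le hηT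
        gcongr
      have e3 : A0 ≤ A0 * h := by nlinarith
      have e4 : (2 * Cf ^ 2 + 2) / ν ≤ (2 * Cf ^ 2 + 2) / ν * h := by
        have : 0 ≤ (2 * Cf ^ 2 + 2) / ν := by positivity
        nlinarith
      unfold AA
      have e5 : CE * (h * (1 / ν ^ 4 + 1) * R ^ 2 + (∫ s in (0 : ℝ)..T, φ s ^ 2) / ν)
          ≤ CE * (((1 / ν ^ 4 + 1) * R ^ 2 + (2 * Cf ^ 2 + 2) / ν) * h) := by
        refine mul_le_mul_of_nonneg_left ?_ hCE.le
        linarith
      linarith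
    have hint0 : ∀ t ∈ Icc 0 T, 0 ≤ ∫ s in (0 : ℝ)..t,
        (ν + mh h (Y2 S (a s))) * D2 S (a s) / (1 + Y2 S (a s)) := by
      intro t ht
      refine intervalIntegral.integral_nonneg ht.1 fun s _ => ?_
      have e1 := Y2_nonneg S (a s)
      have e2 := D2_nonneg S (a s)
      have e3 := mh_nonneg (by linarith : 0 < h) e1
      positivity
    refine ⟨fun t ht => ?_, fun t ht => ?_⟩
    · have e1 := h3 t ht
      have e2 := hint0 t ht
      have e3 : Real.log (1 + Y2 S (a t)) ≤ AA ν A0 Cf CE R * h := by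
        have : 0 ≤ 4 * Real.pi ^ 2 * (∫ s in (0 : ℝ)..t,
          (ν + mh h (Y2 S (a s))) * D2 S (a s) / (1 + Y2 S (a s))) := by positivity
        linarith
      have e4 : 0 < 1 + Y2 S (a t) := by have := Y2_nonneg S (a t); linarith
      have e5 := (Real.log_le_iff_le_exp e4).mp e3
      linarith
    · have e1 := h3 t ht
      have e4 : 0 ≤ Real.log (1 + Y2 S (a t)) := by
        refine Real.log_nonneg ?_
        have := Y2_nonneg S (a t); linarith
      linarith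

end

end Pool.Agent.W785.DF
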