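import Mathlib
import Pool.Agent.W785.DF.Rec3

/-!
Assembly: choice of the parameters, mean flow.
-/

open MeasureTheory Set Filter
open scoped ContDiff InnerProductSpace ENNReal Topology

namespace Pool.Agent.W785.DF

open H459R3.NS (V K3 Per pd fr ee cube SP)

theorem choose_h {α : Type*} (P : Finset α) (K δ : α → ℝ) (hδ : ∀ p ∈ P, 0 < δ p) {ε : ℝ}
    (hε : 0 < ε) : ∃ h : ℝ, 1 ≤ h ∧ ∀ p ∈ P, K p * h ^ (-δ p) ≤ ε := by
  have h1 : ∀ᶠ h : ℝ in atTop, ∀ p ∈ P, K p * h ^ (-δ p) ≤ ε := by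
    rw [Filter.eventually_all_finset]
    intro p hp
    have h2 : Tendsto (fun h : ℝ => K p * h ^ (-δ p)) atTop (𝓝 (K p * 0)) :=
      (tendsto_rpow_neg_atTop (hδ p hp)).const_mul _
    rw [mul_zero] at h2
    exact (h2.eventually_lt_const hε).mono fun _ h => h.le
  obtain ⟨h, h2, h3⟩ := (h1.and (eventually_ge_atTop 1)).exists
  exact ⟨h, h3, h2⟩

theorem choose_e {α : Type*} (P : Finset α) (K : α → ℝ) {ε : ℝ} (hε : 0 < ε) :
    ∃ e : ℝ, 0 < e ∧ e ≤ 1 ∧ ∀ p ∈ P, K p * e ≤ ε := by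
  set Q : ℝ := 1 + ∑ p ∈ P, |K p| with hQ
  have hQ0 : 0 < Q := by
    have : 0 ≤ ∑ p ∈ P, |K p| := Finset.sum_nonneg fun _ _ => abs_nonneg _
    linarith
  have he : 0 < min 1 (ε / Q) := lt_min one_pos (by positivity)
  refine ⟨min 1 (ε / Q), he, min_le_left _ _, fun p hp => ?_⟩
  have h1 : K p ≤ Q := by
    have := Finset.single_le_sum (f := fun p => |K p|) (fun _ _ => abs_nonneg _) hp
    beta_reduce at this
    have := le_abs_self (K p)
    linarith
  calc K p * min 1 (ε / Q) ≤ Q * (ε / Q) := by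
        refine mul_le_mul h1 (min_le_right _ _) he.le hQ0.le
    _ = ε := by field_simp

theorem lam_small {γ lam : ℝ} (hγ : 0 < γ) (hlam : 0 < lam) :
    ∃ S0 : Finset K3, ∀ k, k ∉ S0 → (1 + sq k) ^ (-γ) ≤ lam := by
  have h1 : ∀ᶠ n : ℕ in atTop, ((n : ℝ)) ^ (-γ) < lam := by
    have := (tendsto_rpow_neg_atTop hγ).comp tendsto_natCast_atTop_atTop
    exact this.eventually_lt_const hlam
  obtain ⟨n, hn, hn1⟩ := (h1.and (eventually_ge_atTop 1)).exists
  refine ⟨Finset.Icc (fun _ => -(n : ℤ)) (fun _ => (n : ℤ)), fun k hk => ?_⟩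
  have hn1' : (1 : ℝ) ≤ n := by exact_mod_cast hn1
  have h2 : (n : ℝ) ≤ sq k := by
    rw [Finset.mem_Icc, Pi.le_def, Pi.le_def] at hk
    have h3 : ∃ j, ¬ (-(n : ℤ) ≤ k j ∧ k j ≤ n) := by
      by_contra hcon
      push Not at hcon
      exact hk ⟨fun j => (hcon j).1, fun j => (hcon j).2⟩
    obtain ⟨j, hj⟩ := h3
    have h4 : (n : ℤ) ≤ |k j| := by
      rw [not_and_or, not_le, not_le] at hj
      rcases hj with h | h
      · have := neg_le_abs (k j); omega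
      · have := le_abs_self (k j); omega
    have h5 : (n : ℝ) ≤ |(k j : ℝ)| := by exact_mod_cast h4
    have h6 : (n : ℝ) ≤ (k j : ℝ) ^ 2 := by
      rw [← sq_abs]; nlinarith
    exact h6.trans (Finset.single_le_sum (f := fun j => (k j : ℝ) ^ 2) (fun i _ => sq_nonneg _)
      (Finset.mem_univ j))
  have h7 : (1 + sq k) ^ (-γ) ≤ (n : ℝ) ^ (-γ) :=
    Real.rpow_le_rpow_of_nonpos (by linarith) (by linarith) (by linarith)
  linarith

theorem exists_S (U : Finset K3) : ∃ S : Finset K3, Fr S ∧ U ⊆ insert 0 S := by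
  classical
  refine ⟨(U ∪ U.image fun k => -k).erase 0, ⟨Finset.notMem_erase _ _, fun k hk => ?_⟩,
    fun k hk => ?_⟩
  · rw [Finset.mem_erase, Finset.mem_union, Finset.mem_image] at hk ⊢
    refine ⟨neg_ne_zero.mpr hk.1, ?_⟩
    rcases hk.2 with h | ⟨l, hl, rfl⟩
    · exact Or.inr ⟨k, h, rfl⟩
    · exact Or.inl (by rwa [neg_neg])
  · by_cases h : k = 0
    · rw [h]; exact Finset.mem_insert_self _ _
    · exact Finset.mem_insert_of_mem (Finset.mem_erase.mpr ⟨h, Finset.mem_union_left _ hk⟩)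

theorem cut_deriv_bound : ∃ C : ℝ, 0 < C ∧ ∀ t, |deriv cut t| ≤ C := by
  have hc : Continuous (deriv cut) := cut_contDiff.continuous_deriv (by simp)
  have hd1 : ∀ t, t ∉ Icc (0 : ℝ) 1 → deriv cut t = 0 := by
    intro t ht
    rw [mem_Icc, not_and_or, not_le, not_le] at ht
    rcases ht with h | h
    · have : cut =ᶠ[𝓝 t] fun _ => 1 := by
        filter_upwards [Iio_mem_nhds h] with s hs
        exact cut_one (le_of_lt hs)
      rw [this.deriv_eq]; simp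
    · have : cut =ᶠ[𝓝 t] fun _ => 0 := by
        filter_upwards [Ioi_mem_nhds h] with s hs
        exact cut_zero (le_of_lt hs)
      rw [this.deriv_eq]; simp
  obtain ⟨C, hC⟩ := (isCompact_Icc (a := (0 : ℝ)) (b := 1)).exists_bound_of_continuousOn
    hc.continuousOn
  refine ⟨max C 1, by positivity, fun t => ?_⟩
  by_cases ht : t ∈ Icc (0 : ℝ) 1
  · have := hC t ht
    rw [Real.norm_eq_abs] at this
    exact this.trans (le_max_left _ _)
  · rw [hd1 t ht, abs_zero]; positivity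

theorem deriv_cut_sub (T0 t : ℝ) : deriv (fun s => cut (s - T0)) t = deriv cut (t - T0) :=
  deriv_comp_sub_const _ _ _

theorem deriv_cut_early {t : ℝ} (ht : t < 0) : deriv cut t = 0 := by
  have : cut =ᶠ[𝓝 t] fun _ => 1 := by
    filter_upwards [Iio_mem_nhds ht] with s hs
    exact cut_one (le_of_lt hs)
  rw [this.deriv_eq]; simp

/-- Minkowski's inequality -/
theorem mink (G : Finset K3) (x y : K3 → E3) {A B : ℝ} (hA : 0 ≤ A) (hB : 0 ≤ B)
    (hx : ∑ k ∈ G, ‖x k‖ ^ 2 ≤ A ^ 2) (hy : ∑ k ∈ G, ‖y k‖ ^ 2 ≤ B ^ 2) :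
    ∑ k ∈ G, ‖x k + y k‖ ^ 2 ≤ (A + B) ^ 2 := by
  have h1 : (∑ k ∈ G, ‖x k‖ * ‖y k‖) ^ 2 ≤ (A * B) ^ 2 := by
    refine (Finset.sum_mul_sq_le_sq_mul_sq G _ _).trans ?_
    rw [mul_pow]
    gcongr
  have h2 : ∑ k ∈ G, ‖x k‖ * ‖y k‖ ≤ A * B :=
    (abs_le_of_sq_le_sq' h1 (by positivity)).2
  calc ∑ k ∈ G, ‖x k + y k‖ ^ 2
      ≤ ∑ k ∈ G, (‖x k‖ ^ 2 + 2 * (‖x k‖ * ‖y k‖) + ‖y k‖ ^ 2) := by
        refine Finset.sum_le_sum fun k _ => ?_
        have := norm_add_le (x k) (y k)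
        have h0 := norm_nonneg (x k + y k)
        nlinarith
    _ = ∑ k ∈ G, ‖x k‖ ^ 2 + 2 * ∑ k ∈ G, ‖x k‖ * ‖y k‖ + ∑ k ∈ G, ‖y k‖ ^ 2 := by
        rw [Finset.sum_add_distrib, Finset.sum_add_distrib, Finset.mul_sum]
    _ ≤ _ := by nlinarith

/-- conjugation as a continuous linear map -/
noncomputable def cjL : E3 →L[ℝ] E3 :=
  LinearMap.mkContinuous { toFun := cj, map_add' := cj_add, map_smul' := cj_rsmul } 1
    (fun v => by rw [one_mul]; exact (norm_cj v).le)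

theorem cjL_apply (v : E3) : cjL v = cj v := rfl

/-- the mean flow -/
theorem mean {T0 : ℝ} {ψ0 : ℝ → E3} (hψ : ContDiff ℝ ∞ ψ0) (hr : ∀ t, cj (ψ0 t) = ψ0 t)
    {v : E3} (hv : cj v = v) : ∃ mm : ℝ → E3, ContDiff ℝ ∞ mm ∧ (∀ t, cj (mm t) = mm t) ∧
    mm 0 = v ∧ (∀ t, HasDerivAt mm (cut (t - T0) • ψ0 t) t) ∧
    ∀ t, mm t = v + ∫ s in (0 : ℝ)..t, cut (s - T0) • ψ0 s := by
  have hs : ContDiff ℝ ∞ (fun s => cut (s - T0) • ψ0 s) :=
    (cut_contDiff.comp (contDiff_id.sub contDiff_const)).smul hψ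
  have hc : Continuous (fun s => cut (s - T0) • ψ0 s) := hs.continuous
  set mm : ℝ → E3 := fun t => v + ∫ s in (0 : ℝ)..t, cut (s - T0) • ψ0 s with hmm
  have hd : ∀ t, HasDerivAt mm (cut (t - T0) • ψ0 t) t := by
    intro t
    exact (intervalIntegral.integral_hasDerivAt_right (hc.intervalIntegrable _ _)
      hc.aestronglyMeasurable.stronglyMeasurableAtFilter hc.continuousAt).const_add v
  refine ⟨mm, ?_, fun t => ?_, ?_, hd, fun t => rfl⟩
  · rw [contDiff_infty_iff_deriv]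
    refine ⟨fun t => (hd t).differentiableAt, ?_⟩
    have : deriv mm = fun s => cut (s - T0) • ψ0 s := funext fun t => (hd t).deriv
    rw [this]
    exact hs
  · rw [hmm]
    beta_reduce
    rw [cj_add, hv]
    congr 1
    rw [← cjL_apply, ← ContinuousLinearMap.intervalIntegral_comp_comm cjL
      (hc.intervalIntegrable _ _)]
    refine intervalIntegral.integral_congr fun s _ => ?_
    beta_reduce
    rw [cjL_apply, cj_rsmul, hr]
  · rw [hmm]; simp

end Pool.Agent.W785.DF
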