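import Mathlib

/-!
Assembly: integration in time.
-/

open MeasureTheory Set Filter
open scoped ENNReal Topology

namespace Pool.Agent.W785.DF

theorem lint_Ioc {F : ℝ → ℝ} {a b : ℝ} (hab : a ≤ b) (hF : ContinuousOn F (Icc a b))
    (h0 : ∀ t ∈ Icc a b, 0 ≤ F t) :
    ∫⁻ t in Ioc a b, ENNReal.ofReal (F t) = ENNReal.ofReal (∫ t in a..b, F t) := by
  rw [intervalIntegral.integral_of_le hab, ← ofReal_integral_eq_lintegral_ofReal]
  · exact (hF.integrableOn_compact isCompact_Icc).mono_set Ioc_subset_Icc_self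
  · refine (ae_restrict_iff' measurableSet_Ioc).mpr (Eventually.of_forall fun t ht => ?_)
    exact h0 t (Ioc_subset_Icc_self ht)

theorem lint_tail {C T : ℝ} (hC : 0 ≤ C) (hT : 0 ≤ T) :
    ∫⁻ t in Ioi T, ENNReal.ofReal (C / (1 + t) ^ 2) ≤ ENNReal.ofReal (C / (1 + T)) := by
  have hd : ∀ x ∈ Ici T, HasDerivAt (fun x : ℝ => -(C / (1 + x))) (C / (1 + x) ^ 2) x := by
    intro x hx
    have hx0 : 0 < 1 + x := by have : T ≤ x := hx; linarith
    have h2 : HasDerivAt (fun x : ℝ => 1 + x) 1 x := (hasDerivAt_id x).const_add 1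
    have h3 := ((h2.inv hx0.ne').const_mul C).neg
    refine (h3.congr_deriv ?_).congr_of_eventuallyEq (Eventually.of_forall fun y => ?_)
    · ring
    · simp only [Pi.neg_apply, Pi.inv_apply]
      rw [div_eq_mul_inv]
  have hlim : Tendsto (fun x : ℝ => -(C / (1 + x))) atTop (𝓝 0) := by
    have h1 : Tendsto (fun x : ℝ => 1 + x) atTop atTop := tendsto_atTop_add_const_left _ _ tendsto_id
    have := (tendsto_const_nhds (x := C)).div_atTop h1
    simpa using this.neg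
  have hpos : ∀ x ∈ Ioi T, 0 ≤ C / (1 + x) ^ 2 := by
    intro x hx
    positivity
  have hint := integrableOn_Ioi_deriv_of_nonneg' hd hpos hlim
  have hval := integral_Ioi_of_hasDerivAt_of_nonneg' hd hpos hlim
  rw [← ofReal_integral_eq_lintegral_ofReal hint
    ((ae_restrict_iff' measurableSet_Ioi).mpr (Eventually.of_forall hpos)), hval]
  refine ENNReal.ofReal_le_ofReal ?_
  simp

theorem int_split {G : ℝ → ℝ≥0∞} {T0 α β γ κ C : ℝ} {F Y : ℝ → ℝ} (hT0 : 0 ≤ T0)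
    (hα : 0 ≤ α) (hβ : 0 ≤ β) (hγ : 0 ≤ γ) (hκ : 0 ≤ κ) (hC : 0 ≤ C)
    (hF : ContinuousOn F (Icc 0 (T0 + 1))) (hF0 : ∀ t ∈ Icc 0 (T0 + 1), 0 ≤ F t)
    (hY : ContinuousOn Y (Icc 0 (T0 + 1))) (hY0 : ∀ t ∈ Icc 0 (T0 + 1), 0 ≤ Y t)
    (h1 : ∀ t ∈ Ioc 0 T0, G t ≤ ENNReal.ofReal (α + β * F t))
    (h2 : ∀ t ∈ Ioc T0 (T0 + 1), G t ≤ ENNReal.ofReal (α + β * F t + (γ + κ * Y t)))
    (h3 : ∀ t ∈ Ioi (T0 + 1), G t ≤ ENNReal.ofReal (C / (1 + t) ^ 2)) :
    ∫⁻ t in Ioi 0, G t ≤ ENNReal.ofReal (α * (T0 + 1) + β * (∫ t in (0 : ℝ)..(T0 + 1), F t)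
      + (γ + κ * ∫ t in T0..(T0 + 1), Y t) + C / (1 + (T0 + 1))) := by
  have e : Ioi (0 : ℝ) ⊆ Ioc 0 T0 ∪ (Ioc T0 (T0 + 1) ∪ Ioi (T0 + 1)) := by
    intro t ht
    by_cases h : t ≤ T0
    · exact Or.inl ⟨ht, h⟩
    · by_cases h' : t ≤ T0 + 1
      · exact Or.inr (Or.inl ⟨not_le.mp h, h'⟩)
      · exact Or.inr (Or.inr (not_le.mp h'))
  have s1 : Icc 0 T0 ⊆ Icc 0 (T0 + 1) := Icc_subset_Icc_right (by linarith)
  have s2 : Icc T0 (T0 + 1) ⊆ Icc 0 (T0 + 1) := Icc_subset_Icc_left hT0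
  have c1 : ContinuousOn (fun t => α + β * F t) (Icc 0 (T0 + 1)) :=
    continuousOn_const.add (continuousOn_const.mul hF)
  have c2 : ContinuousOn (fun t => γ + κ * Y t) (Icc 0 (T0 + 1)) :=
    continuousOn_const.add (continuousOn_const.mul hY)
  have n1 : ∀ t ∈ Icc 0 (T0 + 1), 0 ≤ α + β * F t := fun t ht => by
    have := hF0 t ht; positivity
  have n2 : ∀ t ∈ Icc 0 (T0 + 1), 0 ≤ γ + κ * Y t := fun t ht => by
    have := hY0 t ht; positivity
  have i1 : IntervalIntegrable (fun t => α + β * F t) volume 0 T0 :=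
    (c1.mono s1).intervalIntegrable_of_Icc hT0
  have i2 : IntervalIntegrable (fun t => α + β * F t) volume T0 (T0 + 1) :=
    (c1.mono s2).intervalIntegrable_of_Icc (by linarith)
  have i3 : IntervalIntegrable (fun t => γ + κ * Y t) volume T0 (T0 + 1) :=
    (c2.mono s2).intervalIntegrable_of_Icc (by linarith)
  have iF : IntervalIntegrable F volume 0 (T0 + 1) := hF.intervalIntegrable_of_Icc (by linarith)
  have iY : IntervalIntegrable Y volume T0 (T0 + 1) :=
    (hY.mono s2).intervalIntegrable_of_Icc (by linarith)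
  have a1 : ∫⁻ t in Ioc 0 T0, G t ≤ ENNReal.ofReal (∫ t in (0 : ℝ)..T0, (α + β * F t)) := by
    rw [← lint_Ioc hT0 (c1.mono s1) fun t ht => n1 t (s1 ht)]
    exact setLIntegral_mono' measurableSet_Ioc h1
  have a2 : ∫⁻ t in Ioc T0 (T0 + 1), G t
      ≤ ENNReal.ofReal (∫ t in T0..(T0 + 1), (α + β * F t + (γ + κ * Y t))) := by
    have c3 : ContinuousOn (fun t => α + β * F t + (γ + κ * Y t)) (Icc T0 (T0 + 1)) :=
      (c1.add c2).mono s2
    rw [← lint_Ioc (by linarith) c3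
      fun t ht => add_nonneg (n1 t (s2 ht)) (n2 t (s2 ht))]
    exact setLIntegral_mono' measurableSet_Ioc h2
  have a3 : ∫⁻ t in Ioi (T0 + 1), G t ≤ ENNReal.ofReal (C / (1 + (T0 + 1))) :=
    (setLIntegral_mono' measurableSet_Ioi h3).trans (lint_tail hC (by linarith))
  have p1 : 0 ≤ ∫ t in (0 : ℝ)..T0, (α + β * F t) :=
    intervalIntegral.integral_nonneg hT0 fun t ht => n1 t (s1 ht)
  have p2 : 0 ≤ ∫ t in T0..(T0 + 1), (α + β * F t + (γ + κ * Y t)) :=
    intervalIntegral.integral_nonneg (by linarith)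
      fun t ht => add_nonneg (n1 t (s2 ht)) (n2 t (s2 ht))
  have p3 : 0 ≤ C / (1 + (T0 + 1)) := by positivity
  calc ∫⁻ t in Ioi 0, G t ≤ ∫⁻ t in Ioc 0 T0 ∪ (Ioc T0 (T0 + 1) ∪ Ioi (T0 + 1)), G t :=
        lintegral_mono_set e
    _ ≤ (∫⁻ t in Ioc 0 T0, G t) + ∫⁻ t in Ioc T0 (T0 + 1) ∪ Ioi (T0 + 1), G t :=
        lintegral_union_le _ _ _
    _ ≤ (∫⁻ t in Ioc 0 T0, G t)
        + ((∫⁻ t in Ioc T0 (T0 + 1), G t) + ∫⁻ t in Ioi (T0 + 1), G t) :=
        add_le_add le_rfl (lintegral_union_le _ _ _)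
    _ ≤ ENNReal.ofReal (∫ t in (0 : ℝ)..T0, (α + β * F t))
        + (ENNReal.ofReal (∫ t in T0..(T0 + 1), (α + β * F t + (γ + κ * Y t)))
          + ENNReal.ofReal (C / (1 + (T0 + 1)))) := add_le_add a1 (add_le_add a2 a3)
    _ = ENNReal.ofReal ((∫ t in (0 : ℝ)..T0, (α + β * F t))
        + ((∫ t in T0..(T0 + 1), (α + β * F t + (γ + κ * Y t))) + C / (1 + (T0 + 1)))) := by
        rw [ENNReal.ofReal_add p1 (by positivity), ENNReal.ofReal_add p2 p3]
    _ = _ := by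
        congr 1
        rw [intervalIntegral.integral_add i2 i3, ← add_assoc, ← add_assoc,
          intervalIntegral.integral_add_adjacent_intervals i1 i2,
          intervalIntegral.integral_add (continuous_const.intervalIntegrable _ _)
            (iF.const_mul β), intervalIntegral.integral_add (continuous_const.intervalIntegrable _ _)
            (iY.const_mul κ), intervalIntegral.integral_const_mul,
          intervalIntegral.integral_const_mul, intervalIntegral.integral_const,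
          intervalIntegral.integral_const]
        simp
        ring

end Pool.Agent.W785.DF
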