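import Mathlib
import Pool.Agent.W785.DF.Asm1
import Pool.Agent.W785.DF.Asm3

/-!
Assembly: pointwise estimates of powers.
-/

open MeasureTheory Set Filter
open scoped ContDiff InnerProductSpace ENNReal Topology

namespace Pool.Agent.W785.DF

open H459R3.NS (V K3 Per pd fr ee cube SP)

theorem deriv_cut_early' {t : ℝ} (ht : t ≤ 0) : deriv cut t = 0 := by
  have hc : Continuous (deriv cut) := cut_contDiff.continuous_deriv (by simp)
  have h1 : closure (Iio (0 : ℝ)) ⊆ {t | deriv cut t = 0} := by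
    refine closure_minimal (fun s hs => deriv_cut_early hs) ?_
    exact isClosed_eq hc continuous_const
  rw [closure_Iio] at h1
  exact h1 ht

theorem sqpow {x q : ℝ} (hx : 0 ≤ x) : (x ^ 2) ^ (q / 2) = x ^ q := by
  rw [← Real.rpow_natCast, ← Real.rpow_mul hx]
  congr 1
  push_cast
  ring

theorem pow_le_self' {e q : ℝ} (he : 0 < e) (he1 : e ≤ 1) (hq : 1 ≤ q) : e ^ q ≤ e := by
  calc e ^ q ≤ e ^ (1 : ℝ) := Real.rpow_le_rpow_of_exponent_ge he he1 hq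
    _ = e := Real.rpow_one e

theorem pow7 {a b c d e f g p : ℝ} (ha : 0 ≤ a) (hb : 0 ≤ b) (hc : 0 ≤ c) (hd : 0 ≤ d)
    (he : 0 ≤ e) (hf : 0 ≤ f) (hg : 0 ≤ g) (hp : 0 < p) :
    (10 * (a + b + c + (d + e) + f + g)) ^ p
      ≤ (70 : ℝ) ^ p * (a ^ p + b ^ p + c ^ p + d ^ p + e ^ p + f ^ p + g ^ p) := by
  have h := pow_sum_le (Finset.univ : Finset (Fin 7)) ![a, b, c, d, e, f, g] (by
    intro i _
    fin_cases i <;> simpa) hp
  have e1 : ∑ i : Fin 7, (![a, b, c, d, e, f, g] : Fin 7 → ℝ) i = a + b + c + (d + e) + f + g := by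
    rw [Fin.sum_univ_seven]; simp; ring
  have e2 : ∑ i : Fin 7, ((![a, b, c, d, e, f, g] : Fin 7 → ℝ) i) ^ p
      = a ^ p + b ^ p + c ^ p + d ^ p + e ^ p + f ^ p + g ^ p := by
    rw [Fin.sum_univ_seven]; simp
  rw [e1, e2] at h
  rw [Real.mul_rpow (by norm_num) (by positivity)]
  calc (10 : ℝ) ^ p * (a + b + c + (d + e) + f + g) ^ p
      ≤ (10 : ℝ) ^ p * ((Finset.univ : Finset (Fin 7)).card ^ p
        * (a ^ p + b ^ p + c ^ p + d ^ p + e ^ p + f ^ p + g ^ p)) := by gcongr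
    _ = (70 : ℝ) ^ p * (a ^ p + b ^ p + c ^ p + d ^ p + e ^ p + f ^ p + g ^ p) := by
        rw [← mul_assoc, ← Real.mul_rpow (by norm_num) (by positivity)]
        norm_num

/-- The parameters of the estimate. -/
structure Par (q s s' C1 δ1 C' M e e' KB Cχ : ℝ) : Prop where
  hq : 1 ≤ q
  hs : 1 / 2 < s'
  hss : s' ≤ s
  pC1 : 0 < C1
  pδ1 : 0 < δ1
  pC' : 0 < C'
  pM : 1 ≤ M
  pe : 0 < e
  pe1 : e ≤ 1
  pe' : 0 < e'
  pe'1 : e' ≤ 1
  pKB : 0 < KB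
  pCχ : 0 < Cχ

/-- the small constant -/
noncomputable def K1 (q C' M KB : ℝ) : ℝ := 1 + (C' * M ^ 2) ^ (q / 2) + KB ^ q

noncomputable def K2 (q Cχ : ℝ) : ℝ := 1 + Cχ ^ q

noncomputable def K3c (q C' M : ℝ) : ℝ := C' ^ (q / 2) * M ^ (q - 1)

theorem mass {q C' M y : ℝ} (hq : 1 ≤ q) (hC' : 0 < C') (hy : 0 ≤ y) (hM : y ≤ M) :
    (C' * y ^ 2) ^ (q / 2) ≤ K3c q C' M * y := by
  unfold K3c
  rw [Real.mul_rpow hC'.le (by positivity), sqpow hy, mul_assoc]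
  refine mul_le_mul_of_nonneg_left ?_ (by positivity)
  rcases hy.eq_or_lt with h | h
  · rw [← h, Real.zero_rpow (by linarith)]
    simp
  · have : y ^ q = y ^ (q - 1) * y := by
      rw [← Real.rpow_add_one h.ne']; congr 1; ring
    rw [this]
    exact mul_le_mul_of_nonneg_right (Real.rpow_le_rpow hy hM (by linarith)) hy

section

variable {ν T0 δ h R : ℝ} {S : Finset K3} {f : ℝ → V → V} {u0 : V → V}
  {mm : ℝ → E3} {ψ : ℝ → K3 → E3} {a0 : K3 → E3} {a : ℝ → K3 → E3} {r : V → V}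
  {q s s' C1 δ1 C' M e e' KB Cχ : ℝ}

theorem Dat.power (D : Dat ν T0 δ S (vs h R) f u0 mm ψ a0 a r) (htrig : S_trig)
    (hgrad : S_grad) (hbes : S_bes) (hrho : S_rho) (htime : S_time)
    (p : Par q s s' C1 δ1 C' M e e' KB Cχ) {t : ℝ} (ht : 0 ≤ t)
    (ht1 : t ≤ T0 + 1) {F η : ℝ}
    (hC' : ∀ (G : Finset K3), ∑ k ∈ G, (1 + sq k) ^ (-s') * ‖Nl S (a t) k‖ ^ 2
      ≤ C' * Y2 S (a t) ^ 2)
    (hlam : ∀ k, k ∉ S → k ≠ 0 → (1 + sq k) ^ (-(s - s')) ≤ e' ^ 2)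
    (hF0 : 0 ≤ F) (hFe : T0 < t → F ≤ e)
    (hF : ∀ G : Finset K3, ∑ k ∈ G, ‖frv (f t) k‖ ^ 2 ≤ F ^ 2)
    (hη0 : 0 ≤ η) (hηe : η ≤ e')
    (hη : ∀ G : Finset K3, ∑ k ∈ G, ‖ψ t k - frv (f t) k‖ ^ 2 ≤ η ^ 2)
    (hCχ : ∀ t, |deriv cut t| ≤ Cχ)
    (hX : T0 < t → Real.sqrt (X2 S (a t)) ≤ e)
    (hM : Y2 S (a t) ≤ M)
    (hcost : (∑ k ∈ S, (1 + sq k) ^ (-s) *
      ‖(vs h R k (Y2 S (a t)) * (4 * Real.pi ^ 2 * sq k)) • a t k‖ ^ 2) ^ (q / 2)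
      ≤ C1 * h ^ (-δ1) * ((ν + mh h (Y2 S (a t))) * D2 S (a t) / (1 + Y2 S (a t)) / h
      + (ν + mh h (Y2 S (a t))) * Y2 S (a t)))
    (hB : ∀ G : Finset K3, ∑ k ∈ G,
      ‖frv (rho ν (cut t) (deriv cut t) (TP (insert 0 S) (bt T0 mm a t)) r) k‖ ^ 2
        ≤ (KB * e') ^ 2) :
    (t ≤ T0 → sobNorm (-s) (resid ν f (uu T0 S mm a r) (fun t => tp S (pt T0 S ψ a t)) t) ^ q
      ≤ ENNReal.ofReal ((70 : ℝ) ^ (q / 2) * (K1 q C' M KB * e') + (70 : ℝ) ^ (q / 2)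
        * (C1 * h ^ (-δ1)) * ((ν + mh h (Y2 S (a t))) * D2 S (a t) / (1 + Y2 S (a t)) / h
      + (ν + mh h (Y2 S (a t))) * Y2 S (a t)))) ∧
    (T0 < t → sobNorm (-s) (resid ν f (uu T0 S mm a r) (fun t => tp S (pt T0 S ψ a t)) t) ^ q
      ≤ ENNReal.ofReal ((70 : ℝ) ^ (q / 2) * (K1 q C' M KB * e') + (70 : ℝ) ^ (q / 2)
        * (C1 * h ^ (-δ1)) * ((ν + mh h (Y2 S (a t))) * D2 S (a t) / (1 + Y2 S (a t)) / h
      + (ν + mh h (Y2 S (a t))) * Y2 S (a t))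
      + ((70 : ℝ) ^ (q / 2) * (K2 q Cχ * e) + (70 : ℝ) ^ (q / 2) * K3c q C' M * Y2 S (a t)))) := by
  have hq := p.hq
  have hq2 : 0 < q / 2 := by linarith
  have he' := p.pe'
  set y := Y2 S (a t) with hy
  have hy0 : 0 ≤ y := Y2_nonneg _ _
  set X := X2 S (a t) with hXd
  have hX0 : 0 ≤ X := X2_nonneg _ _
  set Kc := ∑ k ∈ S, (1 + sq k) ^ (-s) *
      ‖(vs h R k y * (4 * Real.pi ^ 2 * sq k)) • a t k‖ ^ 2 with hKc
  have hKc0 : 0 ≤ Kc := Finset.sum_nonneg fun k _ => mul_nonneg (w_nonneg s k) (sq_nonneg _)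
  set χ := cut (t - T0) with hχ
  have hχ0 : 0 ≤ χ := cut_nonneg _
  have hχ1 : χ ≤ 1 := cut_le _
  set Φ := (ν + mh h y) * D2 S (a t) / (1 + y) / h + (ν + mh h y) * y with hΦ
  have hC'0 := p.pC'
  have hKB0 := p.pKB
  have hCχ0 := p.pCχ
  have hpt := fun G => D.point htrig hgrad hbes hrho htime ht ht1 p.hs p.hss hC'
    (sq_nonneg e') hlam hF hη le_rfl hB G
  -- the seven terms
  have hterm : ∀ G : Finset K3, ∑ k ∈ G, (1 + sq k) ^ (-s) *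
        ‖frv (resid ν f (uu T0 S mm a r) (fun t => tp S (pt T0 S ψ a t)) t) k‖ ^ 2
      ≤ 10 * (η ^ 2 + (1 - χ) ^ 2 * F ^ 2 + deriv cut (t - T0) ^ 2 * X
        + ((1 - χ) ^ 2 * (C' * y ^ 2) + e' ^ 2 * (C' * y ^ 2)) + Kc + (KB * e') ^ 2) := by
    intro G
    refine (hpt G).trans (le_of_eq ?_)
    rw [deriv_cut_sub]
    ring
  have hpos : 0 ≤ 10 * (η ^ 2 + (1 - χ) ^ 2 * F ^ 2 + deriv cut (t - T0) ^ 2 * X
        + ((1 - χ) ^ 2 * (C' * y ^ 2) + e' ^ 2 * (C' * y ^ 2)) + Kc + (KB * e') ^ 2) := by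
    positivity
  have hsob := sob_le (q := q) (by linarith) hpos hterm
  have h7 := pow7 (a := η ^ 2) (b := (1 - χ) ^ 2 * F ^ 2) (c := deriv cut (t - T0) ^ 2 * X)
    (d := (1 - χ) ^ 2 * (C' * y ^ 2)) (e := e' ^ 2 * (C' * y ^ 2)) (f := Kc) (g := (KB * e') ^ 2)
    (by positivity) (by positivity) (by positivity) (by positivity) (by positivity) hKc0
    (by positivity) hq2
  -- the small terms
  have s1 : (η ^ 2) ^ (q / 2) ≤ e' := by
    rw [sqpow hη0]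
    exact (Real.rpow_le_rpow hη0 hηe (by linarith)).trans (pow_le_self' he' p.pe'1 hq)
  have s5 : (e' ^ 2 * (C' * y ^ 2)) ^ (q / 2) ≤ (C' * M ^ 2) ^ (q / 2) * e' := by
    rw [Real.mul_rpow (by positivity) (by positivity), sqpow he'.le, mul_comm]
    have h1 : (C' * y ^ 2) ^ (q / 2) ≤ (C' * M ^ 2) ^ (q / 2) := by
      refine Real.rpow_le_rpow (by positivity) ?_ hq2.le
      gcongr
    have h2 := pow_le_self' he' p.pe'1 hq
    gcongr
  have s7 : ((KB * e') ^ 2) ^ (q / 2) ≤ KB ^ q * e' := by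
    rw [sqpow (by positivity), Real.mul_rpow hKB0.le he'.le]
    have h2 := pow_le_self' he' p.pe'1 hq
    gcongr
  have hK1 : (η ^ 2) ^ (q / 2) + (e' ^ 2 * (C' * y ^ 2)) ^ (q / 2) + ((KB * e') ^ 2) ^ (q / 2)
      ≤ K1 q C' M KB * e' := by
    unfold K1
    linarith
  have h70 : (0 : ℝ) < 70 ^ (q / 2) := by positivity
  refine ⟨fun hle => ?_, fun hlt => ?_⟩
  · have hχe : χ = 1 := cut_one (by linarith)
    have hd0 : deriv cut (t - T0) = 0 := deriv_cut_early' (by linarith)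
    refine hsob.trans (ENNReal.ofReal_le_ofReal (h7.trans ?_))
    rw [hχe, hd0]
    have z1 : ((1 - 1 : ℝ) ^ 2 * F ^ 2) ^ (q / 2) = 0 := by
      rw [sub_self, zero_pow two_ne_zero, zero_mul, Real.zero_rpow hq2.ne']
    have z2 : ((0 : ℝ) ^ 2 * X) ^ (q / 2) = 0 := by
      rw [zero_pow two_ne_zero, zero_mul, Real.zero_rpow hq2.ne']
    have z3 : ((1 - 1 : ℝ) ^ 2 * (C' * y ^ 2)) ^ (q / 2) = 0 := by
      rw [sub_self, zero_pow two_ne_zero, zero_mul, Real.zero_rpow hq2.ne']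
    rw [z1, z2, z3, mul_assoc ((70 : ℝ) ^ (q / 2)) (C1 * h ^ (-δ1)) Φ, ← mul_add]
    refine mul_le_mul_of_nonneg_left ?_ h70.le
    linarith
  · refine hsob.trans (ENNReal.ofReal_le_ofReal (h7.trans ?_))
    have hFe' := hFe hlt
    have hXe := hX hlt
    have t2 : ((1 - χ) ^ 2 * F ^ 2) ^ (q / 2) ≤ e := by
      have h1 : (1 - χ) ^ 2 * F ^ 2 ≤ e ^ 2 := by
        have h2 : (1 - χ) ^ 2 ≤ 1 := by nlinarith
        have h3 : F ^ 2 ≤ e ^ 2 := by gcongr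
        calc (1 - χ) ^ 2 * F ^ 2 ≤ 1 * e ^ 2 := by gcongr
          _ = e ^ 2 := one_mul _
      refine (Real.rpow_le_rpow (by positivity) h1 hq2.le).trans ?_
      rw [sqpow p.pe.le]
      exact pow_le_self' p.pe p.pe1 hq
    have t3 : (deriv cut (t - T0) ^ 2 * X) ^ (q / 2) ≤ Cχ ^ q * e := by
      have h1 : deriv cut (t - T0) ^ 2 * X ≤ (Cχ * e) ^ 2 := by
        rw [mul_pow]
        have h2 : deriv cut (t - T0) ^ 2 ≤ Cχ ^ 2 := by
          rw [← sq_abs]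
          have := hCχ (t - T0)
          gcongr
        have h3 : X ≤ e ^ 2 := by
          have := Real.sq_sqrt hX0
          rw [← this]
          gcongr
        gcongr
      refine (Real.rpow_le_rpow (by positivity) h1 hq2.le).trans ?_
      rw [sqpow (mul_nonneg hCχ0.le p.pe.le), Real.mul_rpow hCχ0.le p.pe.le]
      have h2 := pow_le_self' p.pe p.pe1 hq
      gcongr
    have t4 : ((1 - χ) ^ 2 * (C' * y ^ 2)) ^ (q / 2) ≤ K3c q C' M * y := by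
      refine le_trans (Real.rpow_le_rpow (by positivity) ?_ hq2.le) (mass hq hC'0 hy0 hM)
      refine mul_le_of_le_one_left (by positivity) ?_
      nlinarith
    have hK2 : ((1 - χ) ^ 2 * F ^ 2) ^ (q / 2) + (deriv cut (t - T0) ^ 2 * X) ^ (q / 2)
        ≤ K2 q Cχ * e := by
      unfold K2
      linarith
    have e1 : (70 : ℝ) ^ (q / 2) * (K1 q C' M KB * e') + (70 : ℝ) ^ (q / 2)
        * (C1 * h ^ (-δ1)) * Φ
        + ((70 : ℝ) ^ (q / 2) * (K2 q Cχ * e) + (70 : ℝ) ^ (q / 2) * K3c q C' M * y)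
        = (70 : ℝ) ^ (q / 2) * (K1 q C' M KB * e' + C1 * h ^ (-δ1) * Φ
          + (K2 q Cχ * e + K3c q C' M * y)) := by ring
    rw [e1]
    refine mul_le_mul_of_nonneg_left ?_ h70.le
    linarith

end

end Pool.Agent.W785.DF
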