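import Mathlib
import Pool.Agent.W785.DF.Asm2
import Pool.Agent.W785.DF.Asm4
import Pool.Agent.W785.DF.Asm5

/-!
Assembly: bounds of the approximate force, the mean flow and the terms with `r`.
-/

open MeasureTheory Set Filter
open scoped ContDiff InnerProductSpace ENNReal Topology

namespace Pool.Agent.W785.DF

open H459R3.NS (V K3 Per pd fr ee cube SP)

theorem norm_frv (v : V → V) (k : K3) : ‖frv v k‖ ^ 2 = ∑ i, ‖fr (fun x => v x i) k‖ ^ 2 :=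
  EuclideanSpace.norm_sq_eq _

theorem norm_sub_frv (w : E3) (v : V → V) (k : K3) :
    ‖w - frv v k‖ ^ 2 = ∑ i, ‖w i - fr (fun x => v x i) k‖ ^ 2 := by
  rw [EuclideanSpace.norm_sq_eq]; rfl

theorem psi_bound {f : ℝ → V → V} {ψ : ℝ → K3 → E3} {Cf η t : ℝ} (hCf : 0 < Cf) (hη : 0 ≤ η)
    (ht : 0 ≤ t)
    (h1 : ∀ G : Finset K3, ∑ k ∈ G, ‖frv (f t) k‖ ^ 2 ≤ (Cf / (1 + t) ^ 2) ^ 2)
    (h2 : ∀ G : Finset K3, ∑ k ∈ G, ‖ψ t k - frv (f t) k‖ ^ 2 ≤ η ^ 2) (G : Finset K3) :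
    ∑ k ∈ G, ‖ψ t k‖ ^ 2 ≤ (Cf / (1 + |t|) ^ 2 + η) ^ 2 := by
  have h := mink G (fun k => frv (f t) k) (fun k => ψ t k - frv (f t) k) (by positivity) hη
    (h1 G) (h2 G)
  simp only [add_sub_cancel] at h
  rwa [abs_of_nonneg ht]

theorem mean_bound {T0 T : ℝ} {ψ0 : ℝ → E3} {v : E3} {mm : ℝ → E3} {A0 Cf η : ℝ}
    (hCf : 0 < Cf) (hη : 0 ≤ η) (hηT : η * T ≤ 1)
    (hmm : ∀ t, mm t = v + ∫ s in (0 : ℝ)..t, cut (s - T0) • ψ0 s)
    (hv : ‖v‖ ^ 2 ≤ A0) (hψ : ∀ t ∈ Icc 0 T, ‖ψ0 t‖ ^ 2 ≤ (Cf / (1 + |t|) ^ 2 + η) ^ 2)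
    {t : ℝ} (ht : t ∈ Icc 0 T) : ‖mm t‖ ≤ Real.sqrt A0 + Cf + 1 := by
  have h1 : ‖v‖ ≤ Real.sqrt A0 := Real.le_sqrt_of_sq_le hv
  have h2 : ‖∫ s in (0 : ℝ)..t, cut (s - T0) • ψ0 s‖ ≤ Cf + 1 := by
    calc ‖∫ s in (0 : ℝ)..t, cut (s - T0) • ψ0 s‖
        ≤ ∫ s in (0 : ℝ)..t, (Cf / (1 + |s|) ^ 2 + η) := by
          refine intervalIntegral.norm_integral_le_of_norm_le ht.1 ?_
            ((phi_cont Cf η).intervalIntegrable _ _)
          refine Eventually.of_forall fun s hs => ?_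
          have hs' : s ∈ Icc 0 T := ⟨hs.1.le, hs.2.trans ht.2⟩
          have h3 := hψ s hs'
          have h4 : ‖ψ0 s‖ ≤ Cf / (1 + |s|) ^ 2 + η :=
            (abs_le_of_sq_le_sq' h3 (by positivity)).2
          rw [norm_smul, Real.norm_eq_abs, abs_of_nonneg (cut_nonneg _)]
          calc cut (s - T0) * ‖ψ0 s‖ ≤ 1 * (Cf / (1 + |s|) ^ 2 + η) := by
                gcongr
                exact cut_le _
            _ = _ := one_mul _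
      _ ≤ Cf / (1 + 0) + η * t := phi_int' hCf.le hη le_rfl ht.1
      _ ≤ Cf + 1 := by
          rw [add_zero, div_one]
          have : η * t ≤ η * T := by
            have := ht.2
            gcongr
          linarith
  rw [hmm t]
  refine (norm_add_le _ _).trans ?_
  linarith

theorem bb_sum {S : Finset K3} (hS : Fr S) (m : E3) {z : ℝ} (hz : |z| ≤ 1) (a : K3 → E3) :
    ∑ k ∈ insert 0 S, ‖bb m z a k‖ ^ 2 ≤ ‖m‖ ^ 2 + X2 S a := by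
  classical
  rw [Finset.sum_insert hS.zero, bb_zero]
  refine add_le_add le_rfl ?_
  unfold X2
  refine Finset.sum_le_sum fun k hk => ?_
  rw [bb_ne _ _ _ (hS.ne hk), norm_smul, mul_pow, Real.norm_eq_abs]
  have h1 : |z| ^ 2 ≤ 1 := by
    have := abs_nonneg z
    nlinarith
  exact mul_le_of_le_one_left (sq_nonneg _) h1

theorem bb_sum_sq {S : Finset K3} (hS : Fr S) (m : E3) {z : ℝ} (hz : |z| ≤ 1) (a : K3 → E3) :
    ∑ k ∈ insert 0 S, sq k * ‖bb m z a k‖ ^ 2 ≤ Y2 S a := by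
  classical
  rw [Finset.sum_insert hS.zero, sq_zero', zero_mul, zero_add]
  unfold Y2
  refine Finset.sum_le_sum fun k hk => ?_
  rw [bb_ne _ _ _ (hS.ne hk), norm_smul, mul_pow, Real.norm_eq_abs]
  have h1 : |z| ^ 2 ≤ 1 := by
    have := abs_nonneg z
    nlinarith
  have h2 := sq_nonneg' k
  gcongr
  exact mul_le_of_le_one_left (sq_nonneg _) h1

section

variable {ν T0 δ h R : ℝ} {S : Finset K3} {w : K3 → ℝ → ℝ} {f : ℝ → V → V} {u0 : V → V}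
  {mm : ℝ → E3} {ψ : ℝ → K3 → E3} {a0 : K3 → E3} {a : ℝ → K3 → E3} {r : V → V}

theorem Dat.rho_bound (D : Dat ν T0 δ S w f u0 mm ψ a0 a r) {Cρ Cχ M : ℝ} (hCρ : 0 < Cρ)
    (hrho : ∀ (ν z z' δ : ℝ), 0 < ν → |z| ≤ 1 → 0 < δ →
      ∀ (S : Finset K3) (b : K3 → E3), Herm S b → ∀ r : V → V, ContDiff ℝ ∞ r → Per r →
      (∀ x i, |r x i| ≤ δ ∧ (∀ j, |pd j (fun y => r y i) x| ≤ δ) ∧
        |∑ j, pd j (pd j fun y => r y i) x| ≤ δ) →
      Continuous (rho ν z z' (TP S b) r) ∧ Per (rho ν z z' (TP S b) r) ∧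
      ∀ G : Finset K3, ∑ k ∈ G, ‖frv (rho ν z z' (TP S b) r) k‖ ^ 2
        ≤ (Cρ * δ * (|z'| + ν + δ + Real.sqrt (∑ k ∈ S, ‖b k‖ ^ 2)
          + Real.sqrt (∑ k ∈ S, sq k * ‖b k‖ ^ 2))) ^ 2)
    (hCχ : ∀ t, |deriv cut t| ≤ Cχ) (hδ1 : δ ≤ 1) (hR : 0 < R) {t : ℝ} (ht : 0 ≤ t)
    (hm : ‖mm t‖ ≤ R) (hX : Real.sqrt (X2 S (a t)) ≤ R) (hY : Y2 S (a t) ≤ M) (G : Finset K3) :
    ∑ k ∈ G, ‖frv (rho ν (cut t) (deriv cut t) (TP (insert 0 S) (bt T0 mm a t)) r) k‖ ^ 2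
      ≤ (Cρ * (Cχ + ν + 1 + 2 * R + Real.sqrt M) * δ) ^ 2 := by
  have hν := D.hν
  have hδ := D.δ0
  have hc : ∀ t : ℝ, |cut t| ≤ 1 := fun t => by
    rw [abs_of_nonneg (cut_nonneg _)]; exact cut_le _
  refine ((hrho ν (cut t) (deriv cut t) δ D.hν (hc t) D.δ0 _ _ (D.herm ht) r D.rs D.rp
    D.rb).2.2 G).trans ?_
  have e1 : Real.sqrt (∑ k ∈ insert 0 S, ‖bt T0 mm a t k‖ ^ 2) ≤ 2 * R := by
    refine Real.sqrt_le_iff.mpr ⟨by positivity, ?_⟩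
    refine (bb_sum D.hS (mm t) (hc _) (a t)).trans ?_
    have h1 : ‖mm t‖ ^ 2 ≤ R ^ 2 := by gcongr
    have h2 : X2 S (a t) ≤ R ^ 2 := by
      rw [← Real.sq_sqrt (X2_nonneg S (a t))]
      gcongr
    nlinarith
  have e2 : Real.sqrt (∑ k ∈ insert 0 S, sq k * ‖bt T0 mm a t k‖ ^ 2) ≤ Real.sqrt M :=
    Real.sqrt_le_sqrt ((bb_sum_sq D.hS (mm t) (hc _) (a t)).trans hY)
  have e3 := hCχ t
  have e4 : 0 ≤ Real.sqrt (∑ k ∈ insert 0 S, ‖bt T0 mm a t k‖ ^ 2) := Real.sqrt_nonneg _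
  have e5 : 0 ≤ Real.sqrt (∑ k ∈ insert 0 S, sq k * ‖bt T0 mm a t k‖ ^ 2) := Real.sqrt_nonneg _
  have e6 := abs_nonneg (deriv cut t)
  calc (Cρ * δ * (|deriv cut t| + ν + δ
        + Real.sqrt (∑ k ∈ insert 0 S, ‖bt T0 mm a t k‖ ^ 2)
        + Real.sqrt (∑ k ∈ insert 0 S, sq k * ‖bt T0 mm a t k‖ ^ 2))) ^ 2
      ≤ (Cρ * δ * (Cχ + ν + 1 + 2 * R + Real.sqrt M)) ^ 2 := by gcongr
    _ = _ := by ring

/-- the integrand of the cost -/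
noncomputable def Fc (ν h : ℝ) (S : Finset K3) (a : ℝ → K3 → E3) (t : ℝ) : ℝ :=
  (ν + mh h (Y2 S (a t))) * D2 S (a t) / (1 + Y2 S (a t)) / h
    + (ν + mh h (Y2 S (a t))) * Y2 S (a t)

theorem cont_mhY {h T : ℝ} {a : ℝ → K3 → E3}
    (hY : ContinuousOn (fun t => Y2 S (a t)) (Icc 0 T)) :
    ContinuousOn (fun t => ν + mh h (Y2 S (a t))) (Icc 0 T) :=
  continuousOn_const.add ((mh_continuous h).comp_continuousOn hY)

theorem cont_D {h T : ℝ} {a : ℝ → K3 → E3}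
    (hY : ContinuousOn (fun t => Y2 S (a t)) (Icc 0 T))
    (hD : ContinuousOn (fun t => D2 S (a t)) (Icc 0 T)) :
    ContinuousOn (fun t => (ν + mh h (Y2 S (a t))) * D2 S (a t) / (1 + Y2 S (a t))) (Icc 0 T) := by
  refine ((cont_mhY hY).mul hD).div (continuousOn_const.add hY) fun t _ => ?_
  have := Y2_nonneg S (a t)
  positivity

theorem cont_Fc {h T : ℝ} {a : ℝ → K3 → E3}
    (hY : ContinuousOn (fun t => Y2 S (a t)) (Icc 0 T))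
    (hD : ContinuousOn (fun t => D2 S (a t)) (Icc 0 T)) :
    ContinuousOn (Fc ν h S a) (Icc 0 T) :=
  ((cont_D hY hD).div_const h).add ((cont_mhY hY).mul hY)

theorem Fc_nonneg {h : ℝ} (hν : 0 < ν) (hh : 0 < h) (a : ℝ → K3 → E3) (t : ℝ) :
    0 ≤ Fc ν h S a t := by
  have h1 := Y2_nonneg S (a t)
  have h2 := D2_nonneg S (a t)
  have h3 := mh_nonneg hh h1
  unfold Fc
  positivity

theorem int_Fc {h T T' A : ℝ} {a : ℝ → K3 → E3} (hν : 0 < ν) (hh : 0 < h) (hT : 0 ≤ T)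
    (hTT : T ≤ T')
    (hY : ContinuousOn (fun t => Y2 S (a t)) (Icc 0 T'))
    (hD : ContinuousOn (fun t => D2 S (a t)) (Icc 0 T'))
    (h1 : 3 * Real.pi ^ 2 * (∫ s in (0 : ℝ)..T', (ν + mh h (Y2 S (a s))) * Y2 S (a s)) ≤ R ^ 2)
    (h2 : 4 * Real.pi ^ 2 * (∫ s in (0 : ℝ)..T,
      (ν + mh h (Y2 S (a s))) * D2 S (a s) / (1 + Y2 S (a s))) ≤ A * h) :
    ∫ s in (0 : ℝ)..T, Fc ν h S a s ≤ A / (4 * Real.pi ^ 2) + R ^ 2 / (3 * Real.pi ^ 2) := by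
  have hs : Icc 0 T ⊆ Icc 0 T' := Icc_subset_Icc_right hTT
  have c1 : ContinuousOn (fun s => (ν + mh h (Y2 S (a s))) * D2 S (a s) / (1 + Y2 S (a s)))
      (Icc 0 T') := cont_D hY hD
  have c2 : ContinuousOn (fun s => (ν + mh h (Y2 S (a s))) * Y2 S (a s)) (Icc 0 T') :=
    (cont_mhY hY).mul hY
  have i1 : IntervalIntegrable
      (fun s => (ν + mh h (Y2 S (a s))) * D2 S (a s) / (1 + Y2 S (a s)) / h) volume 0 T :=
    ((c1.mono hs).div_const h).intervalIntegrable_of_Icc hT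
  have i2 : IntervalIntegrable (fun s => (ν + mh h (Y2 S (a s))) * Y2 S (a s)) volume 0 T :=
    (c2.mono hs).intervalIntegrable_of_Icc hT
  have i3 : IntervalIntegrable (fun s => (ν + mh h (Y2 S (a s))) * Y2 S (a s)) volume T T' :=
    (c2.mono (Icc_subset_Icc_left hT)).intervalIntegrable_of_Icc hTT
  have e0 : ∫ s in (0 : ℝ)..T, Fc ν h S a s
      = (∫ s in (0 : ℝ)..T, (ν + mh h (Y2 S (a s))) * D2 S (a s) / (1 + Y2 S (a s))) / h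
        + ∫ s in (0 : ℝ)..T, (ν + mh h (Y2 S (a s))) * Y2 S (a s) := by
    unfold Fc
    rw [intervalIntegral.integral_add i1 i2, intervalIntegral.integral_div]
  have e1 : ∫ s in (0 : ℝ)..T, (ν + mh h (Y2 S (a s))) * Y2 S (a s)
      ≤ ∫ s in (0 : ℝ)..T', (ν + mh h (Y2 S (a s))) * Y2 S (a s) := by
    rw [← intervalIntegral.integral_add_adjacent_intervals i2 i3]
    have : 0 ≤ ∫ s in T..T', (ν + mh h (Y2 S (a s))) * Y2 S (a s) := by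
      refine intervalIntegral.integral_nonneg hTT fun s _ => ?_
      have h1 := Y2_nonneg S (a s)
      have h3 := mh_nonneg hh h1
      positivity
    linarith
  rw [e0]
  have hpi : 0 < Real.pi ^ 2 := by positivity
  refine add_le_add ?_ ?_
  · rw [div_le_iff₀ hh, div_mul_eq_mul_div, le_div_iff₀ (by positivity)]
    linarith
  · rw [le_div_iff₀ (by positivity)]
    nlinarith

end

end Pool.Agent.W785.DF
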