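import Mathlib
import Pool.Agent.W785.DF.Est

/-!
A priori estimates for the Galerkin system: energy and enstrophy.
-/

open MeasureTheory Set Filter Topology
open scoped ContDiff InnerProductSpace ComplexConjugate

namespace Pool.Agent.W785.DF

open H459R3.NS (V K3)

/-- comparison with an integral -/
theorem sub_le_int {u u' F : ℝ → ℝ} {T s t : ℝ} (hs : 0 ≤ s) (hst : s ≤ t) (ht : t ≤ T)
    (hu : ∀ r ∈ Icc 0 T, HasDerivWithinAt u (u' r) (Icc 0 T) r)
    (hF : ContinuousOn F (Icc 0 T)) (h : ∀ r ∈ Icc 0 T, u' r ≤ F r) :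
    u t - u s ≤ ∫ r in s..t, F r := by
  have hsub : Icc s t ⊆ Icc 0 T := Icc_subset_Icc hs ht
  refine intervalIntegral.sub_le_integral_of_hasDeriv_right_of_le hst
    (fun r hr => ((hu r (hsub hr)).continuousWithinAt).mono hsub) ?_
    ((hF.mono hsub).integrableOn_Icc) (fun r hr => h r (hsub (Ioo_subset_Icc_self hr)))
  intro r hr
  have hr' : r ∈ Icc 0 T := hsub (Ioo_subset_Icc_self hr)
  have hrT : r < T := hr.2.trans_le ht
  refine (hu r hr').mono_of_mem_nhdsWithin ?_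
  have : Ioo r T ∈ 𝓝[>] r := Ioo_mem_nhdsGT hrT
  exact mem_of_superset this fun x hx => ⟨hr'.1.trans hx.1.le, hx.2.le⟩

section gal

variable {S : Finset K3} {ν h R T : ℝ} {mm : ℝ → E3} {ψ : ℝ → K3 → E3} {a0 : K3 → E3}
  {w : K3 → ℝ → ℝ} {a : ℝ → K3 → E3}

/-- derivative of the energy -/
theorem Gal.derivX (hS : Fr S) (hmm : ∀ t, cj (mm t) = mm t) (G : Gal S ν w T mm ψ a0 a)
    {t : ℝ} (ht : t ∈ Icc 0 T) :
    HasDerivWithinAt (fun s => X2 S (a s))
      (-(8 * Real.pi ^ 2 * ∑ k ∈ S, (ν + w k (Y2 S (a t))) * sq k * ‖a t k‖ ^ 2)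
        + 2 * ∑ k ∈ S, (⟪a t k, ψ t k⟫_ℂ).re) (Icc 0 T) t := by
  have h1 := HasDerivWithinAt.fun_sum fun k hk => G.deriv_norm hS hmm ht hk
  have h2 := energy S hS (a t) (G.fld t ht)
  refine h1.congr_deriv ?_
  rw [← Finset.mul_sum, Finset.sum_add_distrib, Finset.sum_sub_distrib, Finset.sum_neg_distrib, h2,
    mul_add, mul_sub, neg_zero, mul_zero, zero_sub]
  congr 1
  rw [Finset.mul_sum, Finset.mul_sum]
  congr 1
  exact Finset.sum_congr rfl fun k _ => by ring

/-- derivative of the enstrophy -/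
theorem Gal.derivY (hS : Fr S) (hmm : ∀ t, cj (mm t) = mm t) (G : Gal S ν w T mm ψ a0 a)
    {t : ℝ} (ht : t ∈ Icc 0 T) :
    HasDerivWithinAt (fun s => Y2 S (a s))
      (-(2 * ∑ k ∈ S, sq k * (⟪a t k, Nl S (a t) k⟫_ℂ).re)
        - (8 * Real.pi ^ 2 * ∑ k ∈ S, (ν + w k (Y2 S (a t))) * sq k ^ 2 * ‖a t k‖ ^ 2)
        + 2 * ∑ k ∈ S, sq k * (⟪a t k, ψ t k⟫_ℂ).re) (Icc 0 T) t := by
  have h1 := HasDerivWithinAt.fun_sum fun k hk => (G.deriv_norm hS hmm ht hk).const_mul (sq k)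
  refine h1.congr_deriv ?_
  rw [Finset.mul_sum, Finset.mul_sum, Finset.mul_sum, ← Finset.sum_neg_distrib,
    ← Finset.sum_sub_distrib, ← Finset.sum_add_distrib]
  exact Finset.sum_congr rfl fun k _ => by ring

variable (hS : Fr S) (hν : 0 < ν) (hh : 0 < h) (hR : 0 < R) (hT : 0 < T)
  (hmm : ∀ t, cj (mm t) = mm t) (G : Gal S ν (vs h R) T mm ψ a0 a) {φ : ℝ → ℝ}
  (hφc : Continuous φ) (hφ0 : ∀ t, 0 ≤ φ t)
  (hφ : ∀ t ∈ Icc 0 T, ∑ k ∈ S, ‖ψ t k‖ ^ 2 ≤ φ t ^ 2)

include hS hν hh hmm G hφc hφ0 hφ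

/-- decay of the energy, from any time on -/
theorem Gal.X_le {s t : ℝ} (hs : 0 ≤ s) (hst : s ≤ t) (ht : t ≤ T) :
    Real.sqrt (X2 S (a t)) ≤ Real.exp (-(4 * Real.pi ^ 2 * ν * (t - s))) * Real.sqrt (X2 S (a s))
      + ∫ r in s..t, Real.exp (-(4 * Real.pi ^ 2 * ν * (t - r))) * φ r := by
  set lam : ℝ := 4 * Real.pi ^ 2 * ν with hlam
  have hlam0 : 0 < lam := by positivity
  have key : ∀ ε : ℝ, 0 < ε → Real.sqrt (X2 S (a t)) ≤ Real.exp (-(lam * (t - s)))
      * Real.sqrt (X2 S (a s) + ε ^ 2)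
      + ∫ r in s..t, Real.exp (-(lam * (t - r))) * (φ r + lam * ε) := by
    intro ε hε
    set u : ℝ → ℝ := fun r => Real.exp (lam * r) * Real.sqrt (X2 S (a r) + ε ^ 2) with hu
    have hpos : ∀ r, 0 < X2 S (a r) + ε ^ 2 := fun r => by
      have := X2_nonneg S (a r); positivity
    have hd : ∀ r ∈ Icc 0 T, HasDerivWithinAt u (lam * Real.exp (lam * r)
        * Real.sqrt (X2 S (a r) + ε ^ 2) + Real.exp (lam * r)
        * ((-(8 * Real.pi ^ 2 * ∑ k ∈ S, (ν + vs h R k (Y2 S (a r))) * sq k * ‖a r k‖ ^ 2)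
        + 2 * ∑ k ∈ S, (⟪a r k, ψ r k⟫_ℂ).re) / (2 * Real.sqrt (X2 S (a r) + ε ^ 2))))
        (Icc 0 T) r := by
      intro r hr
      have h1 := ((G.derivX hS hmm hr).add_const (ε ^ 2)).sqrt (hpos r).ne'
      have h2 : HasDerivWithinAt (fun r => Real.exp (lam * r)) (lam * Real.exp (lam * r))
          (Icc 0 T) r := by
        have := ((hasDerivAt_id r).const_mul lam).exp.hasDerivWithinAt (s := Icc 0 T)
        refine this.congr_deriv ?_
        simp only [id]; ring
      exact h2.mul h1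
    have hle : ∀ r ∈ Icc 0 T, lam * Real.exp (lam * r)
        * Real.sqrt (X2 S (a r) + ε ^ 2) + Real.exp (lam * r)
        * ((-(8 * Real.pi ^ 2 * ∑ k ∈ S, (ν + vs h R k (Y2 S (a r))) * sq k * ‖a r k‖ ^ 2)
        + 2 * ∑ k ∈ S, (⟪a r k, ψ r k⟫_ℂ).re) / (2 * Real.sqrt (X2 S (a r) + ε ^ 2)))
        ≤ Real.exp (lam * r) * (φ r + lam * ε) := by
      intro r hr
      set q := Real.sqrt (X2 S (a r) + ε ^ 2) with hq
      have hq0 : 0 < q := Real.sqrt_pos.2 (hpos r)
      have hq2 : q ^ 2 = X2 S (a r) + ε ^ 2 := Real.sq_sqrt (hpos r).le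
      have hqε : ε ≤ q := Real.le_sqrt_of_sq_le (by linarith [X2_nonneg S (a r)])
      have h1 : ν * X2 S (a r) ≤ ∑ k ∈ S, (ν + vs h R k (Y2 S (a r))) * sq k * ‖a r k‖ ^ 2 := by
        unfold X2
        rw [Finset.mul_sum]
        refine Finset.sum_le_sum fun k hk => ?_
        have h2 := one_le_sq (hS.ne hk)
        have h3 := vs_nonneg (R := R) hh k (Y2_nonneg S (a r))
        have : ν ≤ (ν + vs h R k (Y2 S (a r))) * sq k := by nlinarith
        exact mul_le_mul_of_nonneg_right this (sq_nonneg _)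
      have h2 : |∑ k ∈ S, (1 : ℝ) * (⟪a r k, ψ r k⟫_ℂ).re| ≤ Real.sqrt (X2 S (a r)) * φ r := by
        refine sum_inner_le (wt := fun _ => 1) (fun _ _ => zero_le_one) (Real.sqrt_nonneg _)
          (hφ0 r) ?_ (hφ r hr)
        rw [Real.sq_sqrt (X2_nonneg S (a r))]
        simp [X2]
      simp only [one_mul] at h2
      have h3 : Real.sqrt (X2 S (a r)) ≤ q := Real.sqrt_le_sqrt (by nlinarith [sq_nonneg ε])
      have h4 := (le_abs_self _).trans (h2.trans (mul_le_mul_of_nonneg_right h3 (hφ0 r)))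
      have h5 : (-(8 * Real.pi ^ 2 * ∑ k ∈ S, (ν + vs h R k (Y2 S (a r))) * sq k * ‖a r k‖ ^ 2)
        + 2 * ∑ k ∈ S, (⟪a r k, ψ r k⟫_ℂ).re) / (2 * q) ≤ -(lam * (q - ε)) + φ r := by
        rw [div_le_iff₀ (by positivity)]
        have h6 : 8 * Real.pi ^ 2 * (ν * X2 S (a r)) ≤ 8 * Real.pi ^ 2
            * ∑ k ∈ S, (ν + vs h R k (Y2 S (a r))) * sq k * ‖a r k‖ ^ 2 := by gcongr
        have h7 : X2 S (a r) = q ^ 2 - ε ^ 2 := by linarith
        rw [h7] at h6
        have h8 : 8 * Real.pi ^ 2 * (ν * (q ^ 2 - ε ^ 2)) = 2 * lam * (q ^ 2 - ε ^ 2) := by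
          rw [hlam]; ring
        rw [h8] at h6
        have h9 : ε ^ 2 ≤ ε * q := by nlinarith
        nlinarith [mul_le_mul_of_nonneg_left h9 hlam0.le]
      have he := Real.exp_pos (lam * r)
      calc _ ≤ lam * Real.exp (lam * r) * q + Real.exp (lam * r) * (-(lam * (q - ε)) + φ r) := by
            gcongr
        _ = Real.exp (lam * r) * (φ r + lam * ε) := by ring
    have hF : Continuous fun r => Real.exp (lam * r) * (φ r + lam * ε) :=
      (Real.continuous_exp.comp (continuous_const.mul continuous_id)).mul (hφc.add continuous_const)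
    have h1 := sub_le_int hs hst ht hd hF.continuousOn hle
    have h2 : Real.sqrt (X2 S (a t)) ≤ Real.exp (-(lam * t)) * u t := by
      simp only [hu]
      rw [← mul_assoc, ← Real.exp_add, neg_add_cancel, Real.exp_zero, one_mul]
      exact Real.sqrt_le_sqrt (by nlinarith [sq_nonneg ε])
    have h3 : u t ≤ u s + ∫ r in s..t, Real.exp (lam * r) * (φ r + lam * ε) := by linarith
    refine h2.trans ((mul_le_mul_of_nonneg_left h3 (Real.exp_pos _).le).trans (le_of_eq ?_))
    rw [mul_add]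
    congr 1
    · simp only [hu]
      rw [← mul_assoc, ← Real.exp_add]
      congr 2; ring
    · rw [← intervalIntegral.integral_const_mul]
      congr 1
      funext r
      rw [← mul_assoc, ← Real.exp_add]
      congr 2; ring
  -- let ε tend to 0
  have hc : Continuous fun ε : ℝ => Real.exp (-(lam * (t - s))) * Real.sqrt (X2 S (a s) + ε ^ 2)
      + ((∫ r in s..t, Real.exp (-(lam * (t - r))) * φ r)
        + ε * ∫ r in s..t, Real.exp (-(lam * (t - r))) * lam) := by
    refine (continuous_const.mul ((continuous_const.add (continuous_id.pow 2)).sqrt)).add ?_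
    exact continuous_const.add (continuous_id.mul continuous_const)
  have ci1 : Continuous fun r => Real.exp (-(lam * (t - r))) :=
    Real.continuous_exp.comp (continuous_const.mul (continuous_const.sub continuous_id)).neg
  have hsplit : ∀ ε : ℝ, (∫ r in s..t, Real.exp (-(lam * (t - r))) * (φ r + lam * ε))
      = (∫ r in s..t, Real.exp (-(lam * (t - r))) * φ r)
        + ε * ∫ r in s..t, Real.exp (-(lam * (t - r))) * lam := by
    intro ε
    have i1 : IntervalIntegrable (fun r => Real.exp (-(lam * (t - r))) * φ r) volume s t :=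
      (ci1.mul hφc).intervalIntegrable _ _
    have i2 : IntervalIntegrable (fun r => ε * (Real.exp (-(lam * (t - r))) * lam)) volume s t :=
      (continuous_const.mul (ci1.mul continuous_const)).intervalIntegrable _ _
    rw [← intervalIntegral.integral_const_mul, ← intervalIntegral.integral_add i1 i2]
    congr 1; funext r; ring
  have h1 : Tendsto (fun ε : ℝ => Real.exp (-(lam * (t - s))) * Real.sqrt (X2 S (a s) + ε ^ 2)
      + ((∫ r in s..t, Real.exp (-(lam * (t - r))) * φ r)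
        + ε * ∫ r in s..t, Real.exp (-(lam * (t - r))) * lam)) (𝓝[>] 0)
      (𝓝 (Real.exp (-(lam * (t - s))) * Real.sqrt (X2 S (a s))
      + ∫ r in s..t, Real.exp (-(lam * (t - r))) * φ r)) := by
    have := (hc.tendsto 0).mono_left (nhdsWithin_le_nhds (s := Ioi 0))
    simpa using this
  refine ge_of_tendsto h1 ?_
  filter_upwards [self_mem_nhdsWithin] with ε hε
  have := key ε hε
  rwa [hsplit ε] at this

theorem Gal.X_le' {s t : ℝ} (hs : 0 ≤ s) (hst : s ≤ t) (ht : t ≤ T) :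
    Real.sqrt (X2 S (a t)) ≤ Real.sqrt (X2 S (a s)) + ∫ r in s..t, φ r := by
  have h1 := G.X_le hS hν hh hmm hφc hφ0 hφ hs hst ht
  have hlam : 0 ≤ 4 * Real.pi ^ 2 * ν := by positivity
  have h2 : Real.exp (-(4 * Real.pi ^ 2 * ν * (t - s))) ≤ 1 := by
    rw [Real.exp_le_one_iff]; nlinarith
  have ci1 : Continuous fun r => Real.exp (-(4 * Real.pi ^ 2 * ν * (t - r))) :=
    Real.continuous_exp.comp (continuous_const.mul (continuous_const.sub continuous_id)).neg
  have h3 : (∫ r in s..t, Real.exp (-(4 * Real.pi ^ 2 * ν * (t - r))) * φ r)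
      ≤ ∫ r in s..t, φ r := by
    refine intervalIntegral.integral_mono_on hst ((ci1.mul hφc).intervalIntegrable _ _)
      (hφc.intervalIntegrable _ _) fun r hr => ?_
    have : Real.exp (-(4 * Real.pi ^ 2 * ν * (t - r))) ≤ 1 := by
      rw [Real.exp_le_one_iff]; nlinarith [hr.2]
    exact mul_le_of_le_one_left (hφ0 r) this
  have h4 := mul_le_of_le_one_left (Real.sqrt_nonneg (X2 S (a s))) h2
  linarith

end gal

end Pool.Agent.W785.DF
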