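import Mathlib
import Pool.Agent.W785.DF.Est2

/-!
A priori estimates for the Galerkin system: dissipation and enstrophy.
-/

open MeasureTheory Set Filter Topology
open scoped ContDiff InnerProductSpace ComplexConjugate

namespace Pool.Agent.W785.DF

open H459R3.NS (V K3)

/-- Young's inequality in the form `b (y d)^(3/4) ≤ π² κ d + (27 b⁴/(256 π⁶)) y³/κ³`. -/
theorem young34 {b y d κ : ℝ} (hb : 0 ≤ b) (hy : 0 ≤ y) (hd : 0 ≤ d) (hκ : 0 < κ) :
    b * (y * d) ^ (3 / 4 : ℝ) ≤ Real.pi ^ 2 * κ * d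
      + 27 * b ^ 4 / (256 * Real.pi ^ 6) * (y ^ 3 / κ ^ 3) := by
  have hpi := Real.pi_pos
  set α : ℝ := 4 / 3 * (Real.pi ^ 2 * κ * d) with hα
  set β : ℝ := b ^ 4 * y ^ 3 / (4 / 3 * (Real.pi ^ 2 * κ)) ^ 3 with hβ
  have hα0 : 0 ≤ α := by positivity
  have hβ0 : 0 ≤ β := by positivity
  have h1 := Real.geom_mean_le_arith_mean2_weighted (w₁ := 3 / 4) (w₂ := 1 / 4) (by norm_num)
    (by norm_num) hα0 hβ0 (by norm_num)
  have h2 : b * (y * d) ^ (3 / 4 : ℝ) = α ^ (3 / 4 : ℝ) * β ^ (1 / 4 : ℝ) := by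
    have e1 : α ^ (3 / 4 : ℝ) = (α ^ 3) ^ (1 / 4 : ℝ) := by
      rw [← Real.rpow_natCast, ← Real.rpow_mul hα0]; norm_num
    have e2 : (y * d) ^ (3 / 4 : ℝ) = ((y * d) ^ 3) ^ (1 / 4 : ℝ) := by
      rw [← Real.rpow_natCast, ← Real.rpow_mul (by positivity)]; norm_num
    have e3 : b = (b ^ 4) ^ (1 / 4 : ℝ) := by
      rw [← Real.rpow_natCast, ← Real.rpow_mul hb]; norm_num
    rw [e1, e2, ← Real.mul_rpow (by positivity) (by positivity)]
    conv_lhs => rw [e3]
    rw [← Real.mul_rpow (by positivity) (by positivity)]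
    congr 1
    rw [hα, hβ]
    field_simp
  rw [h2]
  refine h1.trans (le_of_eq ?_)
  rw [hα, hβ]
  field_simp
  ring

/-- the growth rate of the enstrophy in terms of the dissipation -/
theorem growth {ν h y : ℝ} (hν : 0 < ν) (hh : 1 ≤ h) (hy : 0 ≤ y) :
    y ^ 3 / (ν + mh h y) ^ 3 / (1 + y) ≤ h * (2 * (1 / ν ^ 4 + 1)) * ((ν + mh h y) * y) := by
  have hh0 : 0 < h := by linarith
  have hm := mh_nonneg hh0 hy
  set κ := ν + mh h y with hκ
  have hκν : ν ≤ κ := by linarith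
  have hκ0 : 0 < κ := by linarith
  have h1 : y ^ 3 / κ ^ 3 / (1 + y) ≤ y ^ 2 / κ ^ 3 := by
    rw [div_div, div_le_div_iff₀ (by positivity) (by positivity)]
    have : 0 ≤ y ^ 2 * κ ^ 3 := by positivity
    nlinarith
  rcases le_or_gt y (2 * h) with h2 | h2
  · have h3 : y ^ 2 / κ ^ 3 ≤ 2 * h * (κ * y) / ν ^ 4 := by
      rw [div_le_div_iff₀ (by positivity) (by positivity)]
      have e1 : ν ^ 4 ≤ κ ^ 4 := by gcongr
      calc y ^ 2 * ν ^ 4 = y * y * ν ^ 4 := by ring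
        _ ≤ (2 * h) * y * κ ^ 4 := by gcongr
        _ = 2 * h * (κ * y) * κ ^ 3 := by ring
    have h4 : 2 * h * (κ * y) / ν ^ 4 ≤ h * (2 * (1 / ν ^ 4 + 1)) * (κ * y) := by
      have : 0 ≤ h * (κ * y) := by positivity
      have e : 2 * h * (κ * y) / ν ^ 4 = h * (κ * y) * (2 * (1 / ν ^ 4)) := by ring
      rw [e]
      nlinarith
    linarith
  · have h3 : mh h y = (y / h) ^ (1 / 4 : ℝ) := mh_eq hh0 h2.le
    have h4 : (mh h y) ^ 4 = y / h := by
      rw [h3, ← Real.rpow_natCast, ← Real.rpow_mul (by positivity)]; norm_num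
    have h5 : y / h ≤ κ ^ 4 := by
      rw [← h4]; gcongr; linarith
    have h6 : y ^ 2 / κ ^ 3 ≤ h * (κ * y) := by
      rw [div_le_iff₀ (by positivity)]
      rw [div_le_iff₀ hh0] at h5
      calc y ^ 2 = y * y := by ring
        _ ≤ y * (κ ^ 4 * h) := by gcongr
        _ = h * (κ * y) * κ ^ 3 := by ring
    have h7 : h * (κ * y) ≤ h * (2 * (1 / ν ^ 4 + 1)) * (κ * y) := by
      have h8 : 0 ≤ κ * y := by positivity
      have h9 : 0 < 1 / ν ^ 4 := by positivity
      have : h ≤ h * (2 * (1 / ν ^ 4 + 1)) := by nlinarith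
      exact mul_le_mul_of_nonneg_right this h8
    linarith

section gal

variable {S : Finset K3} {ν h R T : ℝ} {mm : ℝ → E3} {ψ : ℝ → K3 → E3} {a0 : K3 → E3}
  {a : ℝ → K3 → E3}

variable (hS : Fr S) (hν : 0 < ν) (hh : 1 ≤ h) (hR : 0 < R) (hT : 0 < T)
  (hmm : ∀ t, cj (mm t) = mm t) (G : Gal S ν (vs h R) T mm ψ a0 a) {φ : ℝ → ℝ}
  (hφc : Continuous φ) (hφ0 : ∀ t, 0 ≤ φ t)
  (hφ : ∀ t ∈ Icc 0 T, ∑ k ∈ S, ‖ψ t k‖ ^ 2 ≤ φ t ^ 2)
  (hXR : Real.sqrt (X2 S a0) + ∫ s in (0 : ℝ)..T, φ s ≤ R)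

include hS hν hh hmm G hφc hφ0 hφ hXR

theorem Gal.X_le_R {t : ℝ} (ht : t ∈ Icc 0 T) : X2 S (a t) ≤ R ^ 2 := by
  have h1 := G.X_le' hS hν (by linarith) hmm hφc hφ0 hφ le_rfl ht.1 ht.2
  have h2 : ∫ s in (0 : ℝ)..t, φ s ≤ ∫ s in (0 : ℝ)..T, φ s := by
    have i1 := hφc.intervalIntegrable (μ := volume) 0 t
    have i2 := hφc.intervalIntegrable (μ := volume) t T
    rw [← intervalIntegral.integral_add_adjacent_intervals i1 i2]
    have : 0 ≤ ∫ s in t..T, φ s := intervalIntegral.integral_nonneg ht.2 fun s _ => hφ0 s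
    linarith
  rw [G.init] at h1
  have h3 : Real.sqrt (X2 S (a t)) ≤ R := by linarith
  calc X2 S (a t) = Real.sqrt (X2 S (a t)) ^ 2 := (Real.sq_sqrt (X2_nonneg _ _)).symm
    _ ≤ R ^ 2 := by gcongr

include hR

theorem Gal.dissipation {t : ℝ} (ht : t ∈ Icc 0 T) :
    3 * Real.pi ^ 2 * (∫ s in t..T, (ν + mh h (Y2 S (a s))) * Y2 S (a s))
      ≤ (Real.sqrt (X2 S (a t)) + ∫ s in t..T, φ s) ^ 2 := by
  have hh0 : 0 < h := by linarith
  set M : ℝ := Real.sqrt (X2 S (a t)) + ∫ s in t..T, φ s with hM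
  have hsub : Icc t T ⊆ Icc 0 T := Icc_subset_Icc_left ht.1
  have cK : ContinuousOn (fun s => (ν + mh h (Y2 S (a s))) * Y2 S (a s)) (Icc 0 T) :=
    (continuousOn_const.add ((mh_continuous h).comp_continuousOn G.contY)).mul G.contY
  have hM0 : 0 ≤ ∫ s in t..T, φ s := intervalIntegral.integral_nonneg ht.2 fun s _ => hφ0 s
  have cX : ContinuousOn (fun s => Real.sqrt (X2 S (a s))) (Icc 0 T) := G.contX.sqrt
  -- differential inequality, in terms of the continuous function `√X`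
  have h1 := sub_le_int (F := fun r => -(6 * Real.pi ^ 2
      * ((ν + mh h (Y2 S (a r))) * Y2 S (a r))) + 2 * (Real.sqrt (X2 S (a r)) * φ r))
    ht.1 ht.2 le_rfl (fun r hr => G.derivX hS hmm hr)
    ((continuousOn_const.mul cK).neg.add (continuousOn_const.mul (cX.mul hφc.continuousOn))) (by
      intro r hr
      have e1 := dis_energy (S := S) (a := a r) hν hh0 hR
        (G.X_le_R hS hν hh hmm hφc hφ0 hφ hXR hr)
      have e2 : |∑ k ∈ S, (1 : ℝ) * (⟪a r k, ψ r k⟫_ℂ).re| ≤ Real.sqrt (X2 S (a r)) * φ r := by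
        refine sum_inner_le (wt := fun _ => 1) (fun _ _ => zero_le_one) (Real.sqrt_nonneg _)
          (hφ0 r) ?_ (hφ r hr)
        rw [Real.sq_sqrt (X2_nonneg S (a r))]
        simp [X2]
      simp only [one_mul] at e2
      have e3 := (le_abs_self _).trans e2
      have e4 := mul_le_mul_of_nonneg_left e1 (by positivity : (0:ℝ) ≤ 8 * Real.pi ^ 2)
      nlinarith)
  have hle : ∀ r ∈ Icc t T, Real.sqrt (X2 S (a r)) ≤ M := by
    intro r hr
    have e1 := G.X_le' hS hν hh0 hmm hφc hφ0 hφ ht.1 hr.1 hr.2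
    have e2 : ∫ s in t..r, φ s ≤ ∫ s in t..T, φ s := by
      rw [← intervalIntegral.integral_add_adjacent_intervals
        (hφc.intervalIntegrable (μ := volume) t r) (hφc.intervalIntegrable (μ := volume) r T)]
      have : 0 ≤ ∫ s in r..T, φ s := intervalIntegral.integral_nonneg hr.2 fun s _ => hφ0 s
      linarith
    linarith
  have i1 : IntervalIntegrable (fun r => -(6 * Real.pi ^ 2
      * ((ν + mh h (Y2 S (a r))) * Y2 S (a r)))) volume t T := by
    refine ContinuousOn.intervalIntegrable_of_Icc ht.2 ?_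
    exact ((continuousOn_const.mul cK).neg).mono hsub
  have i2 : IntervalIntegrable (fun r => 2 * (Real.sqrt (X2 S (a r)) * φ r)) volume t T := by
    refine ContinuousOn.intervalIntegrable_of_Icc ht.2 ?_
    exact (continuousOn_const.mul (cX.mul hφc.continuousOn)).mono hsub
  rw [intervalIntegral.integral_add i1 i2, intervalIntegral.integral_neg,
    intervalIntegral.integral_const_mul] at h1
  have h2 : ∫ r in t..T, 2 * (Real.sqrt (X2 S (a r)) * φ r) ≤ ∫ r in t..T, 2 * (M * φ r) := by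
    refine intervalIntegral.integral_mono_on ht.2 i2
      ((continuous_const.mul (continuous_const.mul hφc)).intervalIntegrable _ _) fun r hr => ?_
    have := hle r hr
    have := hφ0 r
    gcongr
  rw [intervalIntegral.integral_const_mul 2 (fun r => M * φ r),
    intervalIntegral.integral_const_mul M φ] at h2
  have h3 : 0 ≤ X2 S (a T) := X2_nonneg _ _
  have h4 : Real.sqrt (X2 S (a t)) ^ 2 = X2 S (a t) := Real.sq_sqrt (X2_nonneg _ _)
  have h5 : 0 ≤ Real.sqrt (X2 S (a t)) := Real.sqrt_nonneg _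
  nlinarith [sq_nonneg (Real.sqrt (X2 S (a t))), mul_nonneg h5 hM0, sq_nonneg (∫ s in t..T, φ s)]

/-- the enstrophy -/
theorem Gal.enstrophy {CA : ℝ} (hCA : 0 < CA)
    (hagm : ∀ a : K3 → E3, L1 S a ^ 4 ≤ CA * (Y2 S a * D2 S a)) {t : ℝ} (ht : t ∈ Icc 0 T) :
    Real.log (1 + Y2 S (a t)) + 4 * Real.pi ^ 2 * (∫ s in (0 : ℝ)..t,
      (ν + mh h (Y2 S (a s))) * D2 S (a s) / (1 + Y2 S (a s)))
    ≤ Real.log (1 + Y2 S a0) + (54 * CA + 1) * (h * (1 / ν ^ 4 + 1) * R ^ 2
      + (∫ s in (0 : ℝ)..T, φ s ^ 2) / ν) := by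
  have hh0 : 0 < h := by linarith
  have hT : 0 ≤ T := ht.1.trans ht.2
  have hpi := Real.pi_pos
  have hpi1 : (1 : ℝ) ≤ Real.pi ^ 2 := by nlinarith [Real.pi_gt_three]
  have cy := G.contY
  have cd := G.contD
  have cκ : ContinuousOn (fun s => ν + mh h (Y2 S (a s))) (Icc 0 T) :=
    continuousOn_const.add ((mh_continuous h).comp_continuousOn cy)
  have h1y : ∀ s, 0 < 1 + Y2 S (a s) := fun s => by have := Y2_nonneg S (a s); linarith
  have cq : ContinuousOn (fun s => (ν + mh h (Y2 S (a s))) * D2 S (a s) / (1 + Y2 S (a s)))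
      (Icc 0 T) := (cκ.mul cd).div (continuousOn_const.add cy) fun s _ => (h1y s).ne'
  have cK : ContinuousOn (fun s => (ν + mh h (Y2 S (a s))) * Y2 S (a s)) (Icc 0 T) := cκ.mul cy
  set c1 : ℝ := 27 * CA / Real.pi ^ 2 * (h * (2 * (1 / ν ^ 4 + 1))) with hc1
  have hc10 : 0 ≤ c1 := by positivity
  have h1 := sub_le_int (T := T) (F := fun r => -(4 * Real.pi ^ 2
      * ((ν + mh h (Y2 S (a r))) * D2 S (a r) / (1 + Y2 S (a r))))
      + (c1 * ((ν + mh h (Y2 S (a r))) * Y2 S (a r)) + φ r ^ 2 / (Real.pi ^ 2 * ν)))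
    le_rfl ht.1 ht.2
    (fun r hr => ((G.derivY hS hmm hr).const_add 1).log (h1y r).ne')
    ((continuousOn_const.mul cq).neg.add ((continuousOn_const.mul cK).add
      ((hφc.continuousOn.pow 2).div_const _))) (by
      intro r hr
      set y := Y2 S (a r) with hy
      set d := D2 S (a r) with hd
      have hy0 : 0 ≤ y := Y2_nonneg S (a r)
      have hd0 : 0 ≤ d := D2_nonneg S (a r)
      have hm := mh_nonneg hh0 hy0
      set κ := ν + mh h y with hκ
      have hκν : ν ≤ κ := by linarith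
      have hκ0 : 0 < κ := by linarith
      have e1 := dis_enstrophy (S := S) (a := a r) hν hh0 hR
        (G.X_le_R hS hν hh hmm hφc hφ0 hφ hXR hr)
      rw [← hy, ← hd, ← hκ] at e1
      -- force
      have e2 : |∑ k ∈ S, sq k * (⟪a r k, ψ r k⟫_ℂ).re| ≤ Real.sqrt d * φ r := by
        refine sum_inner_le (wt := fun k => sq k) (fun k _ => sq_nonneg' k) (Real.sqrt_nonneg _)
          (hφ0 r) ?_ (hφ r hr)
        rw [Real.sq_sqrt hd0]
        exact le_rfl
      have e2' : 2 * ∑ k ∈ S, sq k * (⟪a r k, ψ r k⟫_ℂ).re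
          ≤ Real.pi ^ 2 * κ * d + φ r ^ 2 / (Real.pi ^ 2 * ν) := by
        have e3 := (le_abs_self _).trans e2
        have e4 : 2 * (Real.sqrt d * φ r) ≤ Real.pi ^ 2 * κ * d + φ r ^ 2 / (Real.pi ^ 2 * κ) := by
          have hs : Real.sqrt d ^ 2 = d := Real.sq_sqrt hd0
          set g := Real.pi ^ 2 * κ with hg
          have hg0 : 0 < g := by positivity
          have e5 : g * d + φ r ^ 2 / g - 2 * (Real.sqrt d * φ r)
              = (g * Real.sqrt d - φ r) ^ 2 / g := by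
            field_simp
            rw [← hs]
            ring_nf
            rw [Real.sqrt_sq (Real.sqrt_nonneg d)]
          have e6 : 0 ≤ (g * Real.sqrt d - φ r) ^ 2 / g := by positivity
          linarith
        have e5 : φ r ^ 2 / (Real.pi ^ 2 * κ) ≤ φ r ^ 2 / (Real.pi ^ 2 * ν) := by gcongr
        linarith
      -- nonlinear term
      have e7 : |∑ k ∈ S, sq k * (⟪a r k, Nl S (a r) k⟫_ℂ).re|
          ≤ Real.sqrt d * (2 * Real.pi * (L1 S (a r) * Real.sqrt y)) := by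
        refine sum_inner_le (wt := fun k => sq k) (fun k _ => sq_nonneg' k) (Real.sqrt_nonneg _)
          ?_ ?_ ?_
        · have : 0 ≤ L1 S (a r) := Finset.sum_nonneg fun _ _ => norm_nonneg _
          positivity
        · rw [Real.sq_sqrt hd0]
          exact le_rfl
        · have := young S S (a r) (G.fld r hr).supp
          refine this.trans (le_of_eq ?_)
          rw [mul_pow (2 * Real.pi) (L1 S (a r) * Real.sqrt y), mul_pow (L1 S (a r)),
            Real.sq_sqrt hy0]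
      have e8 : Real.sqrt d * (L1 S (a r) * Real.sqrt y)
          ≤ CA ^ (1 / 4 : ℝ) * (y * d) ^ (3 / 4 : ℝ) := by
        have f1 : L1 S (a r) ≤ (CA * (y * d)) ^ (1 / 4 : ℝ) := by
          have f0 : 0 ≤ L1 S (a r) := Finset.sum_nonneg fun _ _ => norm_nonneg _
          have := hagm (a r)
          calc L1 S (a r) = (L1 S (a r) ^ 4) ^ (1 / 4 : ℝ) := by
                rw [← Real.rpow_natCast, ← Real.rpow_mul f0]; norm_num
            _ ≤ (CA * (y * d)) ^ (1 / 4 : ℝ) := by gcongr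
        calc Real.sqrt d * (L1 S (a r) * Real.sqrt y)
            = L1 S (a r) * (Real.sqrt y * Real.sqrt d) := by ring
          _ ≤ (CA * (y * d)) ^ (1 / 4 : ℝ) * (Real.sqrt y * Real.sqrt d) := by gcongr
          _ = _ := by
            rw [← Real.sqrt_mul hy0, Real.sqrt_eq_rpow, Real.mul_rpow hCA.le (by positivity),
              mul_assoc]
            congr 1
            rcases eq_or_lt_of_le (mul_nonneg hy0 hd0) with h0 | h0
            · rw [← h0]; norm_num
            · rw [← Real.rpow_add h0]; norm_num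
      have e9 : -(2 * ∑ k ∈ S, sq k * (⟪a r k, Nl S (a r) k⟫_ℂ).re)
          ≤ Real.pi ^ 2 * κ * d + 27 * CA / Real.pi ^ 2 * (y ^ 3 / κ ^ 3) := by
        have f1 := (neg_le_abs _).trans e7
        have f2 : Real.sqrt d * (2 * Real.pi * (L1 S (a r) * Real.sqrt y))
            ≤ 2 * Real.pi * (CA ^ (1 / 4 : ℝ) * (y * d) ^ (3 / 4 : ℝ)) := by
          calc _ = 2 * Real.pi * (Real.sqrt d * (L1 S (a r) * Real.sqrt y)) := by ring
            _ ≤ _ := by gcongr
        have f3 := young34 (b := 4 * Real.pi * CA ^ (1 / 4 : ℝ)) (by positivity) hy0 hd0 hκ0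
        have f4 : 27 * (4 * Real.pi * CA ^ (1 / 4 : ℝ)) ^ 4 / (256 * Real.pi ^ 6)
            = 27 * CA / Real.pi ^ 2 := by
          have : (CA ^ (1 / 4 : ℝ)) ^ 4 = CA := by
            rw [← Real.rpow_natCast, ← Real.rpow_mul hCA.le]; norm_num
          rw [mul_pow, mul_pow, this]
          field_simp
          norm_num
        rw [f4] at f3
        nlinarith
      have e10 : -(2 * ∑ k ∈ S, sq k * (⟪a r k, Nl S (a r) k⟫_ℂ).re)
          - (8 * Real.pi ^ 2 * ∑ k ∈ S, (ν + vs h R k y) * sq k ^ 2 * ‖a r k‖ ^ 2)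
          + 2 * ∑ k ∈ S, sq k * (⟪a r k, ψ r k⟫_ℂ).re
          ≤ -(4 * Real.pi ^ 2 * (κ * d)) + 27 * CA / Real.pi ^ 2 * (y ^ 3 / κ ^ 3)
            + φ r ^ 2 / (Real.pi ^ 2 * ν) := by
        have f1 := mul_le_mul_of_nonneg_left e1 (by positivity : (0:ℝ) ≤ 8 * Real.pi ^ 2)
        have f2 : 0 ≤ Real.pi ^ 2 * (κ * d) := by positivity
        nlinarith
      have e11 := growth hν hh hy0
      rw [← hκ] at e11
      have hy1 : 0 < 1 + y := by linarith
      refine (div_le_div_of_nonneg_right e10 hy1.le).trans ?_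
      have e12 : φ r ^ 2 / (Real.pi ^ 2 * ν) / (1 + y) ≤ φ r ^ 2 / (Real.pi ^ 2 * ν) :=
        div_le_self (by positivity) (by linarith)
      have e13 : 27 * CA / Real.pi ^ 2 * (y ^ 3 / κ ^ 3) / (1 + y) ≤ c1 * (κ * y) := by
        rw [mul_div_assoc, hc1, mul_assoc]
        gcongr
      rw [add_div, add_div, neg_div, mul_div_assoc]
      linarith)
  have hsub : Icc 0 t ⊆ Icc 0 T := Icc_subset_Icc_right ht.2
  have i1 : IntervalIntegrable (fun r => -(4 * Real.pi ^ 2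
      * ((ν + mh h (Y2 S (a r))) * D2 S (a r) / (1 + Y2 S (a r))))) volume 0 t :=
    ContinuousOn.intervalIntegrable_of_Icc ht.1 ((continuousOn_const.mul cq).neg.mono hsub)
  have i2 : IntervalIntegrable (fun r => c1 * ((ν + mh h (Y2 S (a r))) * Y2 S (a r)))
      volume 0 t :=
    ContinuousOn.intervalIntegrable_of_Icc ht.1 ((continuousOn_const.mul cK).mono hsub)
  have i3 : IntervalIntegrable (fun r => φ r ^ 2 / (Real.pi ^ 2 * ν)) volume 0 t :=
    ((hφc.pow 2).div_const _).intervalIntegrable _ _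
  rw [intervalIntegral.integral_add i1 (i2.add i3), intervalIntegral.integral_add i2 i3,
    intervalIntegral.integral_neg, intervalIntegral.integral_const_mul,
    intervalIntegral.integral_const_mul, intervalIntegral.integral_div] at h1
  -- the two integrals on the right
  have h2 : ∫ r in (0 : ℝ)..t, (ν + mh h (Y2 S (a r))) * Y2 S (a r) ≤ R ^ 2 / (3 * Real.pi ^ 2) := by
    have e1 := G.dissipation hS hν hh hR hmm hφc hφ0 hφ hXR (t := 0) ⟨le_rfl, hT⟩
    rw [G.init] at e1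
    have e2 : (Real.sqrt (X2 S a0) + ∫ s in (0 : ℝ)..T, φ s) ^ 2 ≤ R ^ 2 := by
      have : 0 ≤ ∫ s in (0 : ℝ)..T, φ s :=
        intervalIntegral.integral_nonneg hT fun s _ => hφ0 s
      have := Real.sqrt_nonneg (X2 S a0)
      gcongr
    have e3 : ∫ r in (0 : ℝ)..t, (ν + mh h (Y2 S (a r))) * Y2 S (a r)
        ≤ ∫ r in (0 : ℝ)..T, (ν + mh h (Y2 S (a r))) * Y2 S (a r) := by
      rw [← intervalIntegral.integral_add_adjacent_intervals (b := t)
        (ContinuousOn.intervalIntegrable_of_Icc ht.1 (cK.mono hsub))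
        (ContinuousOn.intervalIntegrable_of_Icc ht.2 (cK.mono (Icc_subset_Icc_left ht.1)))]
      have : 0 ≤ ∫ r in t..T, (ν + mh h (Y2 S (a r))) * Y2 S (a r) :=
        intervalIntegral.integral_nonneg ht.2 fun s _ => mul_nonneg
          (by have := mh_nonneg hh0 (Y2_nonneg S (a s)); linarith) (Y2_nonneg _ _)
      linarith
    rw [le_div_iff₀ (by positivity)]
    have e4 := mul_le_mul_of_nonneg_left e3 (by positivity : (0:ℝ) ≤ 3 * Real.pi ^ 2)
    linarith
  have h3 : ∫ r in (0 : ℝ)..t, φ r ^ 2 ≤ ∫ r in (0 : ℝ)..T, φ r ^ 2 := by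
    have j1 : IntervalIntegrable (fun r => φ r ^ 2) volume 0 t :=
      (hφc.pow 2).intervalIntegrable _ _
    have j2 : IntervalIntegrable (fun r => φ r ^ 2) volume t T :=
      (hφc.pow 2).intervalIntegrable _ _
    rw [← intervalIntegral.integral_add_adjacent_intervals j1 j2]
    have : 0 ≤ ∫ s in t..T, φ s ^ 2 :=
      intervalIntegral.integral_nonneg ht.2 fun s _ => sq_nonneg _
    linarith
  rw [G.init] at h1
  have h4 : c1 * (∫ r in (0 : ℝ)..t, (ν + mh h (Y2 S (a r))) * Y2 S (a r))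
      ≤ 54 * CA * (h * (1 / ν ^ 4 + 1) * R ^ 2) := by
    refine (mul_le_mul_of_nonneg_left h2 hc10).trans ?_
    have e : c1 * (R ^ 2 / (3 * Real.pi ^ 2))
        = 54 * CA * (h * (1 / ν ^ 4 + 1) * R ^ 2) * (1 / (3 * Real.pi ^ 4)) := by
      rw [hc1]; field_simp; ring
    rw [e]
    refine mul_le_of_le_one_right (by positivity) ?_
    rw [div_le_one (by positivity)]
    nlinarith
  have h5 : (∫ r in (0 : ℝ)..t, φ r ^ 2) / (Real.pi ^ 2 * ν)
      ≤ (∫ s in (0 : ℝ)..T, φ s ^ 2) / ν := by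
    have hpos : 0 ≤ ∫ s in (0 : ℝ)..T, φ s ^ 2 :=
      intervalIntegral.integral_nonneg hT fun s _ => sq_nonneg _
    calc (∫ r in (0 : ℝ)..t, φ r ^ 2) / (Real.pi ^ 2 * ν)
        ≤ (∫ s in (0 : ℝ)..T, φ s ^ 2) / (Real.pi ^ 2 * ν) := by gcongr
      _ ≤ (∫ s in (0 : ℝ)..T, φ s ^ 2) / (1 * ν) := by gcongr
      _ = _ := by rw [one_mul]
  have h6 : 0 ≤ h * (1 / ν ^ 4 + 1) * R ^ 2 := by positivity
  have h7 : 0 ≤ (∫ s in (0 : ℝ)..T, φ s ^ 2) / ν :=
    div_nonneg (intervalIntegral.integral_nonneg hT fun s _ => sq_nonneg _) hν.le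
  nlinarith

end gal

/-- A priori estimates for the Galerkin system. -/
theorem est (hagm : S_agmon) : S_est := by
  obtain ⟨CA, hCA, h⟩ := hagm
  refine ⟨54 * CA + 1, by positivity, ?_⟩
  intro S hS ν hp R T hν hh hR hT mm hmm ψ a0 a G φ hφc hφ0 hφ hXR
  refine ⟨fun t ht => ?_, fun t ht => G.dissipation hS hν hh hR hmm hφc hφ0 hφ hXR ht,
    fun t ht => G.enstrophy hS hν hh hR hmm hφc hφ0 hφ hXR hCA (h S hS.zero) ht⟩
  have := G.X_le hS hν (by linarith) hmm hφc hφ0 hφ le_rfl ht.1 ht.2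
  rwa [G.init, sub_zero] at this

end Pool.Agent.W785.DF
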