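import Mathlib
import Pool.Agent.W785.DF.Asm6
import Pool.Agent.W785.DF.Est3
import Pool.Agent.W785.DF.Ode
import Pool.Agent.W646.DF.Agmon
import Pool.Agent.W453.P2
import Pool.Agent.W801.DF.Tail
import Pool.Agent.W392.DFForce
import Pool.Agent.W641.DFConv
import Pool.Agent.W641.DFCost
import Pool.Agent.W641.DFBes
import Pool.Agent.W809.DFTrig
import Pool.Agent.W933.DFRes
import Pool.Agent.W38.DFTime
import Pool.Agent.W378.DfInit

/-!
The main theorem.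
-/

open MeasureTheory Set Filter
open scoped ContDiff InnerProductSpace ENNReal Topology

namespace Pool.Agent.W785.DF

open H459R3.NS (V K3 Per pd fr ee cube SP)

/-- the cost inequality for one pair -/
def CostBody (ν R q s C δ : ℝ) : Prop := ∀ (h : ℝ), 1 ≤ h → ∀ (S : Finset K3),
  (0 : K3) ∉ S → ∀ a : K3 → E3,
  (∑ k ∈ S, (1 + sq k) ^ (-s) * ‖(vs h R k (Y2 S a) * (4 * Real.pi ^ 2 * sq k)) • a k‖ ^ 2)
      ^ (q / 2)
    ≤ C * h ^ (-δ) * ((ν + mh h (Y2 S a)) * D2 S a / (1 + Y2 S a) / h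
      + (ν + mh h (Y2 S a)) * Y2 S a)

/-- the inequality for the nonlinear term for one exponent -/
def ConvBody (s C : ℝ) : Prop := ∀ (S G : Finset K3) (a : K3 → E3),
  (0 : K3) ∉ S → (∀ k, k ∉ S → a k = 0) →
  ∑ k ∈ G, (1 + sq k) ^ (-s) * ‖Nl S a k‖ ^ 2 ≤ C * Y2 S a ^ 2

theorem smooth_slice {f : ℝ → V → V} (hf : IsForce f) {t : ℝ} (ht : 0 ≤ t) :
    ContDiff ℝ ∞ (f t) := by
  rw [← contDiffOn_univ]
  exact hf.smooth.comp (contDiff_const.prodMk contDiff_id).contDiffOn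
    (fun x _ => ⟨ht, mem_univ _⟩)

section

variable {ν T0 δ h R : ℝ} {S : Finset K3} {f : ℝ → V → V} {u0 : V → V}
  {mm : ℝ → E3} {ψ : ℝ → K3 → E3} {a0 : K3 → E3} {a : ℝ → K3 → E3} {r : V → V}
  {q s s' C1 δ1 C' M e e' KB Cχ A0 Cf CE ε : ℝ}

/-- The estimate of the additional force for one pair of exponents. -/
theorem Dat.pair (D : Dat ν T0 e' S (vs h R) f u0 mm ψ a0 a r)
    (p : Par q s s' C1 δ1 C' M e e' KB Cχ) (htrig : S_trig)
    (hgrad : S_grad) (hbes : S_bes) (hrho : S_rho) (htime : S_time)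
    (hh : 1 ≤ h) (hCf : 0 < Cf)
    (hcost : CostBody ν R q s C1 δ1) (hconv : ConvBody s' C')
    (hT0 : 1 ≤ T0) (hCfe : Cf / (1 + T0) ≤ e)
    (hlam : ∀ k, k ∉ S → k ≠ 0 → (1 + sq k) ^ (-(s - s')) ≤ e' ^ 2)
    (hf1 : ∀ t, 0 ≤ t → ∀ G : Finset K3, ∑ k ∈ G, ‖frv (f t) k‖ ^ 2 ≤ (Cf / (1 + t) ^ 2) ^ 2)
    (hf2 : ∀ t ∈ Icc 0 (T0 + 2), ∀ G : Finset K3,
      ∑ k ∈ G, ‖ψ t k - frv (f t) k‖ ^ 2 ≤ e' ^ 2)
    (hCχ : ∀ t, |deriv cut t| ≤ Cχ)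
    (hX : ∀ t, T0 ≤ t → t ≤ T0 + 2 → Real.sqrt (X2 S (a t)) ≤ e)
    (hM : ∀ t ∈ Icc 0 (T0 + 2), Y2 S (a t) ≤ M)
    (hB : ∀ t ∈ Icc 0 (T0 + 2), ∀ G : Finset K3, ∑ k ∈ G,
      ‖frv (rho ν (cut t) (deriv cut t) (TP (insert 0 S) (bt T0 mm a t)) r) k‖ ^ 2
        ≤ (KB * e') ^ 2)
    {K4 : ℝ} (hK4 : ∫ t in (0 : ℝ)..(T0 + 1), Fc ν h S a t ≤ K4)
    (hYe : ∫ t in T0..(T0 + 1), Y2 S (a t) ≤ e / ν)
    (b1 : (70 : ℝ) ^ (q / 2) * C1 * K4 * h ^ (-δ1) ≤ ε / 4)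
    (b2 : (70 : ℝ) ^ (q / 2) * (K2 q Cχ + K3c q C' M / ν) * e ≤ ε / 4)
    (b3 : (70 : ℝ) ^ (q / 2) * K1 q C' M KB * (T0 + 1) * e' ≤ ε / 4)
    (b4 : e ≤ ε / 4) :
    ∫⁻ t in Ioi 0, sobNorm (-s) (resid ν f (uu T0 S mm a r) (fun t => tp S (pt T0 S ψ a t)) t) ^ q
      ≤ ENNReal.ofReal ε := by
  have hν := D.hν
  have hh0 : 0 < h := by linarith
  have hq := p.hq
  have he' := p.pe'
  have he := p.pe
  have hC1 := p.pC1
  have hC' := p.pC'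
  have hKB := p.pKB
  have hM1 := p.pM
  have hCχ0 := p.pCχ
  have hsub : Icc 0 (T0 + 1) ⊆ Icc 0 (T0 + 2) := Icc_subset_Icc_right (by linarith)
  have hYc := D.gal.contY.mono hsub
  have hDc := D.gal.contD.mono hsub
  have hh1 : 0 < h ^ (-δ1) := by positivity
  have h70 : (0 : ℝ) < 70 ^ (q / 2) := by positivity
  have k1 : 0 ≤ K1 q C' M KB := by unfold K1; positivity
  have k2 : 0 ≤ K2 q Cχ := by unfold K2; positivity
  have k3 : 0 ≤ K3c q C' M := by unfold K3c; positivity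
  have hF : ∀ t, T0 < t → Cf / (1 + t) ^ 2 ≤ e := by
    intro t ht
    have h1 : 1 + T0 ≤ (1 + t) ^ 2 := by nlinarith
    calc Cf / (1 + t) ^ 2 ≤ Cf / (1 + T0) := by gcongr
      _ ≤ e := hCfe
  have hpow : ∀ t ∈ Icc 0 (T0 + 1), _ := fun t ht =>
    D.power htrig hgrad hbes hrho htime p (t := t) ht.1 ht.2 (F := Cf / (1 + t) ^ 2) (η := e')
      (fun G => hconv S G (a t) D.hS.zero (D.gal.fld t (hsub ht)).supp) hlam
      (by positivity) (hF t) (hf1 t ht.1) he'.le le_rfl (hf2 t (hsub ht)) hCχ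
      (fun hlt => hX t hlt.le (by linarith [ht.2])) (hM t (hsub ht))
      (hcost h hh S D.hS.zero (a t)) (hB t (hsub ht))
  have key := int_split (G := fun t => sobNorm (-s)
      (resid ν f (uu T0 S mm a r) (fun t => tp S (pt T0 S ψ a t)) t) ^ q) (T0 := T0)
    (α := (70 : ℝ) ^ (q / 2) * (K1 q C' M KB * e')) (β := (70 : ℝ) ^ (q / 2) * (C1 * h ^ (-δ1)))
    (γ := (70 : ℝ) ^ (q / 2) * (K2 q Cχ * e)) (κ := (70 : ℝ) ^ (q / 2) * K3c q C' M) (C := Cf)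
    (F := Fc ν h S a) (Y := fun t => Y2 S (a t)) (by linarith) (by positivity) (by positivity)
    (by positivity) (by positivity) hCf.le (cont_Fc hYc hDc) (fun t _ => Fc_nonneg hν hh0 a t)
    hYc (fun t _ => Y2_nonneg S (a t))
    (fun t ht => (hpow t ⟨ht.1.le, by linarith [ht.2]⟩).1 ht.2)
    (fun t ht => (hpow t ⟨by linarith [ht.1], ht.2⟩).2 ht.1)
    (fun t ht => by
      have ht' : T0 + 1 < t := ht
      have e1 : resid ν f (uu T0 S mm a r) (fun t => tp S (pt T0 S ψ a t)) t = -f t := by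
        funext x
        exact D.late htime hT0 ht'.le x
      beta_reduce
      rw [e1]
      have ht0 : 0 ≤ t := by linarith
      have e2 : ∀ G : Finset K3, ∑ k ∈ G, (1 + sq k) ^ (-s) * ‖frv (-f t) k‖ ^ 2
          ≤ (Cf / (1 + t) ^ 2) ^ 2 := by
        intro G
        refine (sumw_le (by linarith [p.hs, p.hss]) G _).trans ?_
        refine (le_of_eq ?_).trans (hf1 t ht0 G)
        refine Finset.sum_congr rfl fun k _ => ?_
        rw [hbes.2.2, norm_neg]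
      have hpos : 0 < Cf / (1 + t) ^ 2 := by positivity
      refine (sob_le (q := q) (by linarith) (by positivity) e2).trans
        (ENNReal.ofReal_le_ofReal ?_)
      rw [sqpow hpos.le]
      exact pow_le_self' hpos ((hF t (by linarith)).trans p.pe1) hq)
  refine key.trans (ENNReal.ofReal_le_ofReal ?_)
  have c1 : (70 : ℝ) ^ (q / 2) * (K1 q C' M KB * e') * (T0 + 1) ≤ ε / 4 := by
    refine le_trans (le_of_eq ?_) b3
    ring
  have c2 : (70 : ℝ) ^ (q / 2) * (C1 * h ^ (-δ1)) * (∫ t in (0 : ℝ)..(T0 + 1), Fc ν h S a t)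
      ≤ ε / 4 := by
    calc (70 : ℝ) ^ (q / 2) * (C1 * h ^ (-δ1)) * (∫ t in (0 : ℝ)..(T0 + 1), Fc ν h S a t)
        ≤ (70 : ℝ) ^ (q / 2) * (C1 * h ^ (-δ1)) * K4 := by gcongr
      _ = (70 : ℝ) ^ (q / 2) * C1 * K4 * h ^ (-δ1) := by ring
      _ ≤ _ := b1
  have c3 : (70 : ℝ) ^ (q / 2) * (K2 q Cχ * e)
      + (70 : ℝ) ^ (q / 2) * K3c q C' M * (∫ t in T0..(T0 + 1), Y2 S (a t)) ≤ ε / 4 := by
    calc (70 : ℝ) ^ (q / 2) * (K2 q Cχ * e)
        + (70 : ℝ) ^ (q / 2) * K3c q C' M * (∫ t in T0..(T0 + 1), Y2 S (a t))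
        ≤ (70 : ℝ) ^ (q / 2) * (K2 q Cχ * e) + (70 : ℝ) ^ (q / 2) * K3c q C' M * (e / ν) := by
          gcongr
      _ = (70 : ℝ) ^ (q / 2) * (K2 q Cχ + K3c q C' M / ν) * e := by ring
      _ ≤ _ := b2
  have c4 : Cf / (1 + (T0 + 1)) ≤ ε / 4 := by
    calc Cf / (1 + (T0 + 1)) ≤ Cf / (1 + T0) := by
          gcongr
          linarith
      _ ≤ e := hCfe
      _ ≤ _ := b4
  linarith

end

end Pool.Agent.W785.DF
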