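import Mathlib
import Pool.Agent.W785.DF.Main

/-!
The main theorem: choice of the parameters.
-/

open MeasureTheory Set Filter
open scoped ContDiff InnerProductSpace ENNReal Topology

namespace Pool.Agent.W785.DF

open H459R3.NS (V K3 Per pd fr ee cube SP)

theorem half_lt {q s : ℝ} (hq : 1 ≤ q) (hs : 3 / 2 - 1 / q < s) : 1 / 2 < s := by
  have : 1 / q ≤ 1 := by rw [div_le_one (by linarith)]; exact hq
  linarith

theorem dense {ν : ℝ} (hν : 0 < ν) {u0 : V → V} (hu0 : ContDiff ℝ ∞ u0) (hper : Per u0)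
    (hdiv : ∀ x, ∑ i, pd i (fun y => u0 y i) x = 0) {f : ℝ → V → V} (hf : IsForce f)
    (P : Finset (ℝ × ℝ))
    (hP : ∀ p ∈ P, 1 ≤ p.1 ∧ 5 / 2 - 5 / (2 * p.1) ≤ p.2 ∧ 3 / 2 - 1 / p.1 < p.2)
    {ε : ℝ} (hε : 0 < ε) :
    ∃ g : ℝ → V → V, IsForce g ∧
      (∀ p ∈ P, ∫⁻ t in Ioi 0, sobNorm (-p.2) (g t) ^ p.1 ≤ ENNReal.ofReal ε) ∧
      ∃ (u : ℝ → V → V) (p : ℝ → V → ℝ), IsAdmissible ν u0 (fun t x => f t x + g t x) u p := by
  classical
  obtain ⟨htrig, hgrad⟩ := Pool.Agent.W809.DFTrig.main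
  obtain ⟨hbes, hrho0⟩ := W641Bes.main
  have hrho : S_rho := hrho0 htrig
  have htime : S_time := Pool.Agent.W38.DFTime.main
  obtain ⟨hinit, hdecay⟩ := Pool.Agent.W378.DFI.main
  obtain ⟨hfb, hforce⟩ := Pool.Agent.W392.DFForce.main
  obtain ⟨A0, hA0, hA1, hA2, hA3⟩ := hinit u0 hu0 hper
  obtain ⟨Cf, hCf, hf1'⟩ := hfb f hf
  have hf1 : ∀ t, 0 ≤ t → ∀ G : Finset K3, ∑ k ∈ G, ‖frv (f t) k‖ ^ 2
      ≤ (Cf / (1 + t) ^ 2) ^ 2 := by
    intro t ht G
    refine le_trans (le_of_eq ?_) (hf1' t ht G)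
    exact Finset.sum_congr rfl fun k _ => norm_frv _ _
  obtain ⟨CE, hCE, hest⟩ : ∃ C : ℝ, 0 < C ∧ EstBody C := est Pool.Agent.W646.DF.Agmon.main
  obtain ⟨Cρ, hCρ, hrho'⟩ := id hrho
  obtain ⟨Cχ, hCχ0, hCχ⟩ := cut_deriv_bound
  obtain ⟨R, hR⟩ : ∃ R, R = Real.sqrt A0 + Cf + 1 := ⟨_, rfl⟩
  have hsA : 0 < Real.sqrt A0 := Real.sqrt_pos.mpr hA0
  have hR0 : 0 < R := by rw [hR]; positivity
  obtain ⟨A, hA⟩ : ∃ A, A = AA ν A0 Cf CE R := ⟨_, rfl⟩
  have hApos : 0 < A := by rw [hA]; exact AA_pos hν hA0 hCE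
  obtain ⟨K4, hK4⟩ : ∃ K4, K4 = A / (4 * Real.pi ^ 2) + R ^ 2 / (3 * Real.pi ^ 2) := ⟨_, rfl⟩
  -- constants for the pairs
  have hc : ∀ p ∈ P, ∃ C δ : ℝ, 0 < C ∧ 0 < δ ∧ CostBody ν R p.1 p.2 C δ := fun p hp =>
    W641Cost.main ν R p.1 p.2 hν hR0 (hP p hp).1 (hP p hp).2.1 (hP p hp).2.2
  choose! C1 δ1 hC1 hδ1 hcost using hc
  have hv : ∀ p ∈ P, ∃ C : ℝ, 0 < C ∧ ConvBody ((p.2 + 1 / 2) / 2) C := fun p hp => by
    have := half_lt (hP p hp).1 (hP p hp).2.2
    exact W641Conv.main ((p.2 + 1 / 2) / 2) (by linarith)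
  choose! C' hC' hconv using hv
  -- choice of `h`
  obtain ⟨h, hh1, hh⟩ := choose_h P (fun p => (70 : ℝ) ^ (p.1 / 2) * C1 p * K4) δ1 hδ1
    (show 0 < ε / 4 by positivity)
  have hh0 : 0 < h := by linarith
  obtain ⟨M, hM⟩ : ∃ M, M = Real.exp (A * h) := ⟨_, rfl⟩
  have hM1 : 1 ≤ M := by rw [hM]; exact Real.one_le_exp (by positivity)
  obtain ⟨KB, hKB⟩ : ∃ KB, KB = Cρ * (Cχ + ν + 1 + 2 * R + Real.sqrt M) := ⟨_, rfl⟩
  have hKB0 : 0 < KB := by rw [hKB]; positivity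
  -- choice of `e`
  have hC'pos : ∀ p ∈ P, 0 ≤ K3c p.1 (C' p) M := fun p hp => by
    have := hC' p hp
    unfold K3c
    positivity
  have hK2pos : ∀ q : ℝ, 0 ≤ K2 q Cχ := fun q => by unfold K2; positivity
  obtain ⟨ea, hea0, hea1, hea⟩ := choose_e P (fun p => (70 : ℝ) ^ (p.1 / 2)
    * (K2 p.1 Cχ + K3c p.1 (C' p) M / ν)) (show 0 < ε / 4 by positivity)
  obtain ⟨e, he⟩ : ∃ e, e = min ea (ε / 4) := ⟨_, rfl⟩
  have he0 : 0 < e := by rw [he]; exact lt_min hea0 (by positivity)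
  have hea' : e ≤ ea := by rw [he]; exact min_le_left _ _
  have he4 : e ≤ ε / 4 := by rw [he]; exact min_le_right _ _
  have he1 : e ≤ 1 := hea'.trans hea1
  -- choice of `T0`
  obtain ⟨T1, hT1, hdec⟩ := hdecay ν (Real.sqrt A0) Cf (e / 2) hν hsA hCf (by positivity)
  obtain ⟨T0, hT0⟩ : ∃ T0, T0 = max 1 (max T1 (Cf / e)) := ⟨_, rfl⟩
  have hT01 : 1 ≤ T0 := by rw [hT0]; exact le_max_left _ _
  have hT0T : T1 ≤ T0 := by rw [hT0]; exact (le_max_left _ _).trans (le_max_right _ _)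
  have hT0C : Cf / e ≤ T0 := by rw [hT0]; exact (le_max_right _ _).trans (le_max_right _ _)
  have hCfe : Cf / (1 + T0) ≤ e := by
    rw [div_le_iff₀ (by linarith)]
    rw [div_le_iff₀ he0] at hT0C
    nlinarith
  have hT : 0 < T0 + 2 := by linarith
  -- choice of `e'`
  obtain ⟨eb, heb0, heb1, heb⟩ := choose_e P (fun p => (70 : ℝ) ^ (p.1 / 2)
    * K1 p.1 (C' p) M KB * (T0 + 1)) (show 0 < ε / 4 by positivity)
  obtain ⟨e', he'⟩ : ∃ e', e' = min eb (e / (2 * (T0 + 2))) := ⟨_, rfl⟩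
  have he'0 : 0 < e' := by rw [he']; exact lt_min heb0 (by positivity)
  have he'b : e' ≤ eb := by rw [he']; exact min_le_left _ _
  have he'1 : e' ≤ 1 := he'b.trans heb1
  have he'T : e' * (T0 + 2) ≤ e / 2 := by
    have h1 : e' ≤ e / (2 * (T0 + 2)) := by rw [he']; exact min_le_right _ _
    rw [le_div_iff₀ (by positivity)] at h1
    linarith
  -- choice of `S`
  have htl : ∀ i : Fin 3, ∃ S0 : Finset K3, ∀ S : Finset K3, S0 ⊆ S → ∀ r : V → ℝ,
      (∀ x, r x = u0 x i - (∑ k ∈ S, fr (fun x => u0 x i) k * ee k x).re) →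
      ContDiff ℝ ∞ r ∧ Per r ∧ ∀ x, |r x| ≤ e' ∧ (∀ j, |pd j r x| ≤ e') ∧
      |∑ j, pd j (pd j r) x| ≤ e' := fun i =>
    Pool.Agent.W801.DF.main (fun x => u0 x i) (comp_contDiff hu0 i)
      (fun j x => congrFun (hper j x) i) e' he'0
  choose Stl hStl using htl
  obtain ⟨Sf, hSf⟩ := hforce f hf (T0 + 2) e' hT he'0
  have hl : ∀ p ∈ P, ∃ S0 : Finset K3, ∀ k, k ∉ S0 →
      (1 + sq k) ^ (-(p.2 - (p.2 + 1 / 2) / 2)) ≤ e' ^ 2 := fun p hp => by
    have := half_lt (hP p hp).1 (hP p hp).2.2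
    exact lam_small (by linarith) (by positivity)
  choose! Sl hSl using hl
  obtain ⟨S, hS, hU⟩ := exists_S ((Finset.univ.biUnion Stl) ∪ Sf ∪ P.biUnion Sl)
  have hU1 : ∀ i, Stl i ⊆ insert 0 S := fun i =>
    ((Finset.subset_biUnion_of_mem Stl (Finset.mem_univ i)).trans
      (Finset.subset_union_left.trans Finset.subset_union_left)).trans hU
  have hU2 : Sf ⊆ insert 0 S :=
    (Finset.subset_union_right.trans Finset.subset_union_left).trans hU
  have hU3 : ∀ p ∈ P, Sl p ⊆ insert 0 S := fun p hp =>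
    ((Finset.subset_biUnion_of_mem Sl hp).trans Finset.subset_union_right).trans hU
  obtain ⟨ψ, hψs, hψn, hψz, hψη'⟩ := hSf S hS hU2
  have hf2 : ∀ t ∈ Icc 0 (T0 + 2), ∀ G : Finset K3,
      ∑ k ∈ G, ‖ψ t k - frv (f t) k‖ ^ 2 ≤ e' ^ 2 := by
    intro t ht G
    refine le_trans (le_of_eq ?_) (hψη' t ht G)
    exact Finset.sum_congr rfl fun k _ => norm_sub_frv _ _ _
  have hψφ : ∀ t ∈ Icc 0 (T0 + 2), ∀ G : Finset K3, ∑ k ∈ G, ‖ψ t k‖ ^ 2
      ≤ (Cf / (1 + |t|) ^ 2 + e') ^ 2 := fun t ht G =>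
    psi_bound hCf he'0.le ht.1 (hf1 t ht.1) (hf2 t ht) G
  -- the mean flow
  obtain ⟨mm, hms, hmr, hm0, hmd, hmi⟩ := mean (T0 := T0) (hψs 0) (fun t => by
    have := hψn t 0
    rw [neg_zero] at this
    exact this.symm) (v := frv u0 0) (by
    have := hA2 0
    rw [neg_zero] at this
    exact this.symm)
  -- the Galerkin solution
  obtain ⟨a0, ha0⟩ : ∃ a0 : K3 → E3, a0 = fun k => if k ∈ S then frv u0 k else 0 := ⟨_, rfl⟩
  have hfld0 : Fld S a0 := by
    refine ⟨fun k hk => ?_, fun k => ?_, fun k => ?_⟩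
    · rw [ha0]; exact if_neg hk
    · rw [ha0]
      beta_reduce
      by_cases hk : k ∈ S
      · rw [if_pos hk, if_pos (hS.neg k hk), hA2]
      · rw [if_neg hk, if_neg (fun h => hk (hS.neg_mem_iff.mp h)), cj_zero]
    · rw [ha0]
      beta_reduce
      by_cases hk : k ∈ S
      · rw [if_pos hk]; exact hA3 hdiv k
      · rw [if_neg hk, dk_zero]
  obtain ⟨a, G⟩ := Ode.main energy S hS ν (T0 + 2) hν hT (vs h R) (vs_contDiff hh0 R)
    (fun k y hy => vs_nonneg hh0 k hy) (vs_neg h R) mm hms hmr ψ hψs hψn a0 hfld0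
  have hXa0 : X2 S a0 ≤ A0 := by
    refine le_trans (le_of_eq ?_) (hA1 S).1
    refine Finset.sum_congr rfl fun k hk => ?_
    rw [ha0]
    beta_reduce
    rw [if_pos hk]
  have hYa0 : Y2 S a0 ≤ A0 := by
    refine le_trans (le_of_eq ?_) (hA1 S).2
    refine Finset.sum_congr rfl fun k hk => ?_
    rw [ha0]
    beta_reduce
    rw [if_pos hk]
  obtain ⟨o1, o2, o3, o4, o5⟩ := G.use hest hCE hS hν hh1 hA0 hCf he'0 he'1 hT
    (by linarith) hmr hXa0 hYa0 hR (fun t ht => hψφ t ht S)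
  rw [← hA] at o4 o5
  rw [← hM] at o4
  -- the data
  obtain ⟨r, hr⟩ : ∃ r : V → V, r = fun x i => u0 x i - tp (insert 0 S) (fun k => frv u0 k i) x :=
    ⟨_, rfl⟩
  have hrc := fun i => hStl i (insert 0 S) (hU1 i) (fun x => r x i) (fun x => by rw [hr]; rfl)
  have D : Dat ν T0 e' S (vs h R) f u0 mm ψ a0 a r :=
    { hν := hν
      hT := by linarith
      hS := hS
      hf := hf
      u0s := hu0
      u0p := hper
      u0d := hdiv
      ψs := hψs
      ψn := hψn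
      ψz := hψz
      ms := hms
      mr := hmr
      m0 := hm0
      md := hmd
      wn := vs_neg h R
      gal := G
      a0d := fun k hk => by rw [ha0]; exact if_pos hk
      δ0 := he'0
      rd := fun x i => by rw [hr]
      rs := contDiff_pi.mpr fun i => (hrc i).1
      rp := fun j x => funext fun i => (hrc i).2.1 j x
      rb := fun x i => (hrc i).2.2 x }
  -- the force
  have hres := Pool.Agent.W933.DFRes.main ν f (uu T0 S mm a r) (fun t => tp S (pt T0 S ψ a t)) hf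
    (D.smooth_u htime) (htime.2.2 S (pt T0 S ψ a) (D.smooth_p htime))
    (fun t ht => D.per_u htrig ht) (fun t _ => (hgrad S _).2.1)
    (fun t ht x => D.div_u htrig ht x)
  rw [D.init] at hres
  refine ⟨resid ν f (uu T0 S mm a r) (fun t => tp S (pt T0 S ψ a t)),
    Pool.Agent.W453.P2.main f _ hf hres.1 hres.2.1 (T0 + 1)
      (fun t ht x => D.late htime hT01 ht x), fun p hp => ?_, _, _, hres.2.2⟩
  have hq := (hP p hp).1
  have hs := half_lt hq (hP p hp).2.2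
  have hpar : Par p.1 p.2 ((p.2 + 1 / 2) / 2) (C1 p) (δ1 p) (C' p) M e e' KB Cχ :=
    { hq := hq
      hs := by linarith
      hss := by linarith
      pC1 := hC1 p hp
      pδ1 := hδ1 p hp
      pC' := hC' p hp
      pM := hM1
      pe := he0
      pe1 := he1
      pe' := he'0
      pe'1 := he'1
      pKB := hKB0
      pCχ := hCχ0 }
  have hXe : ∀ t, T0 ≤ t → t ≤ T0 + 2 → Real.sqrt (X2 S (a t)) ≤ e := by
    intro t h1 h2
    have e1 := o2 t ⟨by linarith, h2⟩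
    have e2 := hdec t (by linarith)
    linarith
  have hmb : ∀ t ∈ Icc 0 (T0 + 2), ‖mm t‖ ≤ R := by
    intro t ht
    rw [hR]
    refine mean_bound (T0 := T0) hCf he'0.le (by linarith) hmi ?_ (fun t ht => ?_) ht
    · have := (hA1 {0}).1
      simpa using this
    · have := hψφ t ht {0}
      simpa using this
  have i0 : 3 * Real.pi ^ 2 * (∫ s in (0 : ℝ)..(T0 + 2), (ν + mh h (Y2 S (a s))) * Y2 S (a s))
      ≤ R ^ 2 := by
    refine (o3 0 ⟨le_rfl, hT.le⟩).trans ?_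
    rw [add_zero, div_one, G.init]
    have e1 : Real.sqrt (X2 S a0) ≤ Real.sqrt A0 := Real.sqrt_le_sqrt hXa0
    have e2 := Real.sqrt_nonneg (X2 S a0)
    have e3 : 0 ≤ e' * (T0 + 2) := by positivity
    have e4 : Real.sqrt (X2 S a0) + (Cf + e' * (T0 + 2)) ≤ R := by rw [hR]; linarith
    gcongr
  have hKint : ∫ t in (0 : ℝ)..(T0 + 1), Fc ν h S a t ≤ K4 := by
    rw [hK4]
    exact int_Fc hν hh0 (by linarith) (by linarith) G.contY G.contD i0
      (o5 (T0 + 1) ⟨by linarith, by linarith⟩)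
  have hYe : ∫ t in T0..(T0 + 1), Y2 S (a t) ≤ e / ν := by
    have cY := G.contY
    have cK : ContinuousOn (fun s => (ν + mh h (Y2 S (a s))) * Y2 S (a s)) (Icc 0 (T0 + 2)) :=
      (cont_mhY cY).mul cY
    have sub1 : Icc T0 (T0 + 1) ⊆ Icc 0 (T0 + 2) := Icc_subset_Icc (by linarith) (by linarith)
    have sub2 : Icc (T0 + 1) (T0 + 2) ⊆ Icc 0 (T0 + 2) := Icc_subset_Icc (by linarith) le_rfl
    have j1 : IntervalIntegrable (fun s => (ν + mh h (Y2 S (a s))) * Y2 S (a s)) volume T0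
        (T0 + 1) := (cK.mono sub1).intervalIntegrable_of_Icc (by linarith)
    have j2 : IntervalIntegrable (fun s => (ν + mh h (Y2 S (a s))) * Y2 S (a s)) volume (T0 + 1)
        (T0 + 2) := (cK.mono sub2).intervalIntegrable_of_Icc (by linarith)
    have j3 : IntervalIntegrable (fun s => Y2 S (a s)) volume T0 (T0 + 1) :=
      (cY.mono sub1).intervalIntegrable_of_Icc (by linarith)
    have e1 : ν * (∫ t in T0..(T0 + 1), Y2 S (a t))
        ≤ ∫ s in T0..(T0 + 1), (ν + mh h (Y2 S (a s))) * Y2 S (a s) := by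
      rw [← intervalIntegral.integral_const_mul]
      refine intervalIntegral.integral_mono_on (by linarith) (j3.const_mul ν) j1 fun s _ => ?_
      have h1 := Y2_nonneg S (a s)
      have h2 := mh_nonneg hh0 h1
      nlinarith
    have e2 : ∫ s in T0..(T0 + 1), (ν + mh h (Y2 S (a s))) * Y2 S (a s)
        ≤ ∫ s in T0..(T0 + 2), (ν + mh h (Y2 S (a s))) * Y2 S (a s) := by
      rw [← intervalIntegral.integral_add_adjacent_intervals j1 j2]
      have : 0 ≤ ∫ s in (T0 + 1)..(T0 + 2), (ν + mh h (Y2 S (a s))) * Y2 S (a s) := by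
        refine intervalIntegral.integral_nonneg (by linarith) fun s _ => ?_
        have h1 := Y2_nonneg S (a s)
        have h2 := mh_nonneg hh0 h1
        positivity
      linarith
    have e3 := o3 T0 ⟨by linarith, by linarith⟩
    have e4 := hXe T0 le_rfl (by linarith)
    have e5 : (Real.sqrt (X2 S (a T0)) + (Cf / (1 + T0) + e' * (T0 + 2))) ^ 2 ≤ (3 * e) ^ 2 := by
      have h1 := Real.sqrt_nonneg (X2 S (a T0))
      have h2 : 0 ≤ Cf / (1 + T0) := by positivity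
      have h3 : 0 ≤ e' * (T0 + 2) := by positivity
      refine pow_le_pow_left₀ (by positivity) (by linarith) 2
    have e6 : (3 * e) ^ 2 ≤ 9 * e := by nlinarith
    have hpi : 3 < Real.pi := Real.pi_gt_three
    have hpi2 : 9 ≤ Real.pi ^ 2 := by nlinarith
    have e7 : ∫ s in T0..(T0 + 2), (ν + mh h (Y2 S (a s))) * Y2 S (a s) ≤ e := by
      have h0 : 3 * Real.pi ^ 2 * (∫ s in T0..(T0 + 2), (ν + mh h (Y2 S (a s))) * Y2 S (a s))
          ≤ 9 * e := (e3.trans e5).trans e6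
      by_contra hcon
      push Not at hcon
      have : 27 * e < 3 * Real.pi ^ 2 *
          (∫ s in T0..(T0 + 2), (ν + mh h (Y2 S (a s))) * Y2 S (a s)) := by
        nlinarith
      linarith
    rw [le_div_iff₀ hν]
    linarith
  exact D.pair hpar htrig hgrad hbes hrho htime hh1 hCf (hcost p hp) (hconv p hp) hT01
    hCfe (fun k hk hk0 => hSl p hp k fun hmem => by
      rcases Finset.mem_insert.mp (hU3 p hp hmem) with h | h
      · exact hk0 h
      · exact hk h) hf1 hf2 hCχ hXe o4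
    (fun t ht => by
      rw [hKB]
      exact D.rho_bound hCρ hrho' hCχ he'1 hR0 ht.1 (hmb t ht) (o1 t ht) (o4 t ht))
    hKint hYe (hh p hp)
    ((mul_le_mul_of_nonneg_left hea' (by
      have := hC'pos p hp
      have := hK2pos p.1
      positivity)).trans (hea p hp))
    ((mul_le_mul_of_nonneg_left he'b (by
      have : 0 ≤ K1 p.1 (C' p) M KB := by
        have := hC' p hp
        unfold K1
        positivity
      positivity)).trans (heb p hp)) he4

end Pool.Agent.W785.DF
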